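import Pool.Agent.Lib.RQ.Blue
import Pool.Agent.Lib.CX.Clif
import Pool.Agent.Lib.CX.ClifInv

/-! The final shape of the theorem, with the irreducible spinor module. -/

namespace Pool.Agent.Lib.RQ

/-- every triple has exactly one index, and the indices generate a proper subgroup -/
def St_FINAL : Prop := ∃ (G : Type) (_ : Group G), Group.FG G ∧
  (∀ (k : ℕ) (x : CX.Sing G (8 * k + 7)), (∀ y, 0 < x.N.scal y) →
    ∃! z, ∃ S : CX.Spinor (8 * k + 7 + 1) (16 ^ (k + 1)), x.IsIndex S z) ∧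
  ∃ z : BCH.K0 (CX.Cr G), z ∉ AddSubgroup.closure
    {w | ∃ (k : ℕ) (x : CX.Sing G (8 * k + 7)), (∀ y, 0 < x.N.scal y) ∧
      ∃ S : CX.Spinor (8 * k + 7 + 1) (16 ^ (k + 1)), x.IsIndex S w}

theorem total_of (h : St_GOAL) (G : Type) [Group G] (k : ℕ) (x : CX.Sing G (8 * k + 7))
    (hx : ∀ y, 0 < x.N.scal y) :
    ∃! z, ∃ S : CX.Spinor (8 * k + 7 + 1) (16 ^ (k + 1)), x.IsIndex S z := by
  obtain ⟨S⟩ := CX.spinor_nonempty k
  obtain ⟨z, hz, hu⟩ := h.1 G k _ S x hx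
  exact ⟨z, ⟨S, hz⟩, fun w ⟨_, hw⟩ => hu w (hw.indep S)⟩

theorem wrap (h : St_GOAL) : St_FINAL := by
  obtain ⟨G, iG, hG, z, hz⟩ := h.2
  refine ⟨G, iG, hG, total_of h G, z, fun hm => hz (AddSubgroup.closure_mono ?_ hm)⟩
  rintro w ⟨k, x, hx, S, hw⟩
  exact ⟨k, _, S, x, hx, hw⟩

end Pool.Agent.Lib.RQ
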