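import Pool.Agent.Lib.RQ.Defs

/-! Route Q: blueprint. Block `X` is `theorem stX (earlier blocks) : St_X` in `Lib/RQ/X.lean`. -/

noncomputable section

open Set MeasureTheory BCO ContinuousLinearMap
open scoped InnerProductSpace Manifold ContDiff

namespace Pool.Agent.Lib.RQ

/-- LIFT: the amplification `1 ⊗ a` -/
def St_LIFT : Prop := ∀ (I J K E F : Type) [NormedAddCommGroup E] [InnerProductSpace ℝ E]
  [CompleteSpace E] [NormedAddCommGroup F] [InnerProductSpace ℝ F] [CompleteSpace F],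
  (∀ a : V I ℝ →L[ℝ] V J ℝ, IsLift E a (lift E a) ∧ ‖lift E a‖ ≤ ‖a‖ ∧
    (∀ T, IsLift E a T → T = lift E a) ∧ adjoint (lift E a) = lift E (adjoint a) ∧
    lift ℝ a = a ∧ (∀ s v, lift E a (ten s v) = ten s (a v)) ∧
    (∀ T : E →L[ℝ] F, lift F a ∘L amp I T = amp J T ∘L lift E a) ∧
    (∀ b, lift E (a + b) = lift E a + lift E b) ∧ (∀ c : ℝ, lift E (c • a) = c • lift E a) ∧
    ∀ b : V J ℝ →L[ℝ] V K ℝ, lift E (b ∘L a) = lift E b ∘L lift E a) ∧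
  lift E (1 : V I ℝ →L[ℝ] V I ℝ) = 1 ∧
  (∀ T : E →L[ℝ] F, adjoint (amp I T) = amp I (adjoint T)) ∧
  ∀ [Group I] (g : I), lift E (lam g : V I ℝ →L[ℝ] V I ℝ) = lam g

/-- INV: spectral permanence (Neumann series for `x* x` and `x x*`) -/
def St_INV : Prop := ∀ (W : Type) [NormedAddCommGroup W] [InnerProductSpace ℝ W] [CompleteSpace W]
  (D : Subalgebra ℝ (W →L[ℝ] W)), IsCS D →
  (∀ x ∈ D, ∀ y, x * y = 1 → y * x = 1 → y ∈ D) ∧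
  ∀ x : W →L[ℝ] W, star x = x → ∀ c : ℝ, 0 < c → (∀ η, c * ‖η‖ ^ 2 ≤ ⟪x η, η⟫_ℝ) →
    ∃ y, x * y = 1 ∧ y * x = 1

/-- TW: the resolvent of `Π D Π + (1 - Π) D (1 - Π)` (from INV) -/
def St_TW : Prop := ∀ (W : Type) [NormedAddCommGroup W] [InnerProductSpace ℝ W] [CompleteSpace W]
  (D : Subalgebra ℝ (W →L[ℝ] W)), IsCS D → ∀ (w R p C : W →L[ℝ] W), R ∈ D → p ∈ D → C ∈ D →
  Res w R → Function.Injective R → star p = p → p * p = p → p * w = w * p →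
  p * R - R * p = R * C * R →
  ∃ Z ∈ D, Z * (1 - (1 - 2 * p) * C * R) = 1 ∧ (1 - (1 - 2 * p) * C * R) * Z = 1 ∧
    Res w (R * Z) ∧ p * (R * Z) = R * Z * p ∧ p * C + C * p = C

/-- MISH: twisting by a local representation (from TW) -/
def St_MISH : Prop := ∀ (G : Type) [Group G] (W : Type) [NormedAddCommGroup W]
  [InnerProductSpace ℝ W] [CompleteSpace W] (n : ℕ) (A : Type) [Fintype A] (P : Pack G W n A)
  (r : G → W →L[ℝ] W) (D : Subalgebra ℝ (W →L[ℝ] W)), IsCS D → P.ops ⊆ D → (∀ g ∈ P.F, r g ∈ D) →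
  IsLoc P.F r → (∀ g ∈ P.F, ∀ x ∈ P.ops, r g * x = x * r g ∧ star (r g) * x = x * star (r g)) →
  ∃ R' ∈ D, Res P.w R' ∧
    (∃ X Y : A → W →L[ℝ] W, (∀ a, X a ∈ D ∧ Y a ∈ D) ∧
      P.chi * R' = ∑ a, X a * (P.chi * P.R) * Y a) ∧
    (∀ η, P.kap * ‖R' η‖ ^ 2 ≤ ‖η - P.w (R' η)‖ ^ 2 + ‖P.chi (R' η)‖ ^ 2) ∧
    (∀ a s' s, P.Good a s' s → R' (P.T r a s') = P.T r a s) ∧
    ∀ 𝒮 : Submodule ℝ (W × W),
      (∀ a ζ, (P.T r a (P.ph a ζ + P.C a (P.R ζ)), P.T r a (P.ph a (P.R ζ))) ∈ 𝒮) →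
      ∀ η, (η, R' η) ∈ 𝒮

/-- AMP: the package on `ℓ²(I, E)` (from LIFT) -/
def St_AMP : Prop := ∀ (G : Type) [Group G] (E : Type) [NormedAddCommGroup E]
  [InnerProductSpace ℝ E] [CompleteSpace E] (n : ℕ) (A : Type) [Fintype A] (P : Pack G E n A)
  (I : Type), ∃ Q : Pack G (V I E) n A, Q.F = P.F ∧ Q.w = amp I P.w ∧ Q.R = amp I P.R ∧
    Q.chi = amp I P.chi ∧ (∀ j, Q.gam j = amp I (P.gam j)) ∧ (∀ j, Q.N j = amp I (P.N j)) ∧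
    (∀ a, Q.ph a = amp I (P.ph a)) ∧ (∀ a j, Q.dph a j = amp I (P.dph a j)) ∧
    (∀ a g, Q.E a g = amp I (P.E a g)) ∧ Q.mul = amp I '' P.mul ∧
    ∀ a s' s v, P.Good a s' s → Q.Good a (ten s' v) (ten s v)

/-- DAK: the algebra and its ideal (from LIFT) -/
def St_DAK : Prop := ∀ (I E F : Type) [NormedAddCommGroup E] [InnerProductSpace ℝ E]
  [CompleteSpace E] [NormedAddCommGroup F] [InnerProductSpace ℝ F] [CompleteSpace F]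
  (B : Subalgebra ℝ (V I ℝ →L[ℝ] V I ℝ)), IsCS B →
  IsCS (DA E B) ∧ (∀ T : E →L[ℝ] E, amp I T ∈ DA E B) ∧ (∀ b ∈ B, lift E b ∈ DA E B) ∧
  (∀ S : Submodule ℝ (V I E →L[ℝ] V I E), IsClosed (S : Set (V I E →L[ℝ] V I E)) →
    (∀ (T : E →L[ℝ] E), ∀ b ∈ B, amp I T * lift E b ∈ S) → ∀ X ∈ DA E B, X ∈ S) ∧
  (∀ X ∈ KA E B, X ∈ DA E B ∧ star X ∈ KA E B ∧ ∀ Y ∈ DA E B, X * Y ∈ KA E B ∧ Y * X ∈ KA E B) ∧
  (∀ T : E →L[ℝ] E, IsCompactOperator T → amp I T ∈ KA E B) ∧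
  (∀ (S : E →L[ℝ] F) (T : F →L[ℝ] E) (X : V I E →L[ℝ] V I E),
    (X ∈ DA E B → amp I S ∘L X ∘L amp I T ∈ DA F B) ∧
    (X ∈ KA E B → amp I S ∘L X ∘L amp I T ∈ KA F B)) ∧
  ∀ X ∈ DA ℝ B, X ∈ B

/-- CTX: the context exists and finite projections approximate the ideal (from LIFT, DAK) -/
def St_CTX : Prop := ∀ (I E : Type) [NormedAddCommGroup E] [InnerProductSpace ℝ E]
  [CompleteSpace E] (B : Subalgebra ℝ (V I ℝ →L[ℝ] V I ℝ)), IsCS B →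
  (∃ C, IsCtx E B C) ∧ ∀ C, IsCtx E B C → MFI.Approx (L := DA (E1 E) B) C

/-- FRED: existence of the index (from INV, DAK, CTX) -/
def St_FRED : Prop := ∀ (I E : Type) [NormedAddCommGroup E] [InnerProductSpace ℝ E]
  [CompleteSpace E] (B : Subalgebra ℝ (V I ℝ →L[ℝ] V I ℝ)), IsCS B →
  ∀ (w : E →L[ℝ] E) (R χ : V I E →L[ℝ] V I E) (c : ℝ), R ∈ DA E B → χ * R ∈ KA E B →
  Res (amp I w) R → 0 < c → (∀ η, c * ‖R η‖ ^ 2 ≤ ‖η - amp I w (R η)‖ ^ 2 + ‖χ (R η)‖ ^ 2) →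
  ∃ κ, Idx B (amp I ((1 / 2 : ℝ) • (1 - w)) + R) (amp I ((1 / 2 : ℝ) • (1 - w))) κ

/-- PUSH: compression to an invariant subspace (from LIFT, DAK, CTX) -/
def St_PUSH : Prop := ∀ (I J E : Type) [NormedAddCommGroup E] [InnerProductSpace ℝ E]
  [CompleteSpace E] (B : Subalgebra ℝ (V I ℝ →L[ℝ] V I ℝ)) (B' : Subalgebra ℝ (V J ℝ →L[ℝ] V J ℝ)),
  IsCS B → IsCS B' → ∀ (j : V J ℝ →ₗᵢ[ℝ] V I ℝ) (Φ : B →+* B'),
  (∀ b ξ, b.1 (j ξ) = j ((Φ b).1 ξ)) →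
  let L := lift E j.toContinuousLinearMap
  adjoint L ∘L L = 1 ∧
  (∀ X ∈ DA E B, adjoint L ∘L X ∘L L ∈ DA E B' ∧ X ∘L L = L ∘L adjoint L ∘L X ∘L L) ∧
  ∀ e ∈ DA E B, ∀ f ∈ DA E B, ∀ κ, Idx B e f κ →
    Idx B' (adjoint L ∘L e ∘L L) (adjoint L ∘L f ∘L L) (BCH.K0.map (Φ : B →ₙ+* B') κ)

/-- CONV: translation to the format of the statement (from LIFT, DAK) -/
def St_CONV : Prop := ∀ (G : Type) [Group G] (E : Type) [NormedAddCommGroup E]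
  [InnerProductSpace ℝ E] [CompleteSpace E], IsCS (RA G ℝ) ∧ (∀ X ∈ DA E (RA G ℝ), X ∈ RA G E) ∧
  ∀ e f κ, e * e = e → f * f = f → Idx (RA G ℝ) e f κ → CX.IsInd (E := E) e f κ

/-- UNI: uniqueness of the index of a pair -/
def St_UNI : Prop := ∀ (G : Type) [Group G] (E : Type) [NormedAddCommGroup E]
  [InnerProductSpace ℝ E] [CompleteSpace E] (P : E →L[ℝ] E) (e : V G E →L[ℝ] V G E), P * P = P →
  star P = P → e ∈ RA G E → e * e = e → ∀ z z', CX.IsInd e (amp G P) z → CX.IsInd e (amp G P) z' →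
  z = z'

/-- a local representation that contains the regular representation, with the compression -/
structure Adm {G : Type} [Group G] (F : Finset G) {I : Type}
    (B : Subalgebra ℝ (V I ℝ →L[ℝ] V I ℝ)) (r : G → V I ℝ →L[ℝ] V I ℝ)
    (j : V G ℝ →ₗᵢ[ℝ] V I ℝ) (Φ : B →+* CX.Cr G) : Prop where
  cs : IsCS B
  mem : ∀ g ∈ F, r g ∈ B
  loc : IsLoc F r
  reg : ∀ g ∈ F, ∀ ξ, r g (j ξ) = j (lam g ξ)
  cp : ∀ b ξ, b.1 (j ξ) = j ((Φ b).1 ξ)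

/-- ALG: the twisted resolvent and the lift of its index
(from LIFT, MISH, AMP, DAK, FRED, PUSH, CONV) -/
def St_ALG : Prop := ∀ (G : Type) [Group G] (E : Type) [NormedAddCommGroup E]
  [InnerProductSpace ℝ E] [CompleteSpace E] (n : ℕ) (A : Type) [Fintype A] (P : Pack G E n A)
  (𝒯 : Set (V G E × V G E)), IsCompactOperator (P.chi * P.R : E →L[ℝ] E) → P.Tests 𝒯 →
  ∃ R ∈ RA G E, Res (amp G P.w) R ∧ (∀ q ∈ 𝒯, R q.1 = q.2) ∧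
    (∀ η, (η, R η) ∈ (Submodule.span ℝ 𝒯).topologicalClosure) ∧
    (∃ z, CX.IsInd (amp G ((1 / 2 : ℝ) • (1 - P.w)) + R) (amp G ((1 / 2 : ℝ) • (1 - P.w))) z) ∧
    ∀ (I : Type) (B : Subalgebra ℝ (V I ℝ →L[ℝ] V I ℝ)) r j (Φ : B →+* CX.Cr G),
      Adm P.F B r j Φ → ∃ κ, CX.IsInd (amp G ((1 / 2 : ℝ) • (1 - P.w)) + R)
        (amp G ((1 / 2 : ℝ) • (1 - P.w))) (BCH.K0.map (Φ : B →ₙ+* CX.Cr G) κ)

/-- test sections are square integrable -/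
def HasTests {G : Type} [Group G] {m N : ℕ} (x : CX.Sing G m) (S : CX.Spinor (m + 1) N)
    (μ : Measure x.X.M) : Prop :=
  ∀ (a i : ℕ) (g : G) (u : x.X.M → CX.Eu N), ContMDiff (𝓡 (m + 1)) 𝓘(ℝ, CX.Eu N) ∞ u →
    HasCompactSupport u → tsupport u ⊆ x.X.U a ∩ {p | (x.f p).t i ≠ 0} →
    ∃ ξ η : V G (Lp (CX.Eu N) 2 μ), ∀ γ,
      η γ =ᵐ[μ] x.sec S a i g (fun p => x.X.dirac S a u p + S.gr (u p)) γ ∧
      ξ γ =ᵐ[μ] x.sec S a i g u γ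

/-- ANA: the analytic package of the untwisted operator -/
def St_ANA : Prop := ∀ (G : Type) [Group G] (m N : ℕ) (x : CX.Sing G m) (S : CX.Spinor (m + 1) N),
  GrOK S → (∀ y, 0 < x.N.scal y) → ∀ μ, x.X.IsVol μ → HasTests x S μ ∧
  ∃ (k : ℕ) (P : Pack G (Lp (CX.Eu N) 2 μ) (m + 1) (Fin (k + 1))), P.w = S.gr.compLpL 2 μ ∧
    IsCompactOperator (P.chi * P.R : Lp (CX.Eu N) 2 μ →L[ℝ] Lp (CX.Eu N) 2 μ) ∧
    P.Tests (tests x S μ)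

/-- GRAPH: `e - F` is the resolvent on test sections -/
def St_GRAPH : Prop := ∀ (G : Type) [Group G] (m N : ℕ) (x : CX.Sing G m)
  (S : CX.Spinor (m + 1) N), GrOK S → ∀ μ, HasTests x S μ →
  ∀ e : V G (Lp (CX.Eu N) 2 μ) →L[ℝ] V G (Lp (CX.Eu N) 2 μ), x.IsGraph S μ e ↔
    ∀ q ∈ tests x S μ, e q.1 = amp G ((1 / 2 : ℝ) • (1 - S.gr.compLpL 2 μ)) q.1 + q.2

/-- CLF: the grading in dimension `8 k + 8` -/
def St_CLF : Prop := ∀ (k N : ℕ) (S : CX.Spinor (8 * k + 7 + 1) N), GrOK S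

/-- VOL: the Riemannian volume -/
def St_VOL : Prop := ∀ (G : Type) [Group G] (m : ℕ) (x : CX.Sing G m), ∃! μ, x.X.IsVol μ

/-- MXL: a class that does not lift to suitable local representations -/
def St_MXL : Prop := ∃ (G : Type) (_ : Group G), Group.FG G ∧ ∃ z : BCH.K0 (CX.Cr G),
  ∀ F : Finset G, ∃ (I : Type) (B : Subalgebra ℝ (V I ℝ →L[ℝ] V I ℝ)) (r : G → V I ℝ →L[ℝ] V I ℝ)
    (j : V G ℝ →ₗᵢ[ℝ] V I ℝ) (Φ : B →+* CX.Cr G), Adm F B r j Φ ∧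
    ∀ κ, BCH.K0.map (Φ : B →ₙ+* CX.Cr G) κ ≠ z

/-- the theorem -/
def St_GOAL : Prop :=
  (∀ (G : Type) [Group G] (k N : ℕ) (S : CX.Spinor (8 * k + 7 + 1) N) (x : CX.Sing G (8 * k + 7)),
    (∀ y, 0 < x.N.scal y) → ∃! z, x.IsIndex S z) ∧
  ∃ (G : Type) (_ : Group G), Group.FG G ∧ ∃ z : BCH.K0 (CX.Cr G), z ∉ AddSubgroup.closure
    {w | ∃ (k N : ℕ) (S : CX.Spinor (8 * k + 7 + 1) N) (x : CX.Sing G (8 * k + 7)),
      (∀ y, 0 < x.N.scal y) ∧ x.IsIndex S w}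

end Pool.Agent.Lib.RQ
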