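import Pool.Agent.Lib.RQ.Blue

noncomputable section

open Set ContinuousLinearMap
open scoped InnerProductSpace

namespace Pool.Agent.Lib.RQ

namespace INV

variable {W : Type} [NormedAddCommGroup W] [InnerProductSpace ℝ W] [CompleteSpace W]

/-- a coercive operator is invertible, with inverse in every closed algebra that contains it -/
theorem coer (x : W →L[ℝ] W) {c : ℝ} (hc : 0 < c) (h : ∀ η, c * ‖η‖ ^ 2 ≤ ⟪x η, η⟫_ℝ) :
    ∃ y, x * y = 1 ∧ y * x = 1 ∧ ∀ D : Subalgebra ℝ (W →L[ℝ] W),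
      IsClosed (D : Set (W →L[ℝ] W)) → x ∈ D → y ∈ D := by
  set M := ‖x‖ + c with hM
  have hM0 : 0 < M := by positivity
  have hcM : c ≤ M := by rw [hM]; linarith [norm_nonneg x]
  set t := c / M ^ 2 with ht
  have ht0 : 0 < t := by positivity
  have hq : 0 ≤ 1 - c ^ 2 / M ^ 2 := by
    rw [sub_nonneg, div_le_one (by positivity)]
    gcongr
  have hn : ‖1 - t • x‖ ≤ √(1 - c ^ 2 / M ^ 2) := by
    refine opNorm_le_bound _ (Real.sqrt_nonneg _) fun η => ?_
    have h1 : ‖x η‖ ≤ M * ‖η‖ := (x.le_opNorm η).trans (by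
      gcongr; rw [hM]; linarith)
    have h2 : ‖(1 - t • x) η‖ ^ 2 ≤ (1 - c ^ 2 / M ^ 2) * ‖η‖ ^ 2 := by
      have h3 : (1 - t • x) η = η - t • x η := rfl
      rw [h3, norm_sub_sq_real, inner_smul_right, norm_smul, Real.norm_of_nonneg ht0.le,
        real_inner_comm]
      have h4 : ‖x η‖ ^ 2 ≤ (M * ‖η‖) ^ 2 := by gcongr
      have h5 : t * M ^ 2 = c := by rw [ht]; field_simp
      have h6 : c ^ 2 / M ^ 2 = t * c := by rw [ht]; field_simp
      have h7 := mul_le_mul_of_nonneg_left (h η) ht0.le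
      have h8 : (t * ‖x η‖) ^ 2 ≤ t * c * ‖η‖ ^ 2 := by
        calc (t * ‖x η‖) ^ 2 = t ^ 2 * ‖x η‖ ^ 2 := by ring
          _ ≤ t ^ 2 * (M * ‖η‖) ^ 2 := by gcongr
          _ = t * (t * M ^ 2) * ‖η‖ ^ 2 := by ring
          _ = t * c * ‖η‖ ^ 2 := by rw [h5]
      rw [h6]
      nlinarith
    rw [← Real.sqrt_sq (norm_nonneg η), ← Real.sqrt_mul hq]
    exact Real.le_sqrt_of_sq_le h2
  have hlt : ‖1 - t • x‖ < 1 := hn.trans_lt (by
    rw [Real.sqrt_lt' one_pos]
    have : 0 < c ^ 2 / M ^ 2 := by positivity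
    linarith)
  have hs := summable_geometric_of_norm_lt_one hlt
  have h1 := geom_series_mul_neg _ hlt
  have h2 := mul_neg_geom_series _ hlt
  rw [sub_sub_cancel] at h1 h2
  refine ⟨t • ∑' n, (1 - t • x) ^ n, ?_, ?_, fun D hD hx => D.smul_mem ?_ t⟩
  · rw [mul_smul_comm, ← smul_mul_assoc, h2]
  · rw [smul_mul_assoc, ← mul_smul_comm, h1]
  · exact hD.mem_of_tendsto hs.hasSum (Filter.Eventually.of_forall fun s =>
      D.sum_mem fun n _ => D.pow_mem (D.sub_mem D.one_mem (D.smul_mem hx t)) n)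

end INV

theorem stINV : St_INV := by
  intro W _ _ _ D hD
  refine ⟨fun x hx y h1 h2 => ?_, fun x _ c hc h => ?_⟩
  · have hy : 0 < ‖y‖ + 1 := by positivity
    obtain ⟨b, -, hb, hbD⟩ := INV.coer (star x * x) (c := 1 / (‖y‖ + 1) ^ 2) (by positivity)
      fun η => by
        have h3 : ⟪(star x * x) η, η⟫_ℝ = ‖x η‖ ^ 2 := by
          rw [← real_inner_self_eq_norm_sq, ← adjoint_inner_left x]
          rfl
        have h4 : ‖η‖ ≤ (‖y‖ + 1) * ‖x η‖ := by
          calc ‖η‖ = ‖y (x η)‖ := congrArg norm (DFunLike.congr_fun h2 η).symm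
            _ ≤ ‖y‖ * ‖x η‖ := y.le_opNorm _
            _ ≤ (‖y‖ + 1) * ‖x η‖ := by gcongr; linarith
        rw [h3, one_div, inv_mul_le_iff₀ (by positivity), ← mul_pow]
        gcongr
    have h5 : y = b * star x := by
      calc y = b * (star x * x) * y := by rw [hb, one_mul]
        _ = b * star x * (x * y) := by simp only [mul_assoc]
        _ = b * star x := by rw [h1, mul_one]
    rw [h5]
    exact D.mul_mem (hbD D hD.1 (D.mul_mem (hD.2 x hx) hx)) (hD.2 x hx)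
  · obtain ⟨y, h1, h2, -⟩ := INV.coer x hc h
    exact ⟨y, h1, h2⟩

end Pool.Agent.Lib.RQ
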