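import Pool.Agent.Lib.RQ.Blue

/-! Block ALG: the twisted resolvent and the lift of its index. -/

noncomputable section

open Set MeasureTheory BCO ContinuousLinearMap
open scoped InnerProductSpace

namespace Pool.Agent.Lib.RQ

namespace ALG

theorem idem_of_res {W : Type} [NormedAddCommGroup W] [InnerProductSpace ℝ W] [CompleteSpace W]
    {w R F : W →L[ℝ] W} (h : Res w R) (hF : F = (1 / 2 : ℝ) • (1 - w)) :
    F * F = F ∧ (F + R) * (F + R) = F + R := by
  have h1 : F * F = F := by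
    rw [hF, smul_mul_smul_comm, mul_sub, sub_mul, sub_mul, h.w_sq]
    simp only [mul_one, one_mul]
    module
  refine ⟨h1, ?_⟩
  have h2 : F * R + R * F + R * R = R := by
    have h3 : w * R = R * R + R * R - R * w := by
      rw [← two_mul, ← h.anti]; abel
    rw [hF, smul_mul_assoc, mul_smul_comm, mul_sub, sub_mul, h3]
    simp only [mul_one, one_mul]
    module
  rw [mul_add, add_mul, add_mul, h1, add_assoc, ← add_assoc (R * F), add_comm (R * F), h2]

variable {G : Type} [Group G] {E : Type} [NormedAddCommGroup E] [InnerProductSpace ℝ E]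

theorem star_lam [CompleteSpace E] (g : G) : star (lam g : V G E →L[ℝ] V G E) = lam g⁻¹ := by
  symm
  rw [star_eq_adjoint, eq_adjoint_iff]
  intro x y
  rw [lp.inner_eq_tsum, lp.inner_eq_tsum,
    ← (Equiv.mulLeft g).tsum_eq fun i => ⟪x i, lam g y i⟫_ℝ]
  simp

theorem lam_mul (g h : G) : (lam g * lam h : V G E →L[ℝ] V G E) = lam (g * h) :=
  op_ext fun _ _ => by simp [mul_assoc]

theorem lam_one : (lam (1 : G) : V G E →L[ℝ] V G E) = 1 := op_ext fun _ _ => by simp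

theorem amp_mul {I : Type} (S T : E →L[ℝ] E) : amp I (S * T) = amp I S * amp I T :=
  ContinuousLinearMap.ext fun _ => lp.ext (funext fun _ => rfl)

theorem amp_half {I : Type} (w : E →L[ℝ] E) :
    amp I ((1 / 2 : ℝ) • (1 - w)) = (1 / 2 : ℝ) • (1 - amp I w) :=
  ContinuousLinearMap.ext fun _ => lp.ext (funext fun _ => rfl)

theorem amp_sum {I ι : Type} (s : Finset ι) (T : ι → E →L[ℝ] E) :
    amp I (∑ i ∈ s, T i) = ∑ i ∈ s, amp I (T i) := by
  classical
  induction s using Finset.induction_on with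
  | empty => exact ContinuousLinearMap.ext fun _ => lp.ext (funext fun _ => rfl)
  | insert a s ha ih =>
    rw [Finset.sum_insert ha, Finset.sum_insert ha, ← ih]
    exact ContinuousLinearMap.ext fun _ => lp.ext (funext fun _ => rfl)

theorem amp_ten {I : Type} (T : E →L[ℝ] E) (s : E) (v : V I ℝ) :
    amp I T (ten s v) = ten (T s) v :=
  lp.ext (funext fun i => T.map_smul (v i) s)

theorem ten_add {I : Type} (s t : E) (v : V I ℝ) : ten (s + t) v = ten s v + ten t v :=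
  lp.ext (funext fun i => smul_add (v i) s t)

variable [CompleteSpace E] {n : ℕ} {A : Type} [Fintype A] (P : Pack G E n A)

/-- from the sheet `a` to the global trivialisation -/
def TT {I : Type} (r : G → V I ℝ →L[ℝ] V I ℝ) (a : A) : V I E →L[ℝ] V I E :=
  ∑ g ∈ P.F, amp I (P.E a g) * lift E (r g)

theorem twist (hL : St_LIFT) (hM : St_MISH) (hA : St_AMP) (hD : St_DAK) (hF : St_FRED)
    (hc : IsCompactOperator (P.chi * P.R : E →L[ℝ] E)) {I : Type}
    (B : Subalgebra ℝ (V I ℝ →L[ℝ] V I ℝ)) (r : G → V I ℝ →L[ℝ] V I ℝ) (cs : IsCS B)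
    (mem : ∀ g ∈ P.F, r g ∈ B) (loc : IsLoc P.F r) :
    ∃ R' ∈ DA E B, Res (amp I P.w) R' ∧
      (∃ κ, Idx B (amp I ((1 / 2 : ℝ) • (1 - P.w)) + R') (amp I ((1 / 2 : ℝ) • (1 - P.w))) κ) ∧
      (∀ a s' s v, P.Good a s' s → R' (TT P r a (ten s' v)) = TT P r a (ten s v)) ∧
      ∀ 𝒮 : Submodule ℝ (V I E × V I E),
        (∀ a ζ, (TT P r a (amp I (P.ph a) ζ + amp I (P.C a) (amp I P.R ζ)),
          TT P r a (amp I (P.ph a) (amp I P.R ζ))) ∈ 𝒮) → ∀ η, (η, R' η) ∈ 𝒮 := by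
  obtain ⟨Q, qF, qw, qR, qchi, qgam, qN, qph, qdph, qE, qmul, qG⟩ := hA G E n A P I
  obtain ⟨d1, d2, d3, -, d5, d6, -, -⟩ := hD I E E B cs
  obtain ⟨l1, l2, -, -⟩ := hL I I I E E
  have lst : ∀ a : V I ℝ →L[ℝ] V I ℝ, star (lift E a) = lift E (star a) := fun a =>
    (l1 a).2.2.2.1
  have lmul : ∀ a b : V I ℝ →L[ℝ] V I ℝ, lift E a * lift E b = lift E (a * b) := fun a b =>
    ((l1 b).2.2.2.2.2.2.2.2.2 a).symm
  have lc : ∀ (a : V I ℝ →L[ℝ] V I ℝ) (T : E →L[ℝ] E), lift E a * amp I T = amp I T * lift E a :=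
    fun a T => (l1 a).2.2.2.2.2.2.1 T
  have hops : ∀ x ∈ Q.ops, ∃ T, x = amp I T := by
    rintro x (((hx | hx | hx) | ⟨j, rfl⟩) | ⟨j, rfl⟩)
    · rw [qmul] at hx
      obtain ⟨T, -, rfl⟩ := hx
      exact ⟨T, rfl⟩
    · exact ⟨_, hx.trans qw⟩
    · exact ⟨_, (mem_singleton_iff.1 hx).trans qR⟩
    · exact ⟨_, qgam j⟩
    · exact ⟨_, qN j⟩
  have hT : ∀ a, Q.T (fun g => lift E (r g)) a = TT P r a := fun a => by
    simp only [Pack.T, TT, qF, qE]
  have hC : ∀ a, Q.C a = amp I (P.C a) := fun a => by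
    simp only [Pack.C, qgam, qdph, amp_sum, amp_mul]
  obtain ⟨R', hR', hres, ⟨X, Y, hXY, hχ⟩, hlich, hgood, hdens⟩ :=
    hM G (V I E) n A Q (fun g => lift E (r g)) (DA E B) d1
      (fun x hx => by obtain ⟨T, rfl⟩ := hops x hx; exact d2 T)
      (fun g hg => d3 _ (mem g (qF ▸ hg)))
      ⟨by simp only [loc.1, l2], fun g hg => by
        have hg' : g ∈ P.F := qF ▸ hg
        refine ⟨by rw [lst, lmul, (loc.2 g hg').1, l2], fun h hh => ?_⟩
        rw [lst, lmul, (loc.2 g hg').2 h (qF ▸ hh)]⟩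
      (fun g _ x hx => by
        obtain ⟨T, rfl⟩ := hops x hx
        exact ⟨lc _ T, by rw [lst]; exact lc _ T⟩)
  rw [qw] at hres
  refine ⟨R', hR', hres, ?_, fun a s' s v h => ?_, fun 𝒮 h => hdens 𝒮 fun a ζ => ?_⟩
  · refine hF I E B cs P.w R' Q.chi Q.kap hR' ?_ hres Q.kap_pos (fun η => qw ▸ hlich η)
    rw [hχ]
    refine Submodule.sum_mem _ fun a _ => ?_
    have h1 : Q.chi * Q.R ∈ KA E B := by
      rw [qchi, qR, ← amp_mul]; exact d6 _ hc
    exact ((d5 _ ((d5 _ h1).2.2 _ (hXY a).1).2).2.2 _ (hXY a).2).1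
  · rw [← hT]; exact hgood a _ _ (qG a s' s v h)
  · rw [hT, hC, qph, qR]; exact h a ζ

open Classical in
/-- the Dirac vector -/
def dl (g : G) : V G ℝ := lp.single 2 g 1

omit [CompleteSpace E] [Group G] in
open Classical in
theorem ten_dl (s : E) (g : G) : ten s (dl g) = lp.single 2 g s := by
  refine lp.ext (funext fun i => ?_)
  change (dl g i) • s = _
  simp only [dl, lp.single_apply, Pi.single_apply]
  split_ifs <;> simp

theorem TT_dl (hL : St_LIFT) (a : A) (s : E) (h γ : G) :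
    TT P lam a (ten s (dl h)) γ = P.E a (γ * h⁻¹) s := by
  classical
  have l4 : ∀ g : G, lift E (lam g : V G ℝ →L[ℝ] V G ℝ) = lam g := (hL G G G E E).2.2.2
  rw [TT, sum_apply', Finset.sum_eq_single (γ * h⁻¹)]
  · simp [l4, ten_dl, lp.single_apply]
  · intro g _ hg
    have : g⁻¹ * γ ≠ h := fun e => hg (by rw [← e]; group)
    simp [l4, ten_dl, lp.single_apply, Pi.single_eq_of_ne this]
  · intro hg
    simp [P.E_off a _ hg]

theorem graph_eq {W : Type} [NormedAddCommGroup W] [NormedSpace ℝ W] {𝒯 : Set (W × W)}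
    {X R : W →L[ℝ] W} (h : ∀ q ∈ 𝒯, X q.1 = q.2)
    (hden : ∀ η, (η, R η) ∈ (Submodule.span ℝ 𝒯).topologicalClosure) : X = R := by
  ext1 η
  have h1 : (Submodule.span ℝ 𝒯).topologicalClosure ≤
      LinearMap.ker (X ∘L fst ℝ W W - snd ℝ W W).toLinearMap :=
    Submodule.topologicalClosure_minimal _
      (Submodule.span_le.2 fun q hq => sub_eq_zero.2 (h q hq)) (ContinuousLinearMap.isClosed_ker _)
  exact sub_eq_zero.1 (h1 (hden η))

theorem map_clos {W W' : Type} [NormedAddCommGroup W] [NormedSpace ℝ W] [NormedAddCommGroup W']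
    [NormedSpace ℝ W'] {𝒯 : Set (W' × W')} {𝒰 : Set (W × W)} (ψ : W →L[ℝ] W')
    (h : ∀ u ∈ 𝒰, (ψ u.1, ψ u.2) ∈ 𝒯) {u : W × W}
    (hu : u ∈ (Submodule.span ℝ 𝒰).topologicalClosure) :
    (ψ u.1, ψ u.2) ∈ (Submodule.span ℝ 𝒯).topologicalClosure := by
  have h2 : (Submodule.span ℝ 𝒰).topologicalClosure ≤
      (Submodule.span ℝ 𝒯).topologicalClosure.comap (ψ.prodMap ψ).toLinearMap :=
    Submodule.topologicalClosure_minimal _ (Submodule.span_le.2 fun u hu =>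
      Submodule.le_topologicalClosure _ (Submodule.subset_span (h u hu)))
      ((Submodule.isClosed_topologicalClosure _).preimage (ψ.prodMap ψ).continuous)
  exact h2 hu

theorem sum_clos {W ι : Type} [NormedAddCommGroup W] [NormedSpace ℝ W] {𝒯 : Set (W × W)}
    (X Y : W →L[ℝ] W) {f : ι → W} {ζ : W} (hf : HasSum f ζ)
    (h : ∀ i, (X (f i), Y (f i)) ∈ (Submodule.span ℝ 𝒯).topologicalClosure) :
    (X ζ, Y ζ) ∈ (Submodule.span ℝ 𝒯).topologicalClosure :=
  (Submodule.isClosed_topologicalClosure _).mem_of_tendsto ((X.prod Y).hasSum hf)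
    (Filter.Eventually.of_forall fun _ => Submodule.sum_mem _ fun i _ => h i)

theorem tests_eq (hL : St_LIFT) {𝒯 : Set (V G E × V G E)} (hT : P.Tests 𝒯) :
    ∀ q ∈ 𝒯, ∃ a g s' s, P.Good a s' s ∧ q.1 = TT P lam a (ten s' (dl g)) ∧
      q.2 = TT P lam a (ten s (dl g)) := fun q hq => by
  obtain ⟨a, g, s', s, h1, h2⟩ := hT.1 q hq
  exact ⟨a, g, s', s, h1, lp.ext (funext fun γ => by rw [TT_dl P hL, (h2 γ).1]),
    lp.ext (funext fun γ => by rw [TT_dl P hL, (h2 γ).2])⟩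

theorem dens (hL : St_LIFT) {𝒯 : Set (V G E × V G E)} (hT : P.Tests 𝒯) (a : A) (ζ : V G E) :
    (TT P lam a (amp G (P.ph a) ζ + amp G (P.C a) (amp G P.R ζ)),
      TT P lam a (amp G (P.ph a) (amp G P.R ζ))) ∈ (Submodule.span ℝ 𝒯).topologicalClosure := by
  classical
  refine sum_clos (TT P lam a ∘L (amp G (P.ph a) + amp G (P.C a) ∘L amp G P.R))
    (TT P lam a ∘L amp G (P.ph a) ∘L amp G P.R) (lp.hasSum_single (by norm_num) ζ) fun g => ?_
  have h3 := map_clos (𝒯 := 𝒯)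
    (TT P lam a ∘L lp.singleContinuousLinearMap ℝ (fun _ : G => E) 2 g) (fun u hu => by
      obtain ⟨q, hq, hγ⟩ := hu g
      have e1 : TT P lam a (lp.single 2 g u.1) = q.1 := by
        rw [← ten_dl]
        exact lp.ext (funext fun γ => (TT_dl P hL a u.1 g γ).trans (hγ γ).1.symm)
      have e2 : TT P lam a (lp.single 2 g u.2) = q.2 := by
        rw [← ten_dl]
        exact lp.ext (funext fun γ => (TT_dl P hL a u.2 g γ).trans (hγ γ).2.symm)
      simp only [comp_apply, lp.singleContinuousLinearMap_apply, e1, e2]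
      exact hq) (hT.2 a (ζ g))
  simp only [comp_apply, lp.singleContinuousLinearMap_apply, ← ten_dl, ten_add] at h3
  simp only [comp_apply, _root_.add_apply, ← ten_dl, amp_ten]
  exact h3

theorem lift_TT (hL : St_LIFT) {I : Type} {r : G → V I ℝ →L[ℝ] V I ℝ}
    (j : V G ℝ →L[ℝ] V I ℝ) (reg : ∀ g ∈ P.F, ∀ ξ, r g (j ξ) = j (lam g ξ)) (a : A) (s : E)
    (v : V G ℝ) : lift E j (TT P lam a (ten s v)) = TT P r a (ten s (j v)) := by
  have lj := (hL G I I E E).1 j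
  have hLa : ∀ (T : E →L[ℝ] E) ξ, lift E j (amp G T ξ) = amp I T (lift E j ξ) := fun T ξ =>
    DFunLike.congr_fun (lj.2.2.2.2.2.2.1 T) ξ
  rw [TT, TT, _root_.sum_apply, _root_.sum_apply, map_sum]
  refine Finset.sum_congr rfl fun g hg => ?_
  change lift E j (amp G _ (lift E (lam g) (ten s v))) = amp I _ (lift E (r g) (ten s (j v)))
  rw [hLa, ((hL G G G E E).1 (lam g)).2.2.2.2.2.1,
    ((hL I I I E E).1 (r g)).2.2.2.2.2.1, lj.2.2.2.2.2.1, reg g hg]

theorem compress {W W' : Type} [NormedAddCommGroup W] [NormedSpace ℝ W] [NormedAddCommGroup W']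
    [NormedSpace ℝ W'] {𝒯 : Set (W × W)} {L : W →L[ℝ] W'} {M : W' →L[ℝ] W} {R F : W →L[ℝ] W}
    {R' F' : W' →L[ℝ] W'} (h1 : M ∘L L = 1) (h2 : L ∘L F = F' ∘L L)
    (h : ∀ q ∈ 𝒯, R' (L q.1) = L q.2)
    (hden : ∀ η, (η, R η) ∈ (Submodule.span ℝ 𝒯).topologicalClosure) :
    M ∘L F' ∘L L = F ∧ M ∘L (F' + R') ∘L L = F + R := by
  have hLL : ∀ ξ, M (L ξ) = ξ := fun ξ => DFunLike.congr_fun h1 ξ
  have e1 : M ∘L F' ∘L L = F := by
    rw [← h2]; ext1 η; exact hLL _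
  have e2 : M ∘L R' ∘L L = R := graph_eq (fun q hq => by
    simp only [comp_apply, h q hq, hLL]) hden
  exact ⟨e1, by rw [add_comp, comp_add, e1, e2]⟩

end ALG

open ALG in
theorem stALG (hL : St_LIFT) (hM : St_MISH) (hA : St_AMP) (hD : St_DAK) (hF : St_FRED)
    (hP : St_PUSH) (hC : St_CONV) : St_ALG := by
  intro G _ E _ _ _ n A _ P 𝒯 hc hT
  obtain ⟨c1, c2, c3⟩ := hC G E
  obtain ⟨R, hR, hres, ⟨κ₀, hκ₀⟩, hgood, hdens⟩ := twist P hL hM hA hD hF hc (RA G ℝ) lam c1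
    (fun g _ => tw_id (E := ℝ) g ▸ tw_mem g 1)
    ⟨lam_one, fun g _ => ⟨by rw [star_lam, lam_mul, mul_inv_cancel, lam_one],
      fun h _ => by rw [star_lam, lam_mul]⟩⟩
  have hq := tests_eq P hL hT
  have hden := hdens _ (dens P hL hT)
  obtain ⟨i1, i2⟩ := idem_of_res hres (amp_half P.w)
  refine ⟨R, c2 R hR, hres, fun q h => ?_, hden, ⟨κ₀, c3 _ _ _ i2 i1 hκ₀⟩, ?_⟩
  · obtain ⟨a, g, s', s, h1, h2, h3⟩ := hq q h
    rw [h2, h3]
    exact hgood a s' s _ h1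
  intro I B r j Φ adm
  obtain ⟨R', hR', -, ⟨κ, hκ⟩, hgood', -⟩ := twist P hL hM hA hD hF hc B r adm.cs adm.mem adm.loc
  obtain ⟨p1, -, p3⟩ := hP I G E B (RA G ℝ) adm.cs c1 j Φ adm.cp
  obtain ⟨-, d2, -⟩ := hD I E E B adm.cs
  obtain ⟨e1, e2⟩ := compress (R' := R') p1
    (((hL G I I E E).1 j.toContinuousLinearMap).2.2.2.2.2.2.1 ((1 / 2 : ℝ) • (1 - P.w)))
    (fun q h => by
      obtain ⟨a, g, s', s, h1, h2, h3⟩ := hq q h
      rw [h2, h3, lift_TT P hL _ adm.reg, lift_TT P hL _ adm.reg]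
      exact hgood' a s' s _ h1) hden
  refine ⟨κ, c3 _ _ _ i2 i1 ?_⟩
  have h := p3 _ (add_mem (d2 _) hR') _ (d2 _) κ hκ
  rw [e1, e2] at h
  exact h

end Pool.Agent.Lib.RQ
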