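import Pool.Agent.Lib.RQ.LIFT
import Pool.Agent.Lib.TP.Alg

/-! Block ALG. -/

set_option linter.unusedSectionVars false

noncomputable section

open Set BCO ContinuousLinearMap
open scoped InnerProductSpace

namespace Pool.Agent.Lib.RQ

namespace ALG73

variable {G : Type} [Group G] {E : Type} [NormedAddCommGroup E] [InnerProductSpace ℝ E]
  [CompleteSpace E] {n : ℕ} {A : Type} [Fintype A]

theorem amp_mul {I : Type} (S T : E →L[ℝ] E) : amp I (S * T) = amp I S * amp I T :=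
  TP.op_ext' fun _ _ => rfl

/-- the operator from the sheet `a` to the global trivialisation -/
def TT (P : Pack G E n A) {I : Type} (r : G → V I ℝ →L[ℝ] V I ℝ) (a : A) : V I E →L[ℝ] V I E :=
  ∑ g ∈ P.F, amp I (P.E a g) * TP.ampl E (r g)

theorem TT_lam (P : Pack G E n A) (a : A) (g : G) (s : E) (γ : G) :
    TT P lam a (TP.tens (TP.dl g) s) γ = P.E a (γ * g⁻¹) s := by
  classical
  rw [TT, sum_apply']
  have e : ∀ h ∈ P.F, (amp G (P.E a h) * TP.ampl E (lam h : V G ℝ →L[ℝ] V G ℝ))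
      (TP.tens (TP.dl g) s) γ = if γ * g⁻¹ = h then P.E a h s else 0 := by
    intro h _
    rw [mul_apply_eq_comp, TP.ampl_lam, amp_apply, lam_apply, TP.tens_dl]
    by_cases hh : γ * g⁻¹ = h
    · have : h⁻¹ * γ = g := by rw [← hh]; group
      rw [if_pos hh, this, lp.single_apply_self]
    · have : h⁻¹ * γ ≠ g := fun h' => hh (by rw [← h']; group)
      rw [if_neg hh, lp.single_apply_ne _ _ _ this, map_zero]
  rw [Finset.sum_congr rfl e, Finset.sum_ite_eq]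
  split_ifs with h
  · rfl
  · rw [P.E_off a _ h]; rfl

theorem mish (hM : St_MISH) (hA : St_AMP) (hD : St_DAK) (P : Pack G E n A)
    (hK : IsCompactOperator (P.chi * P.R : E →L[ℝ] E)) {I : Type}
    {B : Subalgebra ℝ (V I ℝ →L[ℝ] V I ℝ)} {r : G → V I ℝ →L[ℝ] V I ℝ} (hB : IsCS B)
    (hr : ∀ g ∈ P.F, r g ∈ B) (hl : IsLoc P.F r) :
    ∃ R' ∈ DA E B, Res (amp I P.w) R' ∧ amp I P.chi * R' ∈ KA E B ∧
      (∃ c : ℝ, 0 < c ∧ ∀ η, c * ‖R' η‖ ^ 2 ≤ ‖η - amp I P.w (R' η)‖ ^ 2 + ‖amp I P.chi (R' η)‖ ^ 2) ∧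
      (∀ a s' s v, P.Good a s' s → R' (TT P r a (TP.tens v s')) = TT P r a (TP.tens v s)) ∧
      ∀ 𝒮 : Submodule ℝ (V I E × V I E),
        (∀ a ζ, (TT P r a (amp I (P.ph a + P.C a * P.R) ζ), TT P r a (amp I (P.ph a * P.R) ζ)) ∈ 𝒮) →
        ∀ η, (η, R' η) ∈ 𝒮 := by
  obtain ⟨Q, hF, hw, hR, hchi, hgam, hN, hph, hdph, hE, hmul, hgood⟩ := hA G E n A P I
  obtain ⟨hcs, hamp, hlift, -, hKA, hcomp, -, -⟩ := hD I E E B hB
  have hops : ∀ x ∈ Q.ops, ∃ T : E →L[ℝ] E, x = amp I T := by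
    rintro x (((hx | hx) | ⟨j, rfl⟩) | ⟨j, rfl⟩)
    · rw [hmul] at hx
      obtain ⟨T, -, rfl⟩ := hx
      exact ⟨T, rfl⟩
    · rcases hx with rfl | rfl
      · exact ⟨_, hw⟩
      · exact ⟨_, hR⟩
    · exact ⟨_, hgam j⟩
    · exact ⟨_, hN j⟩
  have hst : ∀ a : V I ℝ →L[ℝ] V I ℝ, star (TP.ampl E a) = TP.ampl E (star a) := TP.adjoint_ampl
  have hT : ∀ a, Q.T (fun g => TP.ampl E (r g)) a = TT P r a := fun a => by
    rw [Pack.T, TT, hF]
    exact Finset.sum_congr rfl fun g _ => by rw [hE]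
  have hC : ∀ a ζ, Q.C a ζ = amp I (P.C a) ζ := fun a ζ => by
    ext1
    funext i
    simp only [Pack.C, sum_apply, lp.coeFn_sum, Finset.sum_apply, amp_apply, hgam, hdph,
      mul_apply_eq_comp]
  obtain ⟨R', hR', hres, ⟨X, Y, hXY, hχ⟩, hlich, htest, hgr⟩ :=
    hM G (V I E) n A Q (fun g => TP.ampl E (r g)) (DA E B) hcs
      (fun x hx => by obtain ⟨T, rfl⟩ := hops x hx; exact hamp T)
      (fun g hg => by rw [← lift_eq_ampl]; exact hlift _ (hr g (hF ▸ hg)))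
      ⟨by beta_reduce; rw [hl.1, TP.ampl_one], fun g hg => ⟨by
        beta_reduce
        rw [hst, ← TP.ampl_mul, (hl.2 g (hF ▸ hg)).1, TP.ampl_one], fun h hh => by
        beta_reduce
        rw [hst, ← TP.ampl_mul, (hl.2 g (hF ▸ hg)).2 h (hF ▸ hh)]⟩⟩
      (fun g _ x hx => by
        obtain ⟨T, rfl⟩ := hops x hx
        rw [hst]
        exact ⟨(TP.amp_mul_ampl T _).symm, (TP.amp_mul_ampl T _).symm⟩)
  refine ⟨R', hR', hw ▸ hres, ?_, ⟨Q.kap, Q.kap_pos, fun η => by rw [← hw, ← hchi]; exact hlich η⟩,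
    fun a s' s v hg => ?_, fun 𝒮 h𝒮 => hgr 𝒮 fun a ζ => ?_⟩
  · rw [← hchi, hχ]
    refine Submodule.sum_mem _ fun a _ => ?_
    have h1 : Q.chi * Q.R ∈ KA E B := by rw [hchi, hR, ← amp_mul]; exact hcomp _ hK
    have h2 := ((hKA _ h1).2.2 _ (hXY a).1).2
    exact ((hKA _ h2).2.2 _ (hXY a).2).1
  · rw [← hT]
    exact htest a _ _ (hgood a s' s v hg)
  · rw [hT, hC, hph, hR]
    exact h𝒮 a ζ

theorem adm_lam (hC : St_CONV) (F : Finset G) :
    IsCS (RA G ℝ) ∧ (∀ g ∈ F, (lam g : V G ℝ →L[ℝ] V G ℝ) ∈ RA G ℝ) ∧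
      IsLoc F (lam : G → V G ℝ →L[ℝ] V G ℝ) := by
  refine ⟨(hC G ℝ).1, fun g _ => tw_id (E := ℝ) g ▸ tw_mem g 1, op_ext fun _ _ => by simp,
    fun g _ => ⟨?_, fun h _ => ?_⟩⟩
  · rw [star_eq_adjoint, TP.adjoint_lam]
    exact op_ext fun _ _ => by simp
  · rw [star_eq_adjoint, TP.adjoint_lam]
    exact op_ext fun _ _ => by simp [mul_assoc]

theorem idem {W : Type} [NormedAddCommGroup W] [InnerProductSpace ℝ W] [CompleteSpace W]
    {w R f : W →L[ℝ] W} (h : Res w R) (hf : f = (1 / 2 : ℝ) • (1 - w)) :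
    f * f = f ∧ (f + R) * (f + R) = f + R := by
  have h1 : f * f = f := by
    rw [hf, smul_mul_smul_comm, sub_mul, one_mul, mul_sub, mul_one, h.w_sq]
    module
  have h2 : f * R + R * f + R * R = R := by
    have h3 : R * R = (1 / 2 : ℝ) • (w * R + R * w) := by
      rw [h.anti, two_mul]; module
    rw [h3, hf, smul_mul_assoc, mul_smul_comm, sub_mul, mul_sub, one_mul, mul_one]
    module
  refine ⟨h1, ?_⟩
  rw [add_mul, mul_add, mul_add, h1, add_assoc, ← add_assoc (f * R), h2]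

theorem amp_half {I : Type} (w : E →L[ℝ] E) :
    amp I ((1 / 2 : ℝ) • (1 - w)) = (1 / 2 : ℝ) • (1 - amp I w) := TP.op_ext' fun _ _ => rfl

theorem push (hM : St_MISH) (hA : St_AMP) (hD : St_DAK) (hF : St_FRED) (hP : St_PUSH)
    (hC : St_CONV) (P : Pack G E n A) (hK : IsCompactOperator (P.chi * P.R : E →L[ℝ] E))
    {𝒯 : Set (V G E × V G E)} (hT : P.Tests 𝒯) {I : Type}
    {B : Subalgebra ℝ (V I ℝ →L[ℝ] V I ℝ)} {r : G → V I ℝ →L[ℝ] V I ℝ}
    {j : V G ℝ →ₗᵢ[ℝ] V I ℝ} {Φ : B →+* CX.Cr G} (h : Adm P.F B r j Φ) :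
    ∃ R ∈ RA G E, Res (amp G P.w) R ∧ (∀ q ∈ 𝒯, R q.1 = q.2) ∧
      ∃ κ, CX.IsInd (amp G ((1 / 2 : ℝ) • (1 - P.w)) + R) (amp G ((1 / 2 : ℝ) • (1 - P.w)))
        (BCH.K0.map (Φ : B →ₙ+* CX.Cr G) κ) := by
  obtain ⟨R', hR', hres, hχ, ⟨c, hc, hl⟩, htest, -⟩ := mish hM hA hD P hK h.cs h.mem h.loc
  obtain ⟨κ, hκ⟩ := hF I E B h.cs P.w R' _ c hR' hχ hres hc hl
  obtain ⟨hcs, hRA, hconv⟩ := hC G E
  obtain ⟨hL, hcp, hidx⟩ := hP I G E B (RA G ℝ) h.cs hcs j Φ h.cp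
  have hamp := (hD I E E B h.cs).2.1
  rw [lift_eq_ampl] at hL hcp hidx
  set L := TP.ampl E j.toContinuousLinearMap with hLdef
  have hL' : ∀ ξ, adjoint L (L ξ) = ξ := fun ξ => congrArg (fun T => T ξ) hL
  have hc1 : ∀ (T : E →L[ℝ] E) ξ, amp I T (L ξ) = L (amp G T ξ) := fun T ξ => TP.amp_ampl T _ ξ
  have hc2 : ∀ T : E →L[ℝ] E, adjoint L ∘L amp I T ∘L L = amp G T := fun T =>
    ContinuousLinearMap.ext fun ξ => by rw [comp_apply, comp_apply, hc1, hL']
  set R := adjoint L ∘L R' ∘L L with hRdef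
  have hRL : ∀ ξ, R' (L ξ) = L (R ξ) := fun ξ => congrArg (fun T => T ξ) (hcp R' hR').2
  have hinj : Function.Injective L := fun x y hxy => by rw [← hL' x, hxy, hL']
  have hres' : Res (amp G P.w) R := by
    refine ⟨?_, ?_, ?_, ?_⟩
    · rw [star_eq_adjoint, TP.adjoint_amp, ← star_eq_adjoint, P.res.w_sa]
    · rw [← amp_mul, P.res.w_sq]; exact op_ext fun _ _ => rfl
    · rw [star_eq_adjoint, hRdef, adjoint_comp, adjoint_comp, adjoint_adjoint, ← star_eq_adjoint,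
        hres.sa, comp_assoc]
    · refine ContinuousLinearMap.ext fun ξ => hinj ?_
      have := congrArg (fun T => T (L ξ)) hres.anti
      simp only [two_mul, add_apply, mul_apply_eq_comp, hRL, hc1] at this
      simp only [two_mul, add_apply, mul_apply_eq_comp, map_add]
      exact this
  have hTT : ∀ a ξ, TT P r a (L ξ) = L (TT P lam a ξ) := fun a ξ => by
    simp only [TT, sum_apply, map_sum, mul_apply_eq_comp]
    refine Finset.sum_congr rfl fun g hg => ?_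
    have e : (r g).comp j.toContinuousLinearMap = j.toContinuousLinearMap.comp (lam g) :=
      ContinuousLinearMap.ext (h.reg g hg)
    have e' := congrArg (fun a => TP.ampl E a ξ) e
    simp only [TP.ampl_comp, comp_apply] at e'
    rw [← hc1, hLdef, e']
  refine ⟨R, hRA _ (hcp R' hR').1, hres', fun q hq => ?_, κ, ?_⟩
  · obtain ⟨a, g, s', s, hg, hq⟩ := hT.1 q hq
    have e1 : q.1 = TT P lam a (TP.tens (TP.dl g) s') :=
      lp.ext (funext fun γ => by rw [(hq γ).1, TT_lam])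
    have e2 : q.2 = TT P lam a (TP.tens (TP.dl g) s) :=
      lp.ext (funext fun γ => by rw [(hq γ).2, TT_lam])
    refine hinj ?_
    rw [← hRL, e1, e2, ← hTT, ← hTT, hLdef, TP.ampl_tens, TP.ampl_tens]
    exact htest a s' s _ hg
  · have h1 := hidx _ ((DA E B).add_mem (hamp _) hR') _ (hamp _) κ hκ
    rw [add_comp, comp_add, hc2] at h1
    have h2 := idem hres' (amp_half (I := G) P.w)
    exact hconv _ _ _ h2.2 h2.1 h1

theorem graph (hM : St_MISH) (hA : St_AMP) (hD : St_DAK) (hC : St_CONV) (P : Pack G E n A)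
    (hK : IsCompactOperator (P.chi * P.R : E →L[ℝ] E)) {𝒯 : Set (V G E × V G E)}
    (hT : P.Tests 𝒯) :
    ∃ R : V G E →L[ℝ] V G E, ∀ η, (η, R η) ∈ (Submodule.span ℝ 𝒯).topologicalClosure := by
  classical
  obtain ⟨h1, h2, h3⟩ := adm_lam hC P.F
  obtain ⟨R, -, -, -, -, -, hgr⟩ := mish hM hA hD P hK h1 h2 h3
  refine ⟨R, hgr _ fun a ζ => ?_⟩
  set 𝒮 := (Submodule.span ℝ 𝒯).topologicalClosure with h𝒮
  have hcl : IsClosed (𝒮 : Set (V G E × V G E)) := Submodule.isClosed_topologicalClosure _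
  let M : V G E →L[ℝ] V G E × V G E :=
    (TT P lam a ∘L amp G (P.ph a + P.C a * P.R)).prod (TT P lam a ∘L amp G (P.ph a * P.R))
  change M ζ ∈ 𝒮
  have hs : ∀ g z, M (TP.tens (TP.dl g) z) ∈ 𝒮 := by
    intro g z
    have := TP.cs_map (Q := 𝒮) (fun u : E × E =>
      (TT P lam a (TP.tens (TP.dl g) u.1), TT P lam a (TP.tens (TP.dl g) u.2))) ?_ ?_ ?_ hcl ?_
      (hT.2 a z)
    · simpa only [M, prod_apply, comp_apply, TP.amp_tens, add_apply, mul_apply_eq_comp] using this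
    · simp only [TP.tens_dl]
      exact ((TT P lam a).continuous.comp ((lp.singleContinuousLinearMap ℝ (fun _ : G => E) 2
        g).continuous.comp continuous_fst)).prodMk ((TT P lam a).continuous.comp
        ((lp.singleContinuousLinearMap ℝ (fun _ : G => E) 2 g).continuous.comp continuous_snd))
    · intro u v
      simp only [TP.tens_dl, Prod.fst_add, Prod.snd_add, lp.single_add, map_add, Prod.mk_add_mk]
    · intro c u
      simp only [TP.tens_dl, Prod.smul_fst, Prod.smul_snd, lp.single_smul, map_smul, Prod.smul_mk]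
    · intro u hu
      obtain ⟨q, hq, hq'⟩ := hu g
      have e1 : q.1 = TT P lam a (TP.tens (TP.dl g) u.1) :=
        lp.ext (funext fun γ => by rw [(hq' γ).1, TT_lam])
      have e2 : q.2 = TT P lam a (TP.tens (TP.dl g) u.2) :=
        lp.ext (funext fun γ => by rw [(hq' γ).2, TT_lam])
      rw [← e1, ← e2]
      exact Submodule.le_topologicalClosure _ (Submodule.subset_span hq)
  have hsum := (lp.hasSum_single (p := 2) (by simp) ζ).mapL M
  refine hcl.mem_of_tendsto hsum (Filter.Eventually.of_forall fun s => ?_)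
  refine Submodule.sum_mem _ fun g _ => ?_
  rw [← TP.tens_dl]
  exact hs g _

end ALG73

open ALG73 in
theorem stALG73 (hM : St_MISH) (hA : St_AMP) (hD : St_DAK) (hF : St_FRED) (hP : St_PUSH)
    (hC : St_CONV) : St_ALG := by
  intro G _ E _ _ _ n A _ P 𝒯 hK hT
  obtain ⟨R, hR⟩ := graph hM hA hD hC P hK hT
  have huniq : ∀ R' : V G E →L[ℝ] V G E, (∀ q ∈ 𝒯, R' q.1 = q.2) → R' = R := by
    intro R' h
    refine ContinuousLinearMap.ext fun η => ?_
    exact TP.cs_ind (p := fun q : V G E × V G E => R' q.1 = q.2)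
      (isClosed_eq (by fun_prop) (by fun_prop)) (map_zero _)
      (fun q q' h h' => by rw [Prod.fst_add, Prod.snd_add, map_add, h, h'])
      (fun c q h => by rw [Prod.smul_fst, Prod.smul_snd, map_smul, h]) h (hR η)
  obtain ⟨h1, h2, h3⟩ := adm_lam hC P.F
  obtain ⟨R₀, hR₀, hres, ht, κ, hκ⟩ := push hM hA hD hF hP hC P hK hT
    (⟨h1, h2, h3, fun _ _ _ => rfl, fun _ _ => rfl⟩ :
      Adm P.F (RA G ℝ) lam LinearIsometry.id (RingHom.id _))
  obtain rfl := huniq R₀ ht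
  refine ⟨R₀, hR₀, hres, ht, hR, ⟨_, hκ⟩, fun I B r j Φ h => ?_⟩
  obtain ⟨R₁, -, -, ht₁, hκ₁⟩ := push hM hA hD hF hP hC P hK hT h
  rwa [huniq R₁ ht₁] at hκ₁

end Pool.Agent.Lib.RQ
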