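import Pool.Agent.Lib.RQ.Blue

/-! Block AMP: the package on `ℓ²(I, E)`. -/

noncomputable section

open Set BCO

namespace Pool.Agent.Lib.RQ

namespace AMP

variable {I E : Type} [NormedAddCommGroup E] [InnerProductSpace ℝ E]

/-- `amp` as an algebra homomorphism -/
def am (I E : Type) [NormedAddCommGroup E] [InnerProductSpace ℝ E] :
    (E →L[ℝ] E) →ₐ[ℝ] V I E →L[ℝ] V I E where
  toFun := amp I
  map_one' := ContinuousLinearMap.ext fun _ => lp.ext rfl
  map_mul' _ _ := ContinuousLinearMap.ext fun _ => lp.ext rfl
  map_zero' := ContinuousLinearMap.ext fun _ => lp.ext rfl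
  map_add' _ _ := ContinuousLinearMap.ext fun _ => lp.ext rfl
  commutes' _ := ContinuousLinearMap.ext fun _ => lp.ext rfl

theorem am_eq (T : E →L[ℝ] E) : amp I T = am I E T := rfl

theorem am_apply (T : E →L[ℝ] E) (ξ : V I E) (i : I) : am I E T ξ i = T (ξ i) := rfl

omit [InnerProductSpace ℝ E] in
theorem hasSum_sq (ξ : V I E) : HasSum (fun i => ‖ξ i‖ ^ 2) (‖ξ‖ ^ 2) := by
  simpa using lp.hasSum_norm (p := 2) (by norm_num) ξ

theorem am_ten (T : E →L[ℝ] E) (s : E) (v : V I ℝ) : am I E T (ten s v) = ten (T s) v :=
  lp.ext (funext fun i => map_smul T (v i) s)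

theorem ten_add (s t : E) (v : V I ℝ) : ten s v + ten t v = ten (s + t) v :=
  lp.ext (funext fun i => (smul_add (v i) s t).symm)

end AMP

open AMP in
theorem stAMP (hL : St_LIFT) : St_AMP := by
  classical
  intro G _ E _ _ _ n A _ P I
  have hs : ∀ T : E →L[ℝ] E, star (am I E T) = am I E (star T) := fun T =>
    (hL I I I E E).2.2.1 T
  have hc : ∀ {x y : E →L[ℝ] E}, x = y → am I E x = am I E y := fun h => congrArg _ h
  let Q : Pack G (V I E) n A :=
    { F := P.F
      w := am I E P.w
      R := am I E P.R
      chi := am I E P.chi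
      gam := fun j => am I E (P.gam j)
      N := fun j => am I E (P.N j)
      ph := fun a => am I E (P.ph a)
      dph := fun a j => am I E (P.dph a j)
      E := fun a g => am I E (P.E a g)
      kap := P.kap
      mul := am I E '' P.mul
      chi_mem := mem_image_of_mem _ P.chi_mem
      ph_mem := fun a => mem_image_of_mem _ (P.ph_mem a)
      dph_mem := fun a j => mem_image_of_mem _ (P.dph_mem a j)
      E_mem := fun a g => mem_image_of_mem _ (P.E_mem a g)
      mul_sa := by
        rintro _ ⟨x, hx, rfl⟩
        rw [hs, P.mul_sa x hx]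
      mul_comm := by
        rintro _ ⟨x, hx, rfl⟩ _ ⟨y, hy, rfl⟩
        simpa only [map_mul] using hc (P.mul_comm x hx y hy)
      mul_w := by
        rintro _ ⟨x, hx, rfl⟩
        simpa only [map_mul] using hc (P.mul_w x hx)
      mul_gam := by
        rintro _ ⟨x, hx, rfl⟩ j
        simpa only [map_mul] using hc (P.mul_gam x hx j)
      res := ⟨by rw [hs, P.res.w_sa], by simpa only [map_mul, map_one] using hc P.res.w_sq,
        by rw [hs, P.res.sa], by simpa only [map_mul, map_add, map_ofNat] using hc P.res.anti⟩
      inj := fun ξ η h => lp.ext (funext fun i => P.inj (congrArg (fun z : V I E => z i) h))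
      gam_skew := fun j => by rw [hs, P.gam_skew, map_neg]
      gam_cl := fun j k => by
        have := hc (P.gam_cl j k)
        split_ifs at this ⊢
        · simpa only [map_mul, map_add, map_neg, map_ofNat] using this
        · simpa only [map_mul, map_add, map_zero] using this
      E_mul := fun a g h => by
        have := hc (P.E_mul a g h)
        split_ifs at this ⊢
        · simpa only [map_mul] using this
        · simpa only [map_mul, map_zero] using this
      E_off := fun a g hg => by rw [P.E_off a g hg, map_zero]
      ph_supp := fun a => by simpa only [map_mul, map_sum] using hc (P.ph_supp a)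
      dph_supp := fun a j => by simpa only [map_mul, map_sum] using hc (P.dph_supp a j)
      ph_sq := by simpa only [map_mul, map_sum, map_one] using hc P.ph_sq
      ph_dph := fun j => by simpa only [map_mul, map_sum, map_zero] using hc (P.ph_dph j)
      comm := fun a b g => by
        obtain ⟨h1, h2⟩ := P.comm a b g
        exact ⟨by simpa only [map_mul, map_sum, map_sub, map_add] using hc h1,
          fun j => by simpa only [map_mul, map_sum, map_sub, map_add] using hc (h2 j)⟩
      kap_pos := P.kap_pos
      lich := fun η => hasSum_le (fun i => P.lich (η i))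
        ((hasSum_sum fun j _ => hasSum_sq (am I E (P.N j) η)).add
          ((hasSum_sq (am I E P.R η)).mul_left P.kap))
        ((hasSum_sq (η - am I E P.w (am I E P.R η))).add
          (hasSum_sq (am I E P.chi (am I E P.R η)))) }
  refine ⟨Q, rfl, rfl, rfl, rfl, fun _ => rfl, fun _ => rfl, fun _ => rfl, fun _ _ => rfl,
    fun _ _ => rfl, rfl, fun a s' s v h b g => ?_⟩
  have e1 : Q.E2 b a g = am I E (P.E2 b a g) := by simp only [Pack.E2, Q, map_sum, map_mul]
  have e2 : Q.C b = am I E (P.C b) := by simp only [Pack.C, Q, map_sum, map_mul]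
  rw [e1, e2]
  change am I E P.R (am I E _ (am I E (P.ph b) _ + _)) = am I E _ (am I E (P.ph b) _)
  rw [am_ten, am_ten, ten_add, am_ten, am_ten, am_ten, am_ten, h b g]

end Pool.Agent.Lib.RQ
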