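import Pool.Agent.Lib.RQ.Blue
import Pool.Agent.Lib.AN.Blue
import Pool.Agent.Lib.CX.Sec

/-! The bridge from the analytic package to the operator package. -/

set_option linter.unusedSectionVars false

noncomputable section

open Set MeasureTheory BCO
open scoped InnerProductSpace Manifold ContDiff

namespace Pool.Agent.Lib.RQ.BRG

open CX AN

variable {G : Type} [Group G] {m N : ℕ} (x : Sing G m)

/-- the indicator of the part of `O a` that is carried to the global sheet by `h` -/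
def ef (a : ℕ) (h : G) : x.X.M → ℝ := (OO x a ∩ x.sheet a h⁻¹).indicator 1

theorem bm_ef (a : ℕ) (h : G) : Bm (ef x a h) := by
  refine ⟨measurable_one.indicator ((x.isOpen_t a).measurableSet.inter
    (x.measurableSet_sheet a _)), 1, fun y => ?_⟩
  unfold ef
  by_cases hy : y ∈ OO x a ∩ x.sheet a h⁻¹ <;> simp [hy]

open Classical in
theorem ef_apply (a : ℕ) (h : G) (p : x.X.M) :
    ef x a h p = if p ∈ OO x a ∧ h = ((x.f p).co a (x.f p).ix)⁻¹ then 1 else 0 := by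
  simp only [ef, indicator_apply, mem_inter_iff, Sing.sheet, mem_ofPred_eq, Pi.one_apply]
  congr 2
  rw [eq_inv_iff_mul_eq_one, eq_inv_iff_mul_eq_one, mul_eq_one_comm]

open Classical in
theorem ef_mul (a : ℕ) (g h : G) :
    (fun p => ef x a g p * ef x a h p) = if g = h then ef x a g else fun _ => 0 := by
  funext p
  by_cases e : g = h
  · subst e; simp only [ef_apply, if_true]; split_ifs <;> simp
  · simp only [ef_apply, if_neg e]
    split_ifs with h1 h2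
    · exact absurd (h1.2.trans h2.2.symm) e
    all_goals simp

open Classical in
theorem ef_sum {F : Finset G} (hF : ∀ p a b, (x.f p).co a b ∈ F) (a : ℕ) (p : x.X.M)
    (u : G → ℝ) : ∑ g ∈ F.image (·⁻¹), ef x a g p * u g =
      if p ∈ OO x a then u ((x.f p).co a (x.f p).ix)⁻¹ else 0 := by
  rw [Finset.sum_eq_single ((x.f p).co a (x.f p).ix)⁻¹]
  · simp [ef_apply]
  · intro b _ hb; simp [ef_apply, hb]
  · intro h; exact absurd (Finset.mem_image_of_mem _ (hF p a _)) h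

open Classical in
theorem ef_two {F : Finset G} (hF : ∀ p a b, (x.f p).co a b ∈ F) (a b : ℕ) (g : G) :
    (fun p => ∑ h ∈ F.image (·⁻¹), ef x a h p * ef x b (h * g) p) = EE x a b g := by
  funext p
  rw [ef_sum x hF, EE, ef_apply]
  by_cases ha : p ∈ OO x a
  · by_cases hb : p ∈ OO x b
    · have := BG1.co_mul (x.f p) a b _ ha hb (BG1.t_ix (x.f p))
      simp only [ha, hb, true_and, if_true, ← this]
      congr 1
      rw [mul_inv_rev, mul_assoc, mul_eq_left, inv_mul_eq_one]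
    · simp [hb]
  · simp [ha]

open Classical in
theorem ef_off {F : Finset G} (hF : ∀ p a b, (x.f p).co a b ∈ F) (a : ℕ) {g : G}
    (hg : g ∉ F.image (·⁻¹)) : ef x a g = fun _ => 0 := by
  funext p
  rw [ef_apply, if_neg]
  rintro ⟨-, rfl⟩
  exact hg (Finset.mem_image_of_mem _ (hF p a _))

theorem sec_ef (S : Spinor (m + 1) N) (a i : ℕ) (g γ : G) {u : x.X.M → Eu N}
    (hu : ∀ p ∉ OO x i, u p = 0) :
    x.sec S a i g u γ = fun p => ef x i (γ * g⁻¹) p • glob x.X S a u p := by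
  rw [x.sec_eq]
  funext p
  rw [ef, mul_inv_rev, inv_inv]
  by_cases h : p ∈ OO x i
  · by_cases h' : p ∈ x.sheet i (g * γ⁻¹)
    · rw [indicator_of_mem h', indicator_of_mem (mem_inter h h'), Pi.one_apply, one_smul]; rfl
    · rw [indicator_of_notMem h', indicator_of_notMem fun e => h' e.2, zero_smul]
  · have : glob x.X S a u p = 0 := by simp [glob, hu p h]
    rw [this, smul_zero]
    exact indicator_apply_eq_zero.2 fun _ => this

section Op

variable {α V : Type} [MeasurableSpace α] [NormedAddCommGroup V] [InnerProductSpace ℝ V]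
  [CompleteSpace V] {μ : Measure α} (h : MulApi V μ)

theorem star_of {W : Type} [NormedAddCommGroup W] [InnerProductSpace ℝ W] [CompleteSpace W]
    {A B : W →L[ℝ] W} (h : ∀ f g, ⟪A f, g⟫_ℝ = ⟪f, B g⟫_ℝ) : star B = A :=
  ((ContinuousLinearMap.eq_adjoint_iff A B).2 h).symm

include h

theorem mul_zero' : mul V μ (fun _ : α => 0) = 0 := by rw [(h.mul_const 0).2, zero_smul]

theorem mul_one' : mul V μ (fun _ : α => 1) = 1 := by rw [(h.mul_const 1).2, one_smul]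

theorem mul_comm' {ψ χ : α → ℝ} (h1 : Bm ψ) (h2 : Bm χ) :
    mul V μ ψ * mul V μ χ = mul V μ χ * mul V μ ψ := by
  rw [← (h.mul_mul h1 h2).2, ← (h.mul_mul h2 h1).2]; simp only [mul_comm]

theorem cst_cl' {A B : V →L[ℝ] V} {c : ℝ} (e : ∀ u, A (B u) + B (A u) = c • u) :
    cst μ A * cst μ B + cst μ B * cst μ A = c • 1 := by
  have : A * B + B * A = c • 1 := ContinuousLinearMap.ext e
  rw [← h.cst_mul, ← h.cst_mul, cst, cst, ← ContinuousLinearMap.add_compLpL, this,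
    ContinuousLinearMap.smul_compLpL]
  exact congrArg _ h.cst_one

theorem cst_skew {A : V →L[ℝ] V} (e : ∀ u v, ⟪A u, v⟫_ℝ = -⟪u, A v⟫_ℝ) :
    star (cst μ A) = -cst μ A := by
  have h1 := star_of (h.cst_inner ((-1 : ℝ) • A) A fun u v => by
    rw [_root_.smul_apply, inner_smul_left, e]; simp)
  rw [h1, cst, ContinuousLinearMap.smul_compLpL, neg_one_smul]

end Op

variable {x} {S : Spinor (m + 1) N} {w : Eu N →L[ℝ] Eu N} {μ : Measure x.X.M} {r : ℕ}
  {φ : ℕ → x.X.M → ℝ} {R : Lp (Eu N) 2 μ →L[ℝ] Lp (Eu N) 2 μ}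
  {Nn : Fin (m + 1) → Lp (Eu N) 2 μ →L[ℝ] Lp (Eu N) 2 μ}

/-- the partition, extended by zero -/
def tc (r : ℕ) (φ : ℕ → x.X.M → ℝ) (a : ℕ) : x.X.M → ℝ := if a < r + 1 then φ a else fun _ => 0

theorem sum_tc {K : ℕ} (hK : r + 1 ≤ K) (u v : ℕ → ℝ) (h1 : ∀ a < r + 1, u a = v a)
    (h2 : ∀ a, ¬a < r + 1 → u a = 0) : ∑ a : Fin K, u a = ∑ a : Fin (r + 1), v a := by
  rw [Fin.sum_univ_eq_sum_range, Fin.sum_univ_eq_sum_range, ← Finset.sum_subset (Finset.range_mono hK)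
    fun a _ ha => h2 a (by simpa using ha)]
  exact Finset.sum_congr rfl fun a ha => h1 a (by simpa using ha)

variable (P : AN.Pack x S w μ r φ R Nn)
include P

theorem sm0 : Sm x.X fun _ => 0 := P.smb.of_cpt contMDiff_const HasCompactSupport.zero

theorem dv0 (j : Fin (m + 1)) : dv x.X j (fun _ => 0) = fun _ => 0 :=
  funext fun p => P.smb.dv_zero (by simp) j

theorem cg0 : cg x.X S μ (fun j => dv x.X j fun _ => 0) = 0 := by
  simp only [cg, dv0 P, mul_zero' P.l2, mul_zero, Finset.sum_const_zero]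

theorem sm_tc (a : ℕ) : Sm x.X (tc r φ a) := by
  unfold tc; split_ifs
  · exact P.phi.sm a
  · exact sm0 P

theorem zero_tc {a : ℕ} {p : x.X.M} (hp : p ∉ OO x a) :
    tc r φ a p = 0 ∧ ∀ j, dv x.X j (tc r φ a) p = 0 := by
  unfold tc; split_ifs
  · exact P.psi.zero hp
  · exact ⟨rfl, fun j => congrFun (dv0 P j) p⟩

theorem psi_tc (a b : ℕ) (g : G) : (Sm x.X fun p => tc r φ a p * tc r φ b p * EE x a b g p) ∧
    ∀ j, dv x.X j (fun p => tc r φ a p * tc r φ b p * EE x a b g p) = fun p =>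
      (dv x.X j (tc r φ a) p * tc r φ b p + tc r φ a p * dv x.X j (tc r φ b) p) *
        EE x a b g p := by
  unfold tc; split_ifs
  · exact ⟨P.psi.sm a b g, fun j => funext (P.psi.dv_eq a b g j)⟩
  all_goals simp only [mul_zero, zero_mul, dv0 P, add_zero, implies_true, and_true, sm0 P]

theorem loc_tc {a i : ℕ} {u : x.X.M → Eu N} (hu : IsE x.X a (OO x i) u) (b : ℕ) (g : G) :
    R (mul (Eu N) μ (EE x b i g) (mul (Eu N) μ (tc r φ b) (cl μ (dw x.X S w (glob x.X S a u))) +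
      cg x.X S μ (fun j => dv x.X j (tc r φ b)) (cl μ (glob x.X S a u)))) =
    mul (Eu N) μ (EE x b i g) (mul (Eu N) μ (tc r φ b) (cl μ (glob x.X S a u))) := by
  unfold tc; split_ifs
  · exact P.test.loc hu b g
  · simp [cg0 P, mul_zero' P.l2]

theorem core_tc (i : ℕ) (z : Lp (Eu N) 2 μ) :
    (mul (Eu N) μ (tc r φ i) z + cg x.X S μ (fun j => dv x.X j (tc r φ i)) (R z),
      mul (Eu N) μ (tc r φ i) (R z)) ∈ (Submodule.span ℝ {q : Lp (Eu N) 2 μ × Lp (Eu N) 2 μ |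
    ∃ a u, IsE x.X a (OO x i) u ∧
      q = (cl μ (dw x.X S w (glob x.X S a u)), cl μ (glob x.X S a u))}).topologicalClosure := by
  unfold tc; split_ifs
  · exact P.test.core i z
  · simp only [cg0 P, mul_zero' P.l2, _root_.zero_apply, add_zero]
    exact Submodule.zero_mem _

/-- the sheets of a test section -/
theorem sec_cl {a i : ℕ} {u : x.X.M → Eu N} (hu : IsE x.X a (OO x i) u) (g γ : G) :
    mul (Eu N) μ (ef x i (γ * g⁻¹)) (cl μ (dw x.X S w (glob x.X S a u))) =ᵐ[μ]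
      x.sec S a i g (fun p => x.X.dirac S a u p + w (u p)) γ ∧
    mul (Eu N) μ (ef x i (γ * g⁻¹)) (cl μ (glob x.X S a u)) =ᵐ[μ] x.sec S a i g u γ := by
  obtain ⟨h1, h2, h3⟩ := P.test.mem hu
  have h0 : ∀ p ∉ OO x i, u p = 0 ∧ x.X.dirac S a u p = 0 := fun p hp => by
    have : p ∉ tsupport u := fun e => hp (hu.sub e).2
    have e : u =ᶠ[nhds p] fun _ => 0 := notMem_tsupport_iff_eventuallyEq.1 this
    refine ⟨e.self_of_nhds, ?_⟩
    simp [SM.dirac, SM.dd, e.mfderiv_eq, e.self_of_nhds]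
    exact Finset.sum_eq_zero fun i _ => map_zero _
  rw [sec_ef x S a i g γ fun p hp => (h0 p hp).1,
    sec_ef x S a i g γ fun p hp => by rw [(h0 p hp).1, (h0 p hp).2, map_zero, add_zero], ← h3,
    (P.l2.mul_cl (bm_ef x _ _) h1).2, (P.l2.mul_cl (bm_ef x _ _) h2).2]
  exact ⟨P.l2.cl_ae (P.l2.mul_cl (bm_ef x _ _) h2).1, P.l2.cl_ae (P.l2.mul_cl (bm_ef x _ _) h1).1⟩

open Classical in
theorem exists_vec {F : Finset G} (hF : ∀ p a b, (x.f p).co a b ∈ F) (i : ℕ) (g : G)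
    (s : Lp (Eu N) 2 μ) : ∃ ξ : V G (Lp (Eu N) 2 μ), ∀ γ,
      ξ γ = mul (Eu N) μ (ef x i (γ * g⁻¹)) s := by
  refine ⟨⟨fun γ => mul (Eu N) μ (ef x i (γ * g⁻¹)) s, ?_⟩, fun _ => rfl⟩
  refine (memℓp_zero ?_).of_exponent_ge bot_le
  refine ((F.image (·⁻¹)).finite_toSet.preimage (f := fun γ => γ * g⁻¹)
    (mul_left_injective _).injOn).subset fun γ hγ => ?_
  by_contra h
  exact hγ (by rw [ef_off x hF i h, mul_zero' P.l2]; rfl)

open Classical in
/-- the operator package -/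
def pack (hw : Gr S w) {F : Finset G} (hF : ∀ p a b, (x.f p).co a b ∈ F) {K : ℕ} (hK : r + 1 ≤ K)
    {χ : x.X.M → ℝ} {κ : ℝ} (h1 : Bm χ) (h2 : 0 < κ) (h3 : ∀ p, κ ≤ χ p ^ 2 + x.X.scal p / 4) :
    RQ.Pack G (Lp (Eu N) 2 μ) (m + 1) (Fin K) where
  F := F.image (·⁻¹)
  w := cst μ w
  R := R
  chi := mul (Eu N) μ χ
  gam j := cst μ (gam S j)
  N := Nn
  ph a := mul (Eu N) μ (tc r φ a)
  dph a j := mul (Eu N) μ (dv x.X j (tc r φ a))
  E a g := mul (Eu N) μ (ef x a g)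
  kap := κ
  mul := {A | ∃ ψ, Bm ψ ∧ A = mul (Eu N) μ ψ}
  chi_mem := ⟨_, h1, rfl⟩
  ph_mem a := ⟨_, (P.smb.bm (sm_tc P a)).1, rfl⟩
  dph_mem a j := ⟨_, (P.smb.bm (sm_tc P a)).2 j, rfl⟩
  E_mem a g := ⟨_, bm_ef x a g, rfl⟩
  mul_sa := by rintro _ ⟨ψ, h, rfl⟩; exact star_of (P.l2.mul_inner h)
  mul_comm := by rintro _ ⟨ψ, h, rfl⟩ _ ⟨ψ', h', rfl⟩; exact mul_comm' P.l2 h h'
  mul_w := by rintro _ ⟨ψ, h, rfl⟩; exact P.l2.mul_cst h _
  mul_gam := by rintro _ ⟨ψ, h, rfl⟩ j; exact P.l2.mul_cst h _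
  res := ⟨star_of (P.l2.cst_inner _ _ hw.sym), by
    rw [← P.l2.cst_mul, show w * w = 1 from ContinuousLinearMap.ext hw.sq, P.l2.cst_one],
    star_of P.api.sym, by rw [P.api.anti, two_smul, two_mul]⟩
  inj := P.api.inj
  gam_skew j := cst_skew P.l2 (P.alg.gam_skew j)
  gam_cl j k := by
    rw [cst_cl' P.l2 (P.alg.gam_rel j k)]
    split_ifs
    · rw [neg_smul, two_smul, one_add_one_eq_two]
    · rw [zero_smul]
  E_mul a g h := by
    rw [← (P.l2.mul_mul (bm_ef x _ _) (bm_ef x _ _)).2, ef_mul]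
    split_ifs
    · rfl
    · exact mul_zero' P.l2
  E_off a g hg := by rw [ef_off x hF a hg, mul_zero' P.l2]
  ph_supp a := by
    obtain ⟨e1, e2⟩ := P.l2.mul_sum (F.image (·⁻¹)) (ef x a) fun g _ => bm_ef x a g
    rw [← e2, ← (P.l2.mul_mul e1 (P.smb.bm (sm_tc P a)).1).2]
    congr 1
    funext p
    rw [Finset.sum_mul, ef_sum x hF a p fun _ => tc r φ a p]
    split_ifs with h
    · rfl
    · exact (zero_tc P h).1.symm
  dph_supp a j := by
    obtain ⟨e1, e2⟩ := P.l2.mul_sum (F.image (·⁻¹)) (ef x a) fun g _ => bm_ef x a g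
    rw [← e2, ← (P.l2.mul_mul e1 ((P.smb.bm (sm_tc P a)).2 j)).2]
    congr 1
    funext p
    rw [Finset.sum_mul, ef_sum x hF a p fun _ => dv x.X j (tc r φ a) p]
    split_ifs with h
    · rfl
    · exact ((zero_tc P h).2 j).symm
  ph_sq := by
    have e := fun a : Fin K => P.l2.mul_mul (P.smb.bm (sm_tc P a)).1 (P.smb.bm (sm_tc P a)).1
    rw [Finset.sum_congr rfl fun a _ => (e a).2.symm,
      ← (P.l2.mul_sum _ _ fun a _ => (e a).1).2, ← mul_one' P.l2]
    congr 1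
    funext p
    rw [← P.phi.sq p]
    exact sum_tc hK (fun a => tc r φ a p * tc r φ a p) (fun a => φ a p ^ 2)
      (fun a ha => by rw [tc, if_pos ha, sq]) fun a ha => by rw [tc, if_neg ha, zero_mul]
  ph_dph j := by
    have e := fun a : Fin K => P.l2.mul_mul (P.smb.bm (sm_tc P a)).1 ((P.smb.bm (sm_tc P a)).2 j)
    rw [Finset.sum_congr rfl fun a _ => (e a).2.symm,
      ← (P.l2.mul_sum _ _ fun a _ => (e a).1).2, ← mul_zero' P.l2]
    congr 1
    funext p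
    rw [← P.psi.orth j p]
    exact sum_tc hK (fun a => tc r φ a p * dv x.X j (tc r φ a) p)
      (fun a => φ a p * dv x.X j (φ a) p) (fun a ha => by rw [tc, if_pos ha])
      fun a ha => by rw [tc, if_neg ha, zero_mul]
  comm a b g := by
    intro e ψ dψ C
    have b1 := P.smb.bm (sm_tc P a)
    have b2 := P.smb.bm (sm_tc P b)
    have b3 := P.coc.bm a b g
    obtain ⟨s1, s2⟩ := psi_tc P a b g
    have e0 := fun h : G => P.l2.mul_mul (bm_ef x a h) (bm_ef x b (h * g))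
    have e1 : e = mul (Eu N) μ (EE x a b g) := by
      rw [← ef_two x hF, (P.l2.mul_sum _ _ fun h _ => (e0 h).1).2]
      exact Finset.sum_congr rfl fun h _ => (e0 h).2.symm
    have e2 : ψ = mul (Eu N) μ fun p => tc r φ a p * tc r φ b p * EE x a b g p := by
      rw [(P.l2.mul_mul (P.l2.mul_mul b1.1 b2.1).1 b3).2, (P.l2.mul_mul b1.1 b2.1).2, ← e1]
    have e3 : ∀ j, dψ j = mul (Eu N) μ
        (dv x.X j fun p => tc r φ a p * tc r φ b p * EE x a b g p) := fun j => by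
      have c1 := P.l2.mul_mul (b1.2 j) b2.1
      have c2 := P.l2.mul_mul b1.1 (b2.2 j)
      have c3 := P.l2.mul_add c1.1 c2.1
      rw [s2 j, (P.l2.mul_mul c3.1 b3).2, c3.2, c1.2, c2.2, ← e1]
    have e4 : C = cg x.X S μ
        fun j => dv x.X j fun p => tc r φ a p * tc r φ b p * EE x a b g p :=
      Finset.sum_congr rfl fun j _ => by rw [e3]
    rw [e2, e4]
    exact ⟨P.api.comm s1, fun j => by rw [e3]; exact P.api.leib s1 j⟩
  kap_pos := h2
  lich := P.api.lich h1 h3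

omit P in
theorem gr_of (hS : GrOK S) : Gr S S.gr :=
  ⟨fun u => congrArg (fun T : Eu N →L[ℝ] Eu N => T u) hS.1,
    fun u v => (ContinuousLinearMap.isSelfAdjoint_iff_isSymmetric.1 hS.2.1) u v,
    fun v u => congrArg (fun T : Eu N →L[ℝ] Eu N => T u) (hS.2.2 v)⟩

end Pool.Agent.Lib.RQ.BRG

namespace Pool.Agent.Lib.RQ

open CX AN BRG

theorem stANA (h : AN.St_ANA) : RQ.St_ANA := by
  classical
  intro G _ m N x S hS hx μ hμ
  have hw := gr_of hS
  obtain ⟨r, φ, R, Nn, P⟩ := h G m N x S μ hμ _ hw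
  obtain ⟨r', F, -, hr, hF⟩ := P.coc.fin
  obtain ⟨χ, κ, h1, h2, h3, h4⟩ := P.kap hx
  have key : ∀ (a i : ℕ) (g : G) (u : x.X.M → Eu N), IsE x.X a (OO x i) u →
      ∃ q ∈ tests x S μ, (∀ γ, q.1 γ = mul (Eu N) μ (ef x i (γ * g⁻¹))
        (cl μ (dw x.X S S.gr (glob x.X S a u))) ∧
        q.2 γ = mul (Eu N) μ (ef x i (γ * g⁻¹)) (cl μ (glob x.X S a u))) ∧ ∀ γ,
      q.1 γ =ᵐ[μ] x.sec S a i g (fun p => x.X.dirac S a u p + S.gr (u p)) γ ∧
      q.2 γ =ᵐ[μ] x.sec S a i g u γ := fun a i g u hu => by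
    obtain ⟨η, hη⟩ := exists_vec P hF i g (cl μ (dw x.X S S.gr (glob x.X S a u)))
    obtain ⟨ξ, hξ⟩ := exists_vec P hF i g (cl μ (glob x.X S a u))
    have : ∀ γ, η γ =ᵐ[μ] x.sec S a i g (fun p => x.X.dirac S a u p + S.gr (u p)) γ ∧
        ξ γ =ᵐ[μ] x.sec S a i g u γ := fun γ => by
      rw [hη, hξ]; exact sec_cl P hu g γ
    exact ⟨(η, ξ), ⟨a, i, g, u, hu.sm, hu.cpt, hu.sub, this⟩, fun γ => ⟨hη γ, hξ γ⟩, this⟩
  refine ⟨fun a i g u u1 u2 u3 => ?_, r + r', pack P hw hF (by omega) h1 h3 h4, rfl,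
    P.cpt χ h1 h2, ?_, fun a z => ?_⟩
  · obtain ⟨q, -, -, hq⟩ := key a i g u ⟨u1, u2, u3⟩
    exact ⟨q.2, q.1, hq⟩
  · rintro q ⟨a, i, g, u, u1, u2, u3, hq⟩
    have hu : IsE x.X a (OO x i) u := ⟨u1, u2, u3⟩
    have e : ∀ γ, q.1 γ = mul (Eu N) μ (ef x i (γ * g⁻¹))
        (cl μ (dw x.X S S.gr (glob x.X S a u))) ∧
        q.2 γ = mul (Eu N) μ (ef x i (γ * g⁻¹)) (cl μ (glob x.X S a u)) := fun γ =>
      ⟨Lp.ext ((hq γ).1.trans (sec_cl P hu g γ).1.symm),
        Lp.ext ((hq γ).2.trans (sec_cl P hu g γ).2.symm)⟩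
    by_cases hi : i < r + r' + 1
    · refine ⟨⟨i, hi⟩, g, _, _, fun b k => ?_, e⟩
      have e0 := fun h : G => P.l2.mul_mul (bm_ef x b h) (bm_ef x i (h * k))
      have e1 : (pack P hw hF (show r + 1 ≤ r + r' + 1 by omega) h1 h3 h4).E2 b ⟨i, hi⟩ k =
          mul (Eu N) μ (EE x b i k) := by
        rw [← ef_two x hF, (P.l2.mul_sum _ _ fun h _ => (e0 h).1).2]
        exact Finset.sum_congr rfl fun h _ => (e0 h).2.symm
      rw [e1]
      exact loc_tc P hu b k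
    · have z : ∀ k, ef x i k = fun _ => 0 := fun k => by
        rw [ef, hr i (by omega), empty_inter, indicator_empty]
      refine ⟨0, g, 0, 0, fun b k => by simp, fun γ => ?_⟩
      rw [(e γ).1, (e γ).2, z, mul_zero' P.l2]
      simp
  · refine Submodule.topologicalClosure_mono (Submodule.span_mono ?_) (core_tc P a z)
    rintro _ ⟨b, u, hu, rfl⟩ g
    obtain ⟨q, hq, h5, -⟩ := key b a g u hu
    exact ⟨q, hq, h5⟩

end Pool.Agent.Lib.RQ
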