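import Pool.Agent.Lib.RQ.Blue
import Pool.Agent.Lib.CX.ClifGr

/-! Block CLF: the grading operator in dimension `8 k + 8`. -/

namespace Pool.Agent.Lib.RQ

theorem stCLF : St_CLF := fun k _ S =>
  ⟨S.gr_mul_gr (CX.Clif.four_dvd k), S.isSelfAdjoint_gr (CX.Clif.four_dvd k),
    S.gr_mul_ι (CX.Clif.even_dim k)⟩

end Pool.Agent.Lib.RQ
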