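import Pool.Agent.Lib.RQ.Blue

/-! Block CONV: translation of the abstract index to the format of the statement. -/

noncomputable section

open Set BCO ContinuousLinearMap

namespace Pool.Agent.Lib.RQ

namespace CONV

open Matrix BCK BCH in
theorem pad {L A : Type} [Ring L] [Ring A] {C : MFI.Ctx L A} {n : Type} [Fintype n]
    {e f T : Matrix n n L} {κ : K0 A} (h : MFI.IsIdx C e f T κ) (he : e * e = e) (hf : f * f = f)
    (hT : T * e = T) : ∃ (r : ℕ) (p q : Matrix (Fin r) (Fin r) A)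
      (U W : Matrix (n ⊕ Fin r) (n ⊕ Fin r) L), p * p = p ∧ q * q = q ∧
      W * U = fromBlocks e 0 0 (q.map C.io) ∧ U * W = fromBlocks f 0 0 (p.map C.io) ∧
      U * fromBlocks e 0 0 (q.map C.io) = U ∧ W * fromBlocks f 0 0 (p.map C.io) = W ∧
      Ent (C.J : Set L) (U.toBlocks₁₁ - T) ∧ κ = cls p - cls q := by
  obtain ⟨ι, μ, _, _, p, q, U, W, hp, hq, h1, h2, h3, rfl⟩ := h
  let σ := (Fintype.equivFin (ι ⊕ μ)).symm
  let s := ((Equiv.refl n).sumCongr σ).trans (Equiv.sumAssoc n ι μ).symm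
  let t := ((Equiv.refl n).sumCongr (σ.trans (Equiv.sumComm ι μ))).trans (Equiv.sumAssoc n μ ι).symm
  let p' := (fromBlocks p 0 0 (0 : Matrix μ μ A)).submatrix σ σ
  let q' := (fromBlocks (0 : Matrix ι ι A) 0 0 q).submatrix σ σ
  let U' := (fromBlocks U 0 0 (0 : Matrix μ ι L)).submatrix s t
  let W' := (fromBlocks W 0 0 (0 : Matrix ι μ L)).submatrix t s
  have hp' : p' * p' = p' := idem_submatrix (idem_fromBlocks hp (mul_zero _)) σ
  have hq' : q' * q' = q' := idem_submatrix (idem_fromBlocks (mul_zero _) hq) σ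
  have a1 : W' * U' = fromBlocks e 0 0 (q'.map C.io) := by
    simp only [W', U', submatrix_mul_equiv, fromBlocks_multiply, h1]
    ext (i | i) (j | j)
    · simp [t]
    · rcases hj : σ j with j | j <;> simp [t, hj]
    · rcases hi : σ i with i | i <;> simp [t, hi]
    · rcases hi : σ i with i | i <;> rcases hj : σ j with j | j <;> simp [t, q', hi, hj]
  have a2 : U' * W' = fromBlocks f 0 0 (p'.map C.io) := by
    simp only [W', U', submatrix_mul_equiv, fromBlocks_multiply, h2]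
    ext (i | i) (j | j)
    · simp [s]
    · rcases hj : σ j with j | j <;> simp [s, hj]
    · rcases hi : σ i with i | i <;> simp [s, hi]
    · rcases hi : σ i with i | i <;> rcases hj : σ j with j | j <;> simp [s, p', hi, hj]
  have i1 := idem_fromBlocks he (idem_map hq' C.io)
  have i2 := idem_fromBlocks hf (idem_map hp' C.io)
  have b1 : U'.toBlocks₁₁ = U.toBlocks₁₁ := by ext i j; rfl
  refine ⟨_, p', q', U' * fromBlocks e 0 0 (q'.map C.io), W' * fromBlocks f 0 0 (p'.map C.io),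
    hp', hq', ?_, ?_, by rw [Matrix.mul_assoc, i1], by rw [Matrix.mul_assoc, i2], ?_, ?_⟩
  · calc _ = (W' * U') * (W' * U') * fromBlocks e 0 0 (q'.map C.io) := by
          rw [← a2]; simp only [Matrix.mul_assoc]
      _ = _ := by rw [a1, i1, i1]
  · calc _ = (U' * W') * (U' * W') * fromBlocks f 0 0 (p'.map C.io) := by
          rw [← a1]; simp only [Matrix.mul_assoc]
      _ = _ := by rw [a2, i2, i2]
  · refine MFI.entJ_of_eq (MFI.entJ_right e h3) ?_
    rw [MFI.tb11_mul, b1, Matrix.sub_mul, hT]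
    simp
  · simp only [p', q', cls_submatrix_equiv]
    rw [cls_fromBlocks hp (Matrix.mul_zero _), cls_fromBlocks (Matrix.mul_zero _) hq, cls_zero,
      cls_zero, add_zero, zero_add]

variable {G : Type} [Group G] {E F H : Type}

section Normed

variable [NormedAddCommGroup E] [NormedSpace ℝ E] [NormedAddCommGroup F] [NormedSpace ℝ F]
  [NormedAddCommGroup H] [NormedSpace ℝ H]

theorem isClosed_KK : IsClosed (CX.KK G E : Set (V G E →L[ℝ] V G E)) :=
  Submodule.isClosed_topologicalClosure _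

theorem tw_kk (g : G) {T : E →L[ℝ] E} (hT : IsCompactOperator T) : tw g T ∈ CX.KK G E :=
  Submodule.le_topologicalClosure _ (Submodule.subset_span ⟨g, T, hT, rfl⟩)

/-- the sandwich as a continuous linear map -/
def sand (S : F →L[ℝ] H) (T : H →L[ℝ] E) : (V G E →L[ℝ] V G F) →L[ℝ] V G H →L[ℝ] V G H :=
  (compL ℝ (V G H) (V G F) (V G H) (amp G S)).comp
    ((compL ℝ (V G H) (V G E) (V G F)).flip (amp G T))

theorem sand_apply (S : F →L[ℝ] H) (T : H →L[ℝ] E) (X : V G E →L[ℝ] V G F) :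
    sand S T X = amp G S ∘L X ∘L amp G T := rfl

theorem sand_tw (S : F →L[ℝ] H) (T : H →L[ℝ] E) (g : G) (c : E →L[ℝ] F) :
    sand S T (tw g c) = tw g (S ∘L c ∘L T) := op_ext fun _ _ => rfl

theorem sand_kk (S : E →L[ℝ] H) (T : H →L[ℝ] E) {X : V G E →L[ℝ] V G E} (hX : X ∈ CX.KK G E) :
    sand S T X ∈ CX.KK G H := by
  have : CX.KK G E ≤ (CX.KK G H).comap (sand S T).toLinearMap :=
    Submodule.topologicalClosure_minimal _ (Submodule.span_le.2 (by
      rintro _ ⟨g, c, hc, rfl⟩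
      change sand S T (tw g c) ∈ CX.KK G H
      rw [sand_tw]
      exact tw_kk g ((hc.comp_clm T).clm_comp S))) (isClosed_KK.preimage (sand S T).continuous)
  exact this hX

theorem sand_kk' {S : F →L[ℝ] H} {T : H →L[ℝ] E} (h : IsCompactOperator S ∨ IsCompactOperator T)
    {X : V G E →L[ℝ] V G F} (hX : X ∈ RR G E F) : sand S T X ∈ CX.KK G H :=
  RR_map (sand S T) _ isClosed_KK (fun g c => by
    rw [sand_tw]
    exact tw_kk g (h.elim (fun h => h.comp_clm (c ∘L T)) fun h => (h.clm_comp c).clm_comp S)) hX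

theorem cpt (S : ℝ →L[ℝ] H) (T : E →L[ℝ] ℝ) : IsCompactOperator (S ∘L T) :=
  (isCompactOperator_of_locallyCompactSpace_dom T).clm_comp S

theorem tw_real (g : G) (T : ℝ →L[ℝ] ℝ) : tw g T = T 1 • lam g :=
  have h : ∀ t : ℝ, T t = T 1 * t := fun t => by
    rw [mul_comm, ← smul_eq_mul, ← map_smul, smul_eq_mul, mul_one]
  op_ext fun _ _ => h _

theorem star_lam (g : G) : star (lam g : V G ℝ →L[ℝ] V G ℝ) = lam g⁻¹ := by
  have h1 : star (lam g : V G ℝ →L[ℝ] V G ℝ) * lam g = 1 :=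
    (norm_map_iff_adjoint_comp_self _).1 (norm_lam_apply g)
  have h2 : (lam g : V G ℝ →L[ℝ] V G ℝ) * lam g⁻¹ = 1 := op_ext fun ξ x => by simp
  rw [← mul_one (star _), ← h2, ← mul_assoc, h1, one_mul]

theorem isCS_RA : IsCS (RA G ℝ) :=
  ⟨isClosed_RA, fun x hx => RR_map (starL' ℝ (A := V G ℝ →L[ℝ] V G ℝ)).toContinuousLinearMap _
    isClosed_RR (fun g T => by
      change star (tw g T) ∈ _
      rw [tw_real, star_smul, star_lam, ← tw_id]
      exact Submodule.smul_mem _ _ (tw_mem _ _)) hx⟩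

/-- assembly of a matrix of operators -/
def asm {k : Type} [Fintype k] (a : k → E →L[ℝ] H) (b : k → H →L[ℝ] E)
    (U : k → k → V G E →L[ℝ] V G E) : V G H →L[ℝ] V G H := ∑ i, ∑ j, sand (a i) (b j) (U i j)

theorem sand_mul (S S' : E →L[ℝ] H) (T T' : H →L[ℝ] E) (X Y : V G E →L[ℝ] V G E) :
    sand S T X * sand S' T' Y = sand S T' ((X ∘L amp G (T ∘L S')) * Y) := op_ext fun _ _ => rfl

theorem asm_mul {k : Type} [Fintype k] [DecidableEq k] (a : k → E →L[ℝ] H) (b : k → H →L[ℝ] E)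
    (hab : ∀ i j, i ≠ j → b i ∘L a j = 0) (U W : k → k → V G E →L[ℝ] V G E)
    (hU : ∀ i j, U i j ∘L amp G (b j ∘L a j) = U i j) :
    asm a b U * asm a b W = asm a b fun i j => ∑ l, U i l * W l j := by
  unfold asm
  rw [Finset.sum_mul]
  refine Finset.sum_congr rfl fun i _ => ?_
  have h : ∀ j, sand (a i) (b j) (U i j) * ∑ l, ∑ m, sand (a l) (b m) (W l m) =
      ∑ m, sand (a i) (b m) (U i j * W j m) := fun j => by
    rw [Finset.mul_sum, Finset.sum_eq_single j (fun l _ hl => ?_) (by simp), Finset.mul_sum]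
    · exact Finset.sum_congr rfl fun m _ => by rw [sand_mul, hU]
    · rw [Finset.mul_sum]
      refine Finset.sum_eq_zero fun m _ => ?_
      rw [sand_mul, hab j l hl.symm, ← ampL_apply, map_zero, comp_zero, zero_mul, map_zero]
  rw [Finset.sum_mul, Finset.sum_congr rfl fun j _ => h j, Finset.sum_comm]
  exact Finset.sum_congr rfl fun m _ => (map_sum _ _ _).symm

theorem asm_mem {k : Type} [Fintype k] (a : k → E →L[ℝ] H) (b : k → H →L[ℝ] E)
    {U : k → k → V G E →L[ℝ] V G E} (hU : ∀ i j, U i j ∈ RR G E E) : asm a b U ∈ RR G H H :=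
  sum_mem fun i _ => sum_mem fun j _ => comp_mem (amp_mem _) (comp_mem (hU i j) (amp_mem _))

end Normed

section Hilb

variable [NormedAddCommGroup E] [InnerProductSpace ℝ E] [CompleteSpace E]

theorem lift_mem (hL : St_LIFT) (T : E →L[ℝ] E) (S : Submodule ℝ (V G E →L[ℝ] V G E))
    (hS : IsClosed (S : Set (V G E →L[ℝ] V G E))) (h : ∀ g, tw g T ∈ S) {b : V G ℝ →L[ℝ] V G ℝ}
    (hb : b ∈ RA G ℝ) : amp G T * lift E b ∈ S := by
  obtain ⟨h1, -, -, h2⟩ := hL G G G E E
  let f : (V G ℝ →L[ℝ] V G ℝ) →L[ℝ] V G E →L[ℝ] V G E := LinearMap.mkContinuous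
    ⟨⟨lift E, fun a b => (h1 a).2.2.2.2.2.2.2.1 b⟩, fun c a => (h1 a).2.2.2.2.2.2.2.2.1 c⟩ 1
    fun a => by rw [one_mul]; exact (h1 a).2.1
  refine RR_map ((compL ℝ (V G E) (V G E) (V G E) (amp G T)).comp f) S hS (fun g c => ?_) hb
  rw [tw_real, map_smul]
  refine S.smul_mem _ ?_
  change amp G T ∘L lift E (lam g) ∈ S
  rw [h2]
  exact h g

theorem da_sub (hL : St_LIFT) (hD : St_DAK) {X : V G E →L[ℝ] V G E} (hX : X ∈ DA E (RA G ℝ)) :
    X ∈ RR G E E :=
  (hD G E E (RA G ℝ) isCS_RA).2.2.2.1 _ isClosed_RR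
    (fun T _ hb => lift_mem hL T _ isClosed_RR (fun g => tw_mem g T) hb) X hX

theorem ka_sub (hL : St_LIFT) {X : V G E →L[ℝ] V G E} (hX : X ∈ KA E (RA G ℝ)) :
    X ∈ CX.KK G E := by
  have : KA E (RA G ℝ) ≤ CX.KK G E :=
    Submodule.topologicalClosure_minimal _ (Submodule.span_le.2 (by
      rintro _ ⟨T, b, hT, rfl⟩
      exact lift_mem hL T _ isClosed_KK (fun g => tw_kk g hT) b.2)) isClosed_KK
  exact this hX

variable (E) in
/-- the rows -/
def ro (r : ℕ) : Unit ⊕ Fin r → E1 E →L[ℝ] E × (Fin r → ℝ) :=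
  Sum.elim (fun _ => .inl ℝ E _ ∘L pE E)
    fun i => (.inr ℝ E _ ∘L .single ℝ (fun _ => ℝ) i) ∘L pR E

variable (E) in
/-- the columns -/
def co (r : ℕ) : Unit ⊕ Fin r → E × (Fin r → ℝ) →L[ℝ] E1 E :=
  Sum.elim (fun _ => iE E ∘L .fst ℝ E _) fun j => iR E ∘L (.proj j ∘L .snd ℝ E _)

omit [CompleteSpace E] in
theorem co_ro {r : ℕ} (i j : Unit ⊕ Fin r) (h : i ≠ j) : co E r i ∘L ro E r j = 0 := by
  refine ContinuousLinearMap.ext fun z => ?_
  rcases i with i | i <;> rcases j with j | j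
  · exact (h rfl).elim
  · exact map_zero (iE E)
  · exact map_zero (iR E)
  · change iR E (Pi.single (M := fun _ => ℝ) j (pR E z) i) = 0
    rw [Pi.single_eq_of_ne fun e => h (by rw [e]), map_zero]

omit [CompleteSpace E] in
theorem co_ro_inr {r : ℕ} (j : Fin r) : co E r (.inr j) ∘L ro E r (.inr j) = iR E ∘L pR E := by
  refine ContinuousLinearMap.ext fun z => ?_
  change iR E (Pi.single (M := fun _ => ℝ) j (pR E z) j) = _
  rw [Pi.single_eq_same]
  rfl

variable {C : MFI.Ctx (DA (E1 E) (RA G ℝ)) (RA G ℝ)} {r : ℕ} {e : V G E →L[ℝ] V G E}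
  {e' : DA (E1 E) (RA G ℝ)}

omit [CompleteSpace E] in
theorem blk_fix (hC : IsCtx E (RA G ℝ) C) (he : e'.1 = ex e) (q : Matrix (Fin r) (Fin r) (RA G ℝ))
    (i j : Unit ⊕ Fin r) :
    (Matrix.fromBlocks (Matrix.of fun _ _ : Unit => e') 0 0 (q.map C.io) i j).1 ∘L
      amp G (co E r j ∘L ro E r j) =
      (Matrix.fromBlocks (Matrix.of fun _ _ : Unit => e') 0 0 (q.map C.io) i j).1 := by
  rcases i with i | i <;> rcases j with j | j
  · change e'.1 ∘L _ = e'.1
    rw [he]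
    rfl
  · exact zero_comp _
  · exact zero_comp _
  · change (C.io (q i j)).1 ∘L _ = (C.io (q i j)).1
    rw [co_ro_inr, hC.1]
    rfl

omit [CompleteSpace E] in
theorem asm_blk (hC : IsCtx E (RA G ℝ) C) (he : e'.1 = ex e) (q : Matrix (Fin r) (Fin r) (RA G ℝ)) :
    (asm (ro E r) (co E r) fun i j =>
      (Matrix.fromBlocks (Matrix.of fun _ _ : Unit => e') 0 0 (q.map C.io) i j).1) =
      CX.blk e q := by
  simp only [asm, Fintype.sum_sum_type, Finset.univ_unique, Finset.sum_singleton,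
    Matrix.fromBlocks_apply₁₁, Matrix.fromBlocks_apply₁₂, Matrix.fromBlocks_apply₂₁,
    Matrix.fromBlocks_apply₂₂, Matrix.zero_apply, ZeroMemClass.coe_zero, map_zero,
    Finset.sum_const_zero, add_zero, zero_add, Matrix.of_apply, Matrix.map_apply, he, hC.1]
  rfl

omit [CompleteSpace E] in
theorem asm_mul' (hC : IsCtx E (RA G ℝ) C) (he : e'.1 = ex e) {q : Matrix (Fin r) (Fin r) (RA G ℝ)}
    {U : Matrix (Unit ⊕ Fin r) (Unit ⊕ Fin r) (DA (E1 E) (RA G ℝ))}
    (hU : U * Matrix.fromBlocks (Matrix.of fun _ _ : Unit => e') 0 0 (q.map C.io) = U)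
    (W : Matrix (Unit ⊕ Fin r) (Unit ⊕ Fin r) (DA (E1 E) (RA G ℝ))) :
    ((asm (ro E r) (co E r) fun i j => (U i j).1) * asm (ro E r) (co E r) fun i j => (W i j).1) =
      asm (ro E r) (co E r) fun i j => ((U * W) i j).1 := by
  rw [asm_mul _ _ co_ro]
  · simp only [Matrix.mul_apply, AddSubmonoidClass.coe_finsetSum, MulMemClass.coe_mul]
  · intro i j
    rw [← hU, Matrix.mul_apply, AddSubmonoidClass.coe_finsetSum, finsetSum_comp]
    refine Finset.sum_congr rfl fun l _ => ?_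
    rw [MulMemClass.coe_mul, mul_def, comp_assoc, blk_fix hC he]

end Hilb

end CONV

open CONV in
theorem stCONV (hL : St_LIFT) (hD : St_DAK) : St_CONV := by
  intro G _ E _ _ _
  refine ⟨isCS_RA, fun X hX => da_sub hL hD hX, ?_⟩
  rintro e f κ he hf ⟨C, e', f', hC, h1, h2, h3⟩
  have a1 : ∀ {x y : V G E →L[ℝ] V G E} {x' y' : DA (E1 E) (RA G ℝ)}, x'.1 = ex x → y'.1 = ex y →
      (x' * y').1 = ex (x * y) := fun hx hy => by
    rw [MulMemClass.coe_mul, hx, hy]
    rfl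
  have a2 : ∀ x y : DA (E1 E) (RA G ℝ), (Matrix.of fun _ _ : Unit => x) *
      (Matrix.of fun _ _ : Unit => y) = Matrix.of fun _ _ : Unit => x * y := fun x y => by
    ext i j : 1
    simp only [Matrix.mul_apply, Finset.univ_unique, Finset.sum_singleton, Matrix.of_apply]
  have he' : e' * e' = e' := Subtype.ext ((a1 h1 h1).trans (by rw [he, h1]))
  have hf' : f' * f' = f' := Subtype.ext ((a1 h2 h2).trans (by rw [hf, h2]))
  obtain ⟨r, p, q, U, W, hp, hq, b1, b2, b3, b4, b5, rfl⟩ := pad h3 (by rw [a2, he'])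
    (by rw [a2, hf']) (by rw [a2, mul_assoc, he'])
  refine ⟨r, p, q, hp, hq, _, asm_mem (ro E r) (co E r) fun i j => da_sub hL hD (U i j).2,
    _, asm_mem (ro E r) (co E r) fun i j => da_sub hL hD (W i j).2, ?_, ?_, ?_, rfl⟩
  · rw [asm_mul' hC h1 b3, b2, asm_blk hC h2]
  · rw [asm_mul' hC h2 b4, b1, asm_blk hC h1]
  · rw [← asm_blk hC (a1 h2 h1), asm, asm, ← Finset.sum_sub_distrib]
    refine sum_mem fun i _ => ?_
    rw [← Finset.sum_sub_distrib]
    refine sum_mem fun j _ => ?_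
    rw [← map_sub, ← AddSubgroupClass.coe_sub]
    rcases j with j | j
    · rcases i with i | i
      · exact sand_kk _ _ (ka_sub hL ((hC.2 _).1 (b5 i j)))
      · exact sand_kk' (.inl (cpt _ _)) (da_sub hL hD (Subtype.mem _))
    · exact sand_kk' (.inr (cpt _ _)) (da_sub hL hD (Subtype.mem _))

end Pool.Agent.Lib.RQ
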