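import Pool.Agent.Lib.RQ.Blue
import Pool.Agent.Lib.MFI.Apx

/-! Block CTX: the standard context exists and finite projections approximate its ideal. -/

noncomputable section

open Set BCO

namespace Pool.Agent.Lib.RQ

namespace CTX

theorem mem_clos {W L : Type} [AddCommGroup W] [Module ℝ W] [TopologicalSpace W] [ContinuousAdd W]
    [ContinuousConstSMul ℝ W] [NormedRing L] [NormedAlgebra ℝ L] (v : L →ₗ[ℝ] W) (hv : Topology.IsEmbedding v) (S : Set W)
    (S' : Set L) (h : S ⊆ v '' S') (a : L) (ha : v a ∈ (Submodule.span ℝ S).topologicalClosure) :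
    a ∈ (Submodule.span ℝ S').topologicalClosure := by
  change a ∈ closure (Submodule.span ℝ S' : Set L)
  rw [hv.closure_eq_preimage_closure_image]
  refine closure_mono ?_ ha
  have : Submodule.span ℝ S ≤ (Submodule.span ℝ S').map v := by
    rw [Submodule.map_span]
    exact Submodule.span_mono h
  exact this

variable {I E F : Type} [NormedAddCommGroup E] [InnerProductSpace ℝ E] [NormedAddCommGroup F]
  [InnerProductSpace ℝ F]

theorem oext {A B : V I E →L[ℝ] V I F} (h : ∀ ξ x, A ξ x = B ξ x) : A = B :=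
  ContinuousLinearMap.ext fun ξ => lp.ext (funext (h ξ))

theorem pi_i (ξ : V I ℝ) : amp I (pR E) (amp I (iR E) ξ) = ξ := lp.ext (funext fun _ => rfl)

variable (I E) in
/-- pointwise operators, as an algebra homomorphism -/
def am : (E →L[ℝ] E) →ₐ[ℝ] (V I E →L[ℝ] V I E) where
  toFun := amp I
  map_one' := oext fun _ _ => rfl
  map_mul' _ _ := oext fun _ _ => rfl
  map_zero' := oext fun _ _ => rfl
  map_add' _ _ := oext fun _ _ => rfl
  commutes' _ := oext fun _ _ => rfl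

theorem continuous_am : Continuous (am I E) :=
  AddMonoidHomClass.continuous_of_bound (am I E).toLinearMap 1 fun T => by
    rw [one_mul]
    exact lp.norm_mapCLM_le 2 (fun _ => T) (norm_nonneg T) fun _ => le_rfl

end CTX

open CTX in
theorem stCTX (hL : St_LIFT) (hD : St_DAK) : St_CTX := by
  intro I E _ _ _ B hB
  obtain ⟨-, d2, d3, -, d5, d6, -, -⟩ := hD I (E1 E) (E1 E) B hB
  obtain ⟨-, -, e3, -, -, -, e7, e8⟩ := hD I ℝ (E1 E) B hB
  obtain ⟨-, -, -, -, -, -, f7, -⟩ := hD I (E1 E) ℝ B hB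
  have hm : ∀ a : B, amp I (iR E) ∘L a.1 ∘L amp I (pR E) ∈ DA (E1 E) B := fun a => by
    refine (e7 (iR E) (pR E) a.1).1 ?_
    have := e3 a.1 a.2
    rwa [((hL I I I ℝ ℝ).1 a.1).2.2.2.2.1] at this
  have hone : amp I (iR E) ∘L (1 : V I ℝ →L[ℝ] V I ℝ) ∘L amp I (pR E) = amp I (iR E ∘L pR E) :=
    oext fun _ _ => rfl
  constructor
  · let io : B →ₙ+* DA (E1 E) B :=
      { toFun := fun a => ⟨_, hm a⟩
        map_mul' := fun a b => Subtype.ext (ContinuousLinearMap.ext fun ξ => by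
          change amp I (iR E) (a.1 (b.1 (amp I (pR E) ξ))) =
            amp I (iR E) (a.1 (amp I (pR E) (amp I (iR E) (b.1 (amp I (pR E) ξ)))))
          rw [pi_i])
        map_zero' := Subtype.ext (ContinuousLinearMap.ext fun ξ => map_zero (amp I (iR E)))
        map_add' := fun a b => Subtype.ext (ContinuousLinearMap.ext fun ξ =>
          map_add (amp I (iR E)) _ _) }
    let J : TwoSidedIdeal (DA (E1 E) B) := TwoSidedIdeal.mk' {x | x.1 ∈ KA (E1 E) B}
      (KA (E1 E) B).zero_mem (fun hx hy => (KA (E1 E) B).add_mem hx hy)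
      (fun hx => (KA (E1 E) B).neg_mem hx)
      (fun {x y} hy => ((d5 y.1 hy).2.2 x.1 x.2).2) (fun {x y} hx => ((d5 x.1 hx).2.2 y.1 y.2).1)
    have hJ : ∀ x, x ∈ J ↔ x.1 ∈ KA (E1 E) B := fun x => TwoSidedIdeal.mem_mk' _ _ _ _ _ _ x
    refine ⟨⟨io, J, fun a b hab => Subtype.ext (ContinuousLinearMap.ext fun ξ => ?_), fun a => ?_,
      ?_⟩, fun _ => rfl, hJ⟩
    · have h1 : amp I (iR E) (a.1 (amp I (pR E) (amp I (iR E) ξ))) =
          amp I (iR E) (b.1 (amp I (pR E) (amp I (iR E) ξ))) :=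
        congrArg (fun T : DA (E1 E) B => T.1 (amp I (iR E) ξ)) hab
      have h2 := congrArg (amp I (pR E)) h1
      simpa only [pi_i] using h2
    · exact ⟨⟨_, e8 _ ((f7 (pR E) (iR E) a.1).1 a.2)⟩, Subtype.ext (ContinuousLinearMap.ext fun _ => rfl)⟩
    · rw [hJ]
      change amp I (iR E) ∘L (1 : V I ℝ →L[ℝ] V I ℝ) ∘L amp I (pR E) ∈ _
      rw [hone]
      exact d6 _ ((isCompactOperator_of_locallyCompactSpace_dom (pR E)).clm_comp (iR E))
  · rintro C ⟨h1, h2⟩
    refine MFI.approx_of ((am I (E1 E)).codRestrict (DA (E1 E) B) d2)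
      (continuous_am.subtype_mk _) (iR E) (pR E) (fun _ => rfl)
      (Subtype.ext ((h1 1).trans hone)) fun a ha => ?_
    refine mem_clos (W := V I (E1 E) →L[ℝ] V I (E1 E)) (L := DA (E1 E) B)
      (DA (E1 E) B).val.toLinearMap (by exact Topology.IsEmbedding.subtypeVal) _ _ ?_ a
      ((h2 a).1 ha)
    rintro _ ⟨T, b, hT, rfl⟩
    refine ⟨_, ⟨T, ⟨lift (E1 E) b.1, d3 b.1 b.2⟩, hT, fun S => Subtype.ext ?_, rfl⟩, rfl⟩
    exact ((hL I I I (E1 E) (E1 E)).1 b.1).2.2.2.2.2.2.1 S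

end Pool.Agent.Lib.RQ
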