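import Pool.Agent.Lib.RQ.Blue

/-! DAK: the algebra `DA` and its ideal `KA`. -/

set_option linter.unusedSectionVars false

noncomputable section

open Set BCO ContinuousLinearMap
open scoped InnerProductSpace

namespace Pool.Agent.Lib.RQ

namespace DAK

section Generic

variable {W W' : Type} [NormedAddCommGroup W] [InnerProductSpace ℝ W] [CompleteSpace W]
  [NormedAddCommGroup W'] [InnerProductSpace ℝ W'] [CompleteSpace W']

/-- the adjoint of a compact operator is compact -/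
theorem compact_adjoint {T : W →L[ℝ] W'} (hT : IsCompactOperator T) :
    IsCompactOperator (adjoint T) := by
  have hK : IsCompactOperator (T.comp (adjoint T)) := hT.comp_clm (adjoint T)
  have tb : TotallyBounded ((T.comp (adjoint T)) '' Metric.ball 0 1) :=
    (IsCompactOperator.isCompact_closure_image_ball (f := (T.comp (adjoint T)).toLinearMap)
      hK 1).totallyBounded.subset subset_closure
  refine (isCompactOperator_iff_isCompact_closure_image_ball (adjoint T).toLinearMap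
    one_pos).2 ?_
  refine (TotallyBounded.closure ?_).isCompact_of_isClosed isClosed_closure
  rw [Metric.totallyBounded_iff]
  intro ε hε
  obtain ⟨t, hts, htf, hc⟩ := Metric.finite_approx_of_totallyBounded tb (ε ^ 2 / 2) (by positivity)
  have hts' : ∀ y ∈ t, ∃ x ∈ Metric.ball (0 : W') 1, (T.comp (adjoint T)) x = y :=
    fun y hy => hts hy
  choose! u hu hu' using hts'
  refine ⟨(fun y => adjoint T (u y)) '' t, htf.image _, ?_⟩
  rintro _ ⟨x, hx, rfl⟩
  obtain ⟨y, hy, h⟩ := Set.mem_iUnion₂.1 (hc ⟨x, hx, rfl⟩)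
  refine Set.mem_iUnion₂.2 ⟨_, ⟨y, hy, rfl⟩, ?_⟩
  rw [← hu' y hy] at h
  have hx1 := mem_ball_zero_iff.1 hx
  have hu1 := mem_ball_zero_iff.1 (hu y hy)
  rw [Metric.mem_ball, dist_eq_norm, ← map_sub] at h
  change dist (adjoint T x) (adjoint T (u y)) < ε
  rw [dist_eq_norm, ← map_sub]
  have h2 : ‖x - u y‖ ≤ 2 := (norm_sub_le _ _).trans (by linarith)
  have h3 : ‖adjoint T (x - u y)‖ ^ 2 = ⟪x - u y, (T.comp (adjoint T)) (x - u y)⟫_ℝ := by
    rw [comp_apply, ← adjoint_inner_left, real_inner_self_eq_norm_sq]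
  have h4 := real_inner_le_norm (x - u y) ((T.comp (adjoint T)) (x - u y))
  have h5 : ‖adjoint T (x - u y)‖ ^ 2 < ε ^ 2 := by
    have := norm_nonneg ((T.comp (adjoint T)) (x - u y))
    nlinarith
  exact lt_of_pow_lt_pow_left₀ 2 hε.le h5

/-- induction over the closed algebra generated by a set -/
theorem clos_ind {g M : Set (W →L[ℝ] W)} (h1 : (1 : W →L[ℝ] W) ∈ M) (hg : g ⊆ M)
    (hM : ∀ x ∈ M, ∀ y ∈ M, x * y ∈ M) (S : Submodule ℝ (W →L[ℝ] W))
    (hS : IsClosed (S : Set (W →L[ℝ] W))) (h : M ⊆ S) : ∀ X ∈ clos g, X ∈ S := by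
  intro X hX
  refine closure_minimal (s := (Algebra.adjoin ℝ g : Set (W →L[ℝ] W))) (fun Y hY => ?_) hS hX
  have h2 : Y ∈ Subalgebra.toSubmodule (Algebra.adjoin ℝ g) := hY
  rw [Algebra.adjoin_eq_span] at h2
  refine Submodule.span_le.2 (fun Z hZ => h ?_) h2
  induction hZ using Submonoid.closure_induction with
  | mem x hx => exact hg hx
  | one => exact h1
  | mul x y _ _ hx hy => exact hM x hx y hy

theorem isClosed_clos (g : Set (W →L[ℝ] W)) : IsClosed (clos g : Set (W →L[ℝ] W)) :=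
  Subalgebra.isClosed_topologicalClosure _

theorem mem_clos {g : Set (W →L[ℝ] W)} {x : W →L[ℝ] W} (hx : x ∈ g) : x ∈ clos g :=
  Subalgebra.le_topologicalClosure _ (Algebra.subset_adjoin hx)

/-- induction over a closed span -/
theorem span_ind {g : Set (W →L[ℝ] W)} (S : Submodule ℝ (W →L[ℝ] W))
    (hS : IsClosed (S : Set (W →L[ℝ] W))) (h : g ⊆ S) :
    ∀ X ∈ (Submodule.span ℝ g).topologicalClosure, X ∈ S :=
  fun _ hX => Submodule.topologicalClosure_minimal _ (Submodule.span_le.2 h) hS hX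

theorem isClosed_span (g : Set (W →L[ℝ] W)) :
    IsClosed ((Submodule.span ℝ g).topologicalClosure : Set (W →L[ℝ] W)) :=
  Submodule.isClosed_topologicalClosure _

theorem mem_span {g : Set (W →L[ℝ] W)} {x : W →L[ℝ] W} (hx : x ∈ g) :
    x ∈ (Submodule.span ℝ g).topologicalClosure :=
  Submodule.le_topologicalClosure _ (Submodule.subset_span hx)

/-- the operators whose adjoint lies in `S` -/
def starS (S : Submodule ℝ (W →L[ℝ] W)) : Submodule ℝ (W →L[ℝ] W) where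
  carrier := {X | star X ∈ S}
  add_mem' {X Y} hX hY := by
    show star (X + Y) ∈ S
    rw [star_add]; exact S.add_mem hX hY
  zero_mem' := by
    show star 0 ∈ S
    rw [star_zero]; exact S.zero_mem
  smul_mem' c X hX := by
    show star (c • X) ∈ S
    rw [star_smul]; exact S.smul_mem _ hX

theorem isClosed_starS {S : Submodule ℝ (W →L[ℝ] W)} (hS : IsClosed (S : Set (W →L[ℝ] W))) :
    IsClosed (starS S : Set (W →L[ℝ] W)) := hS.preimage continuous_star

/-- the operators `X` with `A X C ∈ S` -/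
def sand (A : W →L[ℝ] W') (C : W' →L[ℝ] W) (S : Submodule ℝ (W' →L[ℝ] W')) :
    Submodule ℝ (W →L[ℝ] W) where
  carrier := {X | A ∘L X ∘L C ∈ S}
  add_mem' {X Y} hX hY := by
    show A ∘L (X + Y) ∘L C ∈ S
    rw [add_comp, comp_add]; exact S.add_mem hX hY
  zero_mem' := by
    show A ∘L 0 ∘L C ∈ S
    rw [zero_comp, comp_zero]; exact S.zero_mem
  smul_mem' c X hX := by
    show A ∘L (c • X) ∘L C ∈ S
    rw [smul_comp, comp_smul]; exact S.smul_mem _ hX

theorem isClosed_sand (A : W →L[ℝ] W') (C : W' →L[ℝ] W) {S : Submodule ℝ (W' →L[ℝ] W')}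
    (hS : IsClosed (S : Set (W' →L[ℝ] W'))) : IsClosed (sand A C S : Set (W →L[ℝ] W)) :=
  hS.preimage (f := fun X : W →L[ℝ] W => A ∘L X ∘L C)
    (continuous_const.clm_comp (continuous_id.clm_comp continuous_const))

/-- the operators that `Y` multiplies into `S` -/
def mulS (Y : W →L[ℝ] W) (S : Submodule ℝ (W →L[ℝ] W)) : Submodule ℝ (W →L[ℝ] W) :=
  sand 1 Y S ⊓ sand Y 1 S

theorem isClosed_mulS (Y : W →L[ℝ] W) {S : Submodule ℝ (W →L[ℝ] W)}
    (hS : IsClosed (S : Set (W →L[ℝ] W))) : IsClosed (mulS Y S : Set (W →L[ℝ] W)) :=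
  (isClosed_sand _ _ hS).inter (isClosed_sand _ _ hS)

theorem mem_mulS {X Y : W →L[ℝ] W} {S : Submodule ℝ (W →L[ℝ] W)} :
    X ∈ mulS Y S ↔ X * Y ∈ S ∧ Y * X ∈ S := Iff.rfl

end Generic

variable {I E F : Type} [NormedAddCommGroup E] [InnerProductSpace ℝ E] [CompleteSpace E]
  [NormedAddCommGroup F] [InnerProductSpace ℝ F] [CompleteSpace F]
  {B : Subalgebra ℝ (V I ℝ →L[ℝ] V I ℝ)}

theorem amp_mul (T S : E →L[ℝ] E) : amp I T * amp I S = amp I (T * S) :=
  ContinuousLinearMap.ext fun _ => lp.ext (funext fun _ => rfl)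

theorem amp_one : amp I (1 : E →L[ℝ] E) = 1 :=
  ContinuousLinearMap.ext fun _ => lp.ext (funext fun _ => rfl)

theorem lift_one (hL : St_LIFT) : lift E (1 : V I ℝ →L[ℝ] V I ℝ) = 1 := (hL I I I E E).2.1

theorem lift_mul (hL : St_LIFT) (a b : V I ℝ →L[ℝ] V I ℝ) :
    lift E a * lift E b = lift E (a * b) :=
  (((hL I I I E E).1 b).2.2.2.2.2.2.2.2.2 a).symm

theorem lift_amp (hL : St_LIFT) (a : V I ℝ →L[ℝ] V I ℝ) (T : E →L[ℝ] F) :
    lift F a ∘L amp I T = amp I T ∘L lift E a := ((hL I I I E F).1 a).2.2.2.2.2.2.1 T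

theorem lift_mul_amp (hL : St_LIFT) (a : V I ℝ →L[ℝ] V I ℝ) (T : E →L[ℝ] E) :
    lift E a * amp I T = amp I T * lift E a := lift_amp hL a T

theorem gen_mul (hL : St_LIFT) (a b : V I ℝ →L[ℝ] V I ℝ) (T S : E →L[ℝ] E) :
    amp I T * lift E a * (amp I S * lift E b) = amp I (T * S) * lift E (a * b) := by
  rw [mul_assoc, ← mul_assoc (lift E a), lift_mul_amp hL, mul_assoc, lift_mul hL, ← mul_assoc,
    amp_mul]

theorem gen_star (hL : St_LIFT) (a : V I ℝ →L[ℝ] V I ℝ) (T : E →L[ℝ] E) :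
    star (amp I T * lift E a) = amp I (adjoint T) * lift E (star a) := by
  rw [star_mul, star_eq_adjoint, star_eq_adjoint, ((hL I I I E E).1 a).2.2.2.1,
    (hL I I I E E).2.2.1 T, lift_mul_amp hL, star_eq_adjoint]

theorem gen_sand (hL : St_LIFT) (a : V I ℝ →L[ℝ] V I ℝ) (S : E →L[ℝ] F) (T : F →L[ℝ] E)
    (U : E →L[ℝ] E) : amp I S ∘L (amp I U * lift E a) ∘L amp I T =
      amp I (S ∘L U ∘L T) * lift F a := by
  have h : (amp I U * lift E a) ∘L amp I T = amp I U ∘L amp I T ∘L lift F a := by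
    rw [← lift_amp hL a T]; rfl
  rw [h]
  exact ContinuousLinearMap.ext fun _ => lp.ext (funext fun _ => rfl)

theorem amp_mem (T : E →L[ℝ] E) : amp I T ∈ DA E B := mem_clos (Or.inl ⟨T, rfl⟩)

theorem lift_mem {b : V I ℝ →L[ℝ] V I ℝ} (hb : b ∈ B) : lift E b ∈ DA E B :=
  mem_clos (Or.inr ⟨b, hb, rfl⟩)

theorem gen_mem (T : E →L[ℝ] E) {b : V I ℝ →L[ℝ] V I ℝ} (hb : b ∈ B) :
    amp I T * lift E b ∈ DA E B := (DA E B).mul_mem (amp_mem T) (lift_mem hb)

theorem gen_memK {T : E →L[ℝ] E} (hT : IsCompactOperator T) {b : V I ℝ →L[ℝ] V I ℝ} (hb : b ∈ B) :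
    amp I T * lift E b ∈ KA E B := mem_span ⟨T, ⟨b, hb⟩, hT, rfl⟩

theorem isClosed_DA : IsClosed ((DA E B).toSubmodule : Set (V I E →L[ℝ] V I E)) :=
  isClosed_clos _

theorem isClosed_KA : IsClosed (KA E B : Set (V I E →L[ℝ] V I E)) := isClosed_span _

theorem DA_ind (hL : St_LIFT) (S : Submodule ℝ (V I E →L[ℝ] V I E))
    (hS : IsClosed (S : Set (V I E →L[ℝ] V I E)))
    (h : ∀ (T : E →L[ℝ] E), ∀ b ∈ B, amp I T * lift E b ∈ S) : ∀ X ∈ DA E B, X ∈ S := by
  refine clos_ind (M := {X | ∃ (T : E →L[ℝ] E), ∃ b ∈ B, X = amp I T * lift E b}) ?_ ?_ ?_ S hS ?_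
  · exact ⟨1, 1, B.one_mem, by rw [amp_one, lift_one hL, one_mul]⟩
  · rintro _ (⟨T, rfl⟩ | ⟨b, hb, rfl⟩)
    · exact ⟨T, 1, B.one_mem, by rw [lift_one hL, mul_one]⟩
    · exact ⟨1, b, hb, by rw [amp_one, one_mul]⟩
  · rintro _ ⟨T, a, ha, rfl⟩ _ ⟨U, b, hb, rfl⟩
    exact ⟨T * U, a * b, B.mul_mem ha hb, gen_mul hL a b T U⟩
  · rintro _ ⟨T, a, ha, rfl⟩
    exact h T a ha

theorem KA_ind (S : Submodule ℝ (V I E →L[ℝ] V I E))
    (hS : IsClosed (S : Set (V I E →L[ℝ] V I E)))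
    (h : ∀ (T : E →L[ℝ] E), IsCompactOperator T → ∀ b ∈ B, amp I T * lift E b ∈ S) :
    ∀ X ∈ KA E B, X ∈ S := by
  refine span_ind S hS ?_
  rintro _ ⟨T, b, hT, rfl⟩
  exact h T hT b.1 b.2

theorem KA_mul (hL : St_LIFT) {X Y : V I E →L[ℝ] V I E} (hX : X ∈ KA E B) (hY : Y ∈ DA E B) :
    X * Y ∈ KA E B ∧ Y * X ∈ KA E B := by
  refine mem_mulS.1 (KA_ind (mulS Y (KA E B)) (isClosed_mulS Y isClosed_KA)
    (fun T hT a ha => mem_mulS.2 (mem_mulS.1 ?_).symm) X hX)
  refine DA_ind hL (mulS _ (KA E B)) (isClosed_mulS _ isClosed_KA) (fun U b hb => ?_) Y hY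
  rw [mem_mulS, gen_mul hL, gen_mul hL]
  exact ⟨gen_memK (hT.clm_comp U) (B.mul_mem hb ha), gen_memK (hT.comp_clm U) (B.mul_mem ha hb)⟩

theorem amp_real (T : ℝ →L[ℝ] ℝ) : amp I T = T 1 • (1 : V I ℝ →L[ℝ] V I ℝ) :=
  ContinuousLinearMap.ext fun ξ => lp.ext (funext fun x => by
    show T (ξ x) = T 1 • ξ x
    rw [smul_eq_mul, mul_comm, ← smul_eq_mul, ← map_smul, smul_eq_mul, mul_one])

end DAK

open DAK in
theorem stDAK (hL : St_LIFT) : St_DAK := by
  intro I E F _ _ _ _ _ _ B hB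
  refine ⟨⟨isClosed_DA, fun X hX => ?_⟩, amp_mem, fun b hb => lift_mem hb, DA_ind hL,
    fun X hX => ⟨?_, ?_, fun Y hY => KA_mul hL hX hY⟩, fun T hT => ?_,
    fun S T X => ⟨fun hX => ?_, fun hX => ?_⟩, fun X hX => ?_⟩
  · refine DA_ind hL (starS (DA E B).toSubmodule) (isClosed_starS isClosed_DA)
      (fun T b hb => ?_) X hX
    show star _ ∈ DA E B
    rw [gen_star hL]
    exact gen_mem _ (hB.2 b hb)
  · exact KA_ind (DA E B).toSubmodule isClosed_DA (fun T _ b hb => gen_mem T hb) X hX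
  · refine KA_ind (starS (KA E B)) (isClosed_starS isClosed_KA) (fun T hT b hb => ?_) X hX
    show star _ ∈ KA E B
    rw [gen_star hL]
    exact gen_memK (compact_adjoint hT) (hB.2 b hb)
  · have h := gen_memK (I := I) (B := B) hT B.one_mem
    rwa [lift_one hL, mul_one] at h
  · refine DA_ind hL (sand (amp I S) (amp I T) (DA F B).toSubmodule)
      (isClosed_sand _ _ isClosed_DA) (fun U b hb => ?_) X hX
    show amp I S ∘L _ ∘L amp I T ∈ DA F B
    rw [gen_sand hL]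
    exact gen_mem _ hb
  · refine KA_ind (sand (amp I S) (amp I T) (KA F B))
      (isClosed_sand _ _ isClosed_KA) (fun U hU b hb => ?_) X hX
    show amp I S ∘L _ ∘L amp I T ∈ KA F B
    rw [gen_sand hL]
    exact gen_memK ((hU.comp_clm T).clm_comp S) hb
  · refine DA_ind hL B.toSubmodule hB.1 (fun T b hb => ?_) X hX
    rw [((hL I I I ℝ ℝ).1 b).2.2.2.2.1, amp_real, smul_mul_assoc, one_mul]
    exact B.smul_mem hb _

end Pool.Agent.Lib.RQ
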