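import Pool.Agent.Lib.CX.Defs
import Pool.Agent.Lib.MFI.Ban

/-! Route Q: operator packages, amplification, the algebras of a representation. -/

noncomputable section

open Set MeasureTheory BCO
open scoped InnerProductSpace Manifold ContDiff

namespace Pool.Agent.Lib.RQ

/-- `R` behaves like `(D + w)⁻¹` for an odd self-adjoint `D`. -/
structure Res {W : Type} [NormedAddCommGroup W] [InnerProductSpace ℝ W] [CompleteSpace W]
    (w R : W →L[ℝ] W) : Prop where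
  w_sa : star w = w
  w_sq : w * w = 1
  sa : star R = R
  anti : w * R + R * w = 2 * (R * R)

open Classical in
/-- The bounded form of a Dirac operator `D` with grading `w`: `R = (D + w)⁻¹`, `N j = ∇_j R`,
Clifford multiplications `gam j`, a partition `∑ ph a ^ 2 = 1` with derivatives `dph a j`, and the
indicator functions `E a g` of the sets where the sheet `a` is carried to the global sheet by `g`. -/
structure Pack (G : Type) [Group G] (W : Type) [NormedAddCommGroup W] [InnerProductSpace ℝ W]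
    [CompleteSpace W] (n : ℕ) (A : Type) [Fintype A] where
  F : Finset G
  w : W →L[ℝ] W
  R : W →L[ℝ] W
  chi : W →L[ℝ] W
  gam : Fin n → W →L[ℝ] W
  N : Fin n → W →L[ℝ] W
  ph : A → W →L[ℝ] W
  dph : A → Fin n → W →L[ℝ] W
  E : A → G → W →L[ℝ] W
  kap : ℝ
  /-- the multiplication operators -/
  mul : Set (W →L[ℝ] W)
  chi_mem : chi ∈ mul
  ph_mem : ∀ a, ph a ∈ mul
  dph_mem : ∀ a j, dph a j ∈ mul
  E_mem : ∀ a g, E a g ∈ mul
  mul_sa : ∀ x ∈ mul, star x = x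
  mul_comm : ∀ x ∈ mul, ∀ y ∈ mul, x * y = y * x
  mul_w : ∀ x ∈ mul, x * w = w * x
  mul_gam : ∀ x ∈ mul, ∀ j, x * gam j = gam j * x
  res : Res w R
  inj : Function.Injective R
  gam_skew : ∀ j, star (gam j) = -gam j
  gam_cl : ∀ j k, gam j * gam k + gam k * gam j = if j = k then -2 else 0
  E_mul : ∀ a g h, E a g * E a h = if g = h then E a g else 0
  E_off : ∀ a, ∀ g ∉ F, E a g = 0
  ph_supp : ∀ a, (∑ g ∈ F, E a g) * ph a = ph a
  dph_supp : ∀ a j, (∑ g ∈ F, E a g) * dph a j = dph a j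
  ph_sq : ∑ a, ph a * ph a = 1
  ph_dph : ∀ j, ∑ a, ph a * dph a j = 0
  comm : ∀ a b g,
    let e := ∑ h ∈ F, E a h * E b (h * g)
    let ψ := ph a * ph b * e
    let dψ := fun j => (dph a j * ph b + ph a * dph b j) * e
    let C := ∑ j, gam j * dψ j
    ψ * R - R * ψ = R * C * R ∧ ∀ j, N j * (ψ + C * R) = ψ * N j + dψ j * R
  kap_pos : 0 < kap
  lich : ∀ η, ∑ j, ‖N j η‖ ^ 2 + kap * ‖R η‖ ^ 2 ≤ ‖η - w (R η)‖ ^ 2 + ‖chi (R η)‖ ^ 2

namespace Pack

variable {G : Type} [Group G] {W : Type} [NormedAddCommGroup W] [InnerProductSpace ℝ W]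
  [CompleteSpace W] {n : ℕ} {A : Type} [Fintype A] (P : Pack G W n A)

/-- the indicator of the set where the transition from `a` to `b` is `g` -/
def E2 (a b : A) (g : G) : W →L[ℝ] W := ∑ h ∈ P.F, P.E a h * P.E b (h * g)

/-- Clifford multiplication by `d ph a` -/
def C (a : A) : W →L[ℝ] W := ∑ j, P.gam j * P.dph a j

/-- `s' = (D + w) s` for a section `s` that lives in the sheet `a`, tested with the cutoffs -/
def Good (a : A) (s' s : W) : Prop :=
  ∀ b g, P.R (P.E2 b a g (P.ph b s' + P.C b s)) = P.E2 b a g (P.ph b s)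

/-- from the sheet `a` to the global trivialisation -/
def T (r : G → W →L[ℝ] W) (a : A) : W →L[ℝ] W := ∑ g ∈ P.F, P.E a g * r g

/-- all operators of the package -/
def ops : Set (W →L[ℝ] W) := P.mul ∪ {P.w, P.R} ∪ range P.gam ∪ range P.N

/-- The set `𝒯` of pairs `((D + w) ξ, ξ)` consists of good sections put on one sheet, and there are
enough of them. -/
def Tests (𝒯 : Set (V G W × V G W)) : Prop :=
  (∀ q ∈ 𝒯, ∃ a g s' s, P.Good a s' s ∧ ∀ γ, q.1 γ = P.E a (γ * g⁻¹) s' ∧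
    q.2 γ = P.E a (γ * g⁻¹) s) ∧
  ∀ a z, (P.ph a z + P.C a (P.R z), P.ph a (P.R z)) ∈
    (Submodule.span ℝ {u : W × W | ∀ g, ∃ q ∈ 𝒯, ∀ γ, q.1 γ = P.E a (γ * g⁻¹) u.1 ∧
      q.2 γ = P.E a (γ * g⁻¹) u.2}).topologicalClosure

end Pack

/-- the closed algebra generated by a set of operators -/
def clos {W : Type} [NormedAddCommGroup W] [NormedSpace ℝ W] (S : Set (W →L[ℝ] W)) :
    Subalgebra ℝ (W →L[ℝ] W) := (Algebra.adjoin ℝ S).topologicalClosure

section Lift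

variable {I J : Type} (E : Type) [NormedAddCommGroup E] [InnerProductSpace ℝ E]

/-- `T` is `1 ⊗ a` -/
def IsLift (a : V I ℝ →L[ℝ] V J ℝ) (T : V I E →L[ℝ] V J E) : Prop :=
  ∀ (h : E) ξ, amp J (innerSL ℝ h) (T ξ) = a (amp I (innerSL ℝ h) ξ)

/-- the operator `1 ⊗ a` on `ℓ²(I, E)` -/
def lift (a : V I ℝ →L[ℝ] V J ℝ) : V I E →L[ℝ] V J E := Classical.epsilon (IsLift E a)

variable {E} in
/-- the vector `s ⊗ v` -/
def ten (s : E) (v : V I ℝ) : V I E := amp I (ContinuousLinearMap.toSpanSingleton ℝ s) v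

variable (B : Subalgebra ℝ (V I ℝ →L[ℝ] V I ℝ))

/-- the closure of `B(E) ⊗ B` -/
def DA : Subalgebra ℝ (V I E →L[ℝ] V I E) :=
  clos (range (amp I : (E →L[ℝ] E) → _) ∪ lift E '' B)

/-- the closure of `K(E) ⊗ B` -/
def KA : Submodule ℝ (V I E →L[ℝ] V I E) :=
  (Submodule.span ℝ {X | ∃ (T : E →L[ℝ] E) (b : B), IsCompactOperator T ∧
    X = amp I T * lift E b.1}).topologicalClosure

/-- `E ⊕ ℝ` -/
abbrev E1 : Type := WithLp 2 (E × ℝ)

/-- the inclusion of `E` -/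
def iE : E →L[ℝ] E1 E :=
  (WithLp.prodContinuousLinearEquiv 2 ℝ E ℝ).symm.toContinuousLinearMap ∘L .inl ℝ E ℝ

/-- the projection to `E` -/
def pE : E1 E →L[ℝ] E := .fst ℝ E ℝ ∘L (WithLp.prodContinuousLinearEquiv 2 ℝ E ℝ).toContinuousLinearMap

/-- the inclusion of `ℝ` -/
def iR : ℝ →L[ℝ] E1 E :=
  (WithLp.prodContinuousLinearEquiv 2 ℝ E ℝ).symm.toContinuousLinearMap ∘L .inr ℝ E ℝ

/-- the projection to `ℝ` -/
def pR : E1 E →L[ℝ] ℝ := .snd ℝ E ℝ ∘L (WithLp.prodContinuousLinearEquiv 2 ℝ E ℝ).toContinuousLinearMap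

variable {E} in
/-- extension by zero -/
def ex (X : V I E →L[ℝ] V I E) : V I (E1 E) →L[ℝ] V I (E1 E) := amp I (iE E) ∘L X ∘L amp I (pE E)

/-- the standard context -/
def IsCtx (C : MFI.Ctx (DA (E1 E) B) B) : Prop :=
  (∀ a, (C.io a).1 = amp I (iR E) ∘L a.1 ∘L amp I (pR E)) ∧ ∀ x, x ∈ C.J ↔ x.1 ∈ KA (E1 E) B

variable {E} in
/-- the index of `f e : ran e → ran f` over `B` -/
def Idx (e f : V I E →L[ℝ] V I E) (κ : BCH.K0 B) : Prop :=
  ∃ (C : MFI.Ctx (DA (E1 E) B) B) (e' f' : DA (E1 E) B), IsCtx E B C ∧ e'.1 = ex e ∧ f'.1 = ex f ∧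
    MFI.IsIdx C (Matrix.of fun _ _ : Unit => e') (Matrix.of fun _ _ : Unit => f')
      (Matrix.of fun _ _ : Unit => f' * e') κ

/-- a closed self-adjoint algebra of operators -/
def IsCS {W : Type} [NormedAddCommGroup W] [InnerProductSpace ℝ W] [CompleteSpace W]
    (D : Subalgebra ℝ (W →L[ℝ] W)) : Prop :=
  IsClosed (D : Set (W →L[ℝ] W)) ∧ ∀ x ∈ D, star x ∈ D

end Lift

/-- `r` is an orthogonal representation as far as the elements of `F` are concerned -/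
def IsLoc {G : Type} [Group G] (F : Finset G) {W : Type} [NormedAddCommGroup W]
    [InnerProductSpace ℝ W] [CompleteSpace W] (r : G → W →L[ℝ] W) : Prop :=
  r 1 = 1 ∧ ∀ g ∈ F, r g * star (r g) = 1 ∧ ∀ h ∈ F, star (r g) * r h = r (g⁻¹ * h)

/-- the pairs `((D + w) ξ, ξ)` for the test sections `ξ` of the covering -/
def tests {G : Type} [Group G] {m N : ℕ} (x : CX.Sing G m) (S : CX.Spinor (m + 1) N)
    (μ : Measure x.X.M) : Set (V G (Lp (CX.Eu N) 2 μ) × V G (Lp (CX.Eu N) 2 μ)) :=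
  {q | ∃ (a i : ℕ) (g : G) (u : x.X.M → CX.Eu N), ContMDiff (𝓡 (m + 1)) 𝓘(ℝ, CX.Eu N) ∞ u ∧
    HasCompactSupport u ∧ tsupport u ⊆ x.X.U a ∩ {p | (x.f p).t i ≠ 0} ∧ ∀ γ,
      q.1 γ =ᵐ[μ] x.sec S a i g (fun p => x.X.dirac S a u p + S.gr (u p)) γ ∧
      q.2 γ =ᵐ[μ] x.sec S a i g u γ}

/-- the grading is a symmetric involution that anticommutes with vectors -/
def GrOK {n N : ℕ} (S : CX.Spinor n N) : Prop :=
  S.gr * S.gr = 1 ∧ star S.gr = S.gr ∧ ∀ v, S.gr * S.c (CliffordAlgebra.ι _ v) =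
    -(S.c (CliffordAlgebra.ι _ v) * S.gr)

end Pool.Agent.Lib.RQ
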