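import Pool.Agent.Lib.RQ.Blue

/-! Block FRED: existence of the index. -/

noncomputable section

open Set BCO
open scoped InnerProductSpace

namespace Pool.Agent.Lib.RQ

namespace FRED

section Ring

variable {L : Type} [Ring L] [Algebra ℝ L] {w R f : L}

theorem f_sq (h2 : w * w = 1) (hf : f = (1 / 2 : ℝ) • (1 - w)) : f * f = f := by
  have : (1 - w) * (1 - w) = (2 : ℝ) • (1 - w) := by
    rw [two_smul, sub_mul, mul_sub, mul_sub, h2, one_mul, one_mul, mul_one]; abel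
  rw [hf, smul_mul_smul_comm, this, smul_smul]
  norm_num

theorem f_anti (ha : w * R + R * w = 2 * (R * R)) (hf : f = (1 / 2 : ℝ) • (1 - w)) :
    f * R + R * f = R - R * R := by
  have : (1 - w) * R + R * (1 - w) = (2 : ℝ) • (R - R * R) := by
    rw [two_smul, sub_mul, mul_sub, one_mul, mul_one]
    have : w * R = R * R + R * R - R * w := by rw [← two_mul, ← ha]; abel
    rw [this]; abel
  rw [hf, smul_mul_assoc, mul_smul_comm, ← smul_add, this, smul_smul]
  norm_num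

omit [Algebra ℝ L] in
theorem alg (hf : f * f = f) (ha : f * R + R * f = R - R * R) :
    (f + R) * (f + R) = f + R ∧ f * (f + R) * f = f * (1 - R * R) ∧
      (f + R) * f * (f + R) = (1 - R * R) * (f + R) := by
  have a : R * R = R - (f * R + R * f) := by rw [ha]; abel
  have hf' : ∀ x, f * (f * x) = f * x := fun x => by rw [← mul_assoc, hf]
  have b : f * (R * R) = -(f * R * f) := by
    rw [a]; simp only [mul_sub, mul_add, hf', mul_assoc]; abel
  have b' : R * R * f = -(f * R * f) := by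
    rw [a]; simp only [sub_mul, add_mul, mul_assoc, hf]; abel
  have he : (f + R) * (f + R) = f + R := by
    rw [add_mul, mul_add, mul_add, hf, a]; abel
  refine ⟨he, ?_, ?_⟩
  · rw [mul_sub, b, mul_add, add_mul, hf, hf, mul_one]; abel
  · have c : R * f * R = R * R - R * R * R - R * R * f := by
      have : R * (f * R + R * f) = R * (R - R * R) := by rw [ha]
      rw [mul_add, mul_sub] at this
      simp only [mul_assoc]
      rw [← this]; abel
    have d : (f + R) * f * (f + R) = f + (f * R + R * f) + R * f * R := by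
      simp only [add_mul, mul_add, hf, mul_assoc]; abel
    rw [d, ha, c]
    simp only [sub_mul, mul_add, one_mul]; abel

end Ring

theorem param (hINV : St_INV) {W : Type} [NormedAddCommGroup W] [InnerProductSpace ℝ W]
    [CompleteSpace W] (D : Subalgebra ℝ (W →L[ℝ] W)) (hD : IsCS D) (K : Submodule ℝ (W →L[ℝ] W))
    (hK : ∀ X ∈ K, X ∈ D ∧ star X ∈ K ∧ ∀ Y ∈ D, X * Y ∈ K ∧ Y * X ∈ K) {w R χ f : W →L[ℝ] W}
    {c : ℝ} (hf : f = (1 / 2 : ℝ) • (1 - w)) (hfD : f ∈ D) (hR : R ∈ D) (hχ : χ * R ∈ K)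
    (h : Res w R) (hc : 0 < c)
    (hl : ∀ η, c * ‖R η‖ ^ 2 ≤ ‖η - w (R η)‖ ^ 2 + ‖χ (R η)‖ ^ 2) :
    f * f = f ∧ (f + R) * (f + R) = f + R ∧
      ∃ S ∈ D, S * (f * (f + R)) - (f + R) ∈ K ∧ f * (f + R) * S - f ∈ K := by
  have f2 := f_sq h.w_sq hf
  obtain ⟨e2, a1, a2⟩ := alg f2 (f_anti h.anti hf)
  refine ⟨f2, e2, ?_⟩
  have adj : ∀ (X : W →L[ℝ] W) (x y : W), ⟪star X x, y⟫_ℝ = ⟪x, X y⟫_ℝ := fun X x y =>
    ContinuousLinearMap.adjoint_inner_left X y x
  have sR : ∀ x y, ⟪R x, y⟫_ℝ = ⟪x, R y⟫_ℝ := fun x y => by rw [← adj R, h.sa]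
  have sw : ∀ x y, ⟪w x, y⟫_ℝ = ⟪x, w y⟫_ℝ := fun x y => by rw [← adj w, h.w_sa]
  have n1 : ∀ η, ‖η - w (R η)‖ ^ 2 = ‖η‖ ^ 2 - ‖R η‖ ^ 2 := by
    intro η
    have b1 : ‖w (R η)‖ ^ 2 = ‖R η‖ ^ 2 := by
      rw [← real_inner_self_eq_norm_sq, ← real_inner_self_eq_norm_sq, sw]
      congr 1
      exact congrArg (fun X : W →L[ℝ] W => X (R η)) h.w_sq
    have b2 : w (R η) + R (w η) = R (R η) + R (R η) := by
      have := congrArg (fun X : W →L[ℝ] W => X η) h.anti
      rw [two_mul] at this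
      exact this
    have b3 := congrArg (fun x => ⟪η, x⟫_ℝ) b2
    simp only [inner_add_right] at b3
    rw [← sR η (w η), ← sw (R η) η, ← sR η (R η), real_inner_self_eq_norm_sq,
      real_inner_comm η (w (R η))] at b3
    rw [norm_sub_sq_real, b1]
    linarith
  set θ : ℝ := 1 / (1 + c) with hθ
  have hθ0 : 0 < θ := by positivity
  have hθ1 : θ * (1 + c) = 1 := by rw [hθ]; field_simp
  set Q : W →L[ℝ] W := θ • (star (χ * R) * (χ * R)) with hQ
  have QK : Q ∈ K := K.smul_mem _ ((hK _ hχ).2.2 _ (hD.2 _ (hK _ hχ).1)).2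
  have YD : 1 - R * R + Q ∈ D := D.add_mem (D.sub_mem D.one_mem (D.mul_mem hR hR)) (hK _ QK).1
  have Ysa : star (1 - R * R + Q) = 1 - R * R + Q := by
    rw [star_add, star_sub, star_one, star_mul, h.sa, hQ, star_smul, star_mul, star_star,
      star_trivial]
  obtain ⟨Z, z1, z2⟩ := (hINV W D hD).2 _ Ysa (θ * c) (by positivity) fun η => by
    have b1 : (1 - R * R + Q) η = η - R (R η) + θ • star (χ * R) (χ (R η)) := rfl
    have b2 : ⟪χ (R η), (χ * R) η⟫_ℝ = ‖χ (R η)‖ ^ 2 := real_inner_self_eq_norm_sq _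
    rw [b1, inner_add_left, inner_sub_left, real_inner_smul_left, adj, b2, sR,
      real_inner_self_eq_norm_sq, real_inner_self_eq_norm_sq]
    have b3 := mul_le_mul_of_nonneg_left (hl η) hθ0.le
    rw [n1] at b3
    have b4 : ‖R η‖ ^ 2 = θ * (1 + c) * ‖R η‖ ^ 2 := by rw [hθ1, one_mul]
    have b5 : ‖η‖ ^ 2 = θ * (1 + c) * ‖η‖ ^ 2 := by rw [hθ1, one_mul]
    nlinarith
  have ZD : Z ∈ D := (hINV W D hD).1 _ YD Z z1 z2
  set e := f + R with he
  have eD : e ∈ D := D.add_mem hfD hR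
  have y1 : (1 - R * R) * Z = 1 - Q * Z := by rw [eq_sub_iff_add_eq, ← add_mul, z1]
  have y2 : Z * (1 - R * R) = 1 - Z * Q := by rw [eq_sub_iff_add_eq, ← mul_add, z2]
  have k1 : Z * e * f * (f * e) - e ∈ K := by
    have : Z * e * f * (f * e) - e = -(Z * Q * e) := by
      calc _ = Z * (e * (f * f) * e) - e := by simp only [mul_assoc]
        _ = _ := by rw [f2, a2, ← mul_assoc, y2, sub_mul, one_mul]; abel
    rw [this]
    exact K.neg_mem ((hK _ ((hK _ QK).2.2 _ ZD).2).2.2 _ eD).1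
  have k2 : f * e * (e * f * Z) - f ∈ K := by
    have : f * e * (e * f * Z) - f = -(f * (Q * Z)) := by
      calc _ = f * (e * e) * f * Z - f := by simp only [mul_assoc]
        _ = _ := by rw [e2, a1, mul_assoc, y1, mul_sub, mul_one]; abel
    rw [this]
    exact K.neg_mem ((hK _ ((hK _ QK).2.2 _ ZD).1).2.2 _ hfD).2
  have S1 : Z * e * f ∈ D := D.mul_mem (D.mul_mem ZD eD) hfD
  have S2 : e * f * Z ∈ D := D.mul_mem (D.mul_mem eD hfD) ZD
  refine ⟨Z * e * f, S1, k1, ?_⟩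
  have k3 : (Z * e * f * (f * e) - e) * (e * f * Z) - Z * e * f * (f * e * (e * f * Z) - f) ∈ K :=
    K.sub_mem ((hK _ k1).2.2 _ S2).1 ((hK _ k2).2.2 _ S1).2
  have k4 := K.add_mem ((hK _ k3).2.2 _ (D.mul_mem hfD eD)).2 k2
  have e2' : ∀ x, e * (e * x) = e * x := fun x => by rw [← mul_assoc, e2]
  convert k4 using 1
  simp only [sub_mul, mul_sub, mul_assoc, f2, e2']
  abel

variable {I E : Type} [NormedAddCommGroup E] [InnerProductSpace ℝ E]

theorem ex_mul (X Y : V I E →L[ℝ] V I E) : ex (X * Y) = ex X * ex Y :=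
  ContinuousLinearMap.ext fun _ => rfl

theorem ex_sub (X Y : V I E →L[ℝ] V I E) : ex (X - Y) = ex X - ex Y :=
  ContinuousLinearMap.ext fun ξ => map_sub (amp I (iE E)) _ _

end FRED

open FRED in
theorem stFRED (hINV : St_INV) (hDAK : St_DAK) (hCTX : St_CTX) : St_FRED := by
  intro I E _ _ _ B hB w R χ c hR hχ h hc hl
  obtain ⟨d1, d2, -, -, d5, -, -, -⟩ := hDAK I E E B hB
  obtain ⟨-, -, -, -, -, -, d7, -⟩ := hDAK I E (E1 E) B hB
  obtain ⟨d8, -⟩ := hDAK I (E1 E) (E1 E) B hB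
  obtain ⟨⟨C, hC⟩, hA⟩ := hCTX I E B hB
  have hf : amp I ((1 / 2 : ℝ) • (1 - w)) = (1 / 2 : ℝ) • (1 - amp I w) :=
    ContinuousLinearMap.ext fun _ => lp.ext (funext fun _ => rfl)
  obtain ⟨f2, e2, S, hS, k1, k2⟩ := param hINV (DA E B) d1 (KA E B) d5 hf (d2 _) hR hχ h hc hl
  set f := amp I ((1 / 2 : ℝ) • (1 - w)) with hf'
  have fD : f ∈ DA E B := d2 _
  let e' : DA (E1 E) B := ⟨ex (f + R), (d7 _ _ _).1 ((DA E B).add_mem fD hR)⟩
  let f' : DA (E1 E) B := ⟨ex f, (d7 _ _ _).1 fD⟩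
  let S' : DA (E1 E) B := ⟨ex S, (d7 _ _ _).1 hS⟩
  have a1 : e' * e' = e' := Subtype.ext ((ex_mul _ _).symm.trans (congrArg ex e2))
  have a2 : f' * f' = f' := Subtype.ext ((ex_mul _ _).symm.trans (congrArg ex f2))
  have mm : ∀ x y : DA (E1 E) B, (Matrix.of fun _ _ : Unit => x) * (Matrix.of fun _ _ : Unit => y) =
      Matrix.of fun _ _ : Unit => x * y := fun x y => by
    ext i j : 1
    simp [Matrix.mul_apply]
  haveI : CompleteSpace (DA (E1 E) B) := d8.1.completeSpace_coe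
  obtain ⟨κ, hκ⟩ := MFI.Approx.exists_idx (L := DA (E1 E) B) (hA C hC)
    (e := Matrix.of fun _ _ : Unit => e') (f := Matrix.of fun _ _ : Unit => f')
    (T := Matrix.of fun _ _ : Unit => f' * e') (by rw [mm, a1]) (by rw [mm, a2])
    (by rw [mm, mul_assoc, a1]) (by rw [mm, ← mul_assoc, a2])
    ⟨Matrix.of fun _ _ : Unit => S', fun i j => by
      rw [mm]
      refine (hC.2 _).2 ?_
      have := (d7 (iE E) (pE E) _).2 k1
      rw [← ex, ex_sub, ex_mul, ex_mul] at this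
      exact this, fun i j => by
      rw [mm]
      refine (hC.2 _).2 ?_
      have := (d7 (iE E) (pE E) _).2 k2
      rw [← ex, ex_sub, ex_mul, ex_mul] at this
      exact this⟩
  exact ⟨κ, C, e', f', hC, rfl, rfl, hκ⟩

end Pool.Agent.Lib.RQ
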