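import Pool.Agent.Lib.RQ.Blue

/-! The graph projection on test sections. -/

noncomputable section

open Set MeasureTheory BCO CliffordAlgebra Filter Topology
open scoped InnerProductSpace Manifold ContDiff

namespace Pool.Agent.Lib.RQ

open CX

namespace GRAPH

variable {n N : ℕ} {S : Spinor n N}

theorem gr_gr (h : GrOK S) (v : Eu N) : S.gr (S.gr v) = v := DFunLike.congr_fun h.1 v

theorem gr_c (h : GrOK S) (x : Cl n) : S.gr * S.c x = S.c (involute x) * S.gr := by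
  induction x using CliffordAlgebra.induction with
  | algebraMap r => rw [AlgHom.commutes involute, AlgHom.commutes, Algebra.commutes]
  | ι v => rw [h.2.2, involute_ι, map_neg]; ext1 w; rfl
  | mul a b ha hb => rw [map_mul, map_mul, map_mul, ← mul_assoc, ha, mul_assoc, hb, mul_assoc]
  | add a b ha hb => rw [map_add, map_add, map_add, mul_add, add_mul, ha, hb]

theorem gr_c' (h : GrOK S) (x : Cl n) (v : Eu N) : S.gr (S.c x v) = S.c (involute x) (S.gr v) :=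
  DFunLike.congr_fun (gr_c h x) v

variable (X : SM n)

theorem dd_clm (T : Eu N →L[ℝ] Eu N) (a : ℕ) (i : Fin n) {u : X.M → Eu N} {p : X.M}
    (hu : MDifferentiableAt (𝓡 n) 𝓘(ℝ, Eu N) u p) :
    X.dd a i (fun p => T (u p)) p = T (X.dd a i u p) :=
  DFunLike.congr_fun (T.hasMFDerivAt.comp p hu.hasMFDerivAt).mfderiv _

theorem dirac_gr (h : GrOK S) (a : ℕ) {u : X.M → Eu N} {p : X.M}
    (hu : MDifferentiableAt (𝓡 n) 𝓘(ℝ, Eu N) u p) :
    X.dirac S a (fun p => S.gr (u p)) p = -S.gr (X.dirac S a u p) := by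
  simp only [SM.dirac, dd_clm X S.gr a _ hu, map_sum, gr_c' h, involute_ι, map_neg, map_add,
    map_smul, map_mul involute, neg_mul_neg, _root_.neg_apply,
    Finset.sum_add_distrib, Finset.sum_neg_distrib, smul_neg, neg_add, neg_neg]

theorem dirac_half (a : ℕ) {u : X.M → Eu N} {p : X.M}
    (hu : MDifferentiableAt (𝓡 n) 𝓘(ℝ, Eu N) u p) :
    X.dirac S a (fun p => (1 / 2 : ℝ) • (u p + S.gr (u p))) p =
      (1 / 2 : ℝ) • (X.dirac S a u p + X.dirac S a (fun p => S.gr (u p)) p) := by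
  have h1 := fun i => dd_clm X ((1 / 2 : ℝ) • (1 + S.gr)) a i hu
  simp only [_root_.smul_apply, _root_.add_apply, one_apply_eq_self] at h1
  simp only [SM.dirac, h1]
  simp only [dd_clm X S.gr a _ hu, map_add, map_smul, smul_add,
    Finset.sum_add_distrib, Finset.smul_sum, map_sum, smul_smul]
  simp only [mul_comm, mul_left_comm]
  abel

theorem dirac_zero (a : ℕ) {u : X.M → Eu N} {p : X.M} (hp : p ∉ tsupport u) :
    X.dirac S a u p = 0 := by
  have h1 := notMem_tsupport_iff_eventuallyEq.1 hp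
  have h2 : ∀ i, X.dd a i u p = 0 := fun i => by
    rw [SM.dd, h1.mfderiv_eq]
    exact DFunLike.congr_fun (mfderiv_const (c := (0 : Eu N))) _
  simp [SM.dirac, h2, show u p = 0 from h1.eq_of_nhds]

theorem tsupp_gr {M : Type} [TopologicalSpace M] (u : M → Eu N) :
    tsupport (fun p => S.gr (u p)) ⊆ tsupport u :=
  closure_mono fun p hp h => hp (by simp [h])

variable {G : Type} [Group G] {m : ℕ} (x : Sing G m) {S : Spinor (m + 1) N}

theorem point (h : GrOK S) (a i : ℕ) (g : G) {ψ : x.X.M → Eu N}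
    (h1 : ContMDiff (𝓡 (m + 1)) 𝓘(ℝ, Eu N) ∞ ψ) (h2 : tsupport ψ ⊆ x.X.U a) (γ : G) (p : x.X.M) :
    (1 / 2 : ℝ) • (x.sec S a i g (ψ + x.X.dirac S a fun p => S.gr (ψ p)) γ p -
      S.gr (x.sec S a i g (ψ + x.X.dirac S a fun p => S.gr (ψ p)) γ p)) +
      x.sec S a i g (fun p => S.gr (ψ p)) γ p =
    x.sec S a i g ((fun p => (1 / 2 : ℝ) • (ψ p + S.gr (ψ p))) +
      x.X.dirac S a fun p => (1 / 2 : ℝ) • (ψ p + S.gr (ψ p))) γ p := by
  have h3 := h1.mdifferentiableAt (x := p) (by simp)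
  simp only [Sing.sec]
  split_ifs
  · simp only [Pi.add_apply, dirac_half x.X a h3, dirac_gr x.X h a h3]
    by_cases hp : p ∈ tsupport ψ
    · rw [gr_c' h, spinGroup.involute_eq
        (x.X.spin (x.X.fr p) a p ⟨Nat.sInf_mem (x.X.cover p), h2 hp⟩).1]
      simp only [map_add, map_neg, map_smul, gr_gr h]
      module
    · simp [dirac_zero x.X a hp, image_eq_zero_of_notMem_tsupport hp]
  · simp

theorem key (h : GrOK S) (μ : Measure x.X.M) (a i : ℕ) (g : G) {ψ : x.X.M → Eu N}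
    (h1 : ContMDiff (𝓡 (m + 1)) 𝓘(ℝ, Eu N) ∞ ψ) (h2 : tsupport ψ ⊆ x.X.U a)
    {ξ ζ : V G (Lp (Eu N) 2 μ)} (γ : G)
    (hξ : ξ γ =ᵐ[μ] x.sec S a i g (ψ + x.X.dirac S a fun p => S.gr (ψ p)) γ)
    (hζ : ζ γ =ᵐ[μ] x.sec S a i g (fun p => S.gr (ψ p)) γ) :
    (amp G ((1 / 2 : ℝ) • (1 - S.gr.compLpL 2 μ)) ξ + ζ : V G (Lp (Eu N) 2 μ)) γ =ᵐ[μ]
      x.sec S a i g ((fun p => (1 / 2 : ℝ) • (ψ p + S.gr (ψ p))) +
        x.X.dirac S a fun p => (1 / 2 : ℝ) • (ψ p + S.gr (ψ p))) γ := by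
  have h3 : (amp G ((1 / 2 : ℝ) • (1 - S.gr.compLpL 2 μ)) ξ + ζ : V G (Lp (Eu N) 2 μ)) γ =
      (1 / 2 : ℝ) • (ξ γ - S.gr.compLpL 2 μ (ξ γ)) + ζ γ := rfl
  rw [h3]
  filter_upwards [Lp.coeFn_add ((1 / 2 : ℝ) • (ξ γ - S.gr.compLpL 2 μ (ξ γ))) (ζ γ),
    Lp.coeFn_smul (1 / 2 : ℝ) (ξ γ - S.gr.compLpL 2 μ (ξ γ)),
    Lp.coeFn_sub (ξ γ) (S.gr.compLpL 2 μ (ξ γ)), S.gr.coeFn_compLpL (ξ γ), hξ, hζ] with
    p e1 e2 e3 e4 e5 e6
  rw [e1, Pi.add_apply, e2, Pi.smul_apply, e3, Pi.sub_apply, e4, e5, e6, point x h a i g h1 h2]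

end GRAPH

open GRAPH in
theorem stGRAPH : St_GRAPH := by
  intro G _ m N x S h μ hT e
  constructor
  · rintro he q ⟨a, i, g, u, h1, h2, h3, h4⟩
    have h5 : ContMDiff (𝓡 (m + 1)) 𝓘(ℝ, Eu N) ∞ fun p => S.gr (u p) := S.gr.contMDiff.comp h1
    have h6 := (tsupp_gr (S := S) u).trans h3
    obtain ⟨ξ, η, h7, h8⟩ := he a i g _ h5 (h2.mono' (subset_tsupport _ |>.trans (tsupp_gr u))) h6
    have h9 : ∀ γ, q.1 γ =ᵐ[μ] x.sec S a i g ((fun p => S.gr (u p)) +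
        x.X.dirac S a fun p => S.gr (S.gr (u p))) γ := fun γ => (h4 γ).1.trans (by
      simp only [gr_gr h]
      exact EventuallyEq.of_eq (congrArg (fun φ => x.sec S a i g φ γ)
        (funext fun p => add_comm _ _)))
    obtain rfl : ξ = q.1 := lp.ext (funext fun γ => Lp.ext ((h8 γ).1.trans (h9 γ).symm))
    rw [h7]
    exact lp.ext (funext fun γ => Lp.ext ((h8 γ).2.trans (key x h μ a i g h5
      (h6.trans inter_subset_left) γ (h9 γ) (by simpa only [gr_gr h] using (h4 γ).2)).symm))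
  · intro he a i g ψ h1 h2 h3
    have h5 : ContMDiff (𝓡 (m + 1)) 𝓘(ℝ, Eu N) ∞ fun p => S.gr (ψ p) := S.gr.contMDiff.comp h1
    have h6 := (tsupp_gr (S := S) ψ).trans h3
    have h7 : HasCompactSupport fun p => S.gr (ψ p) :=
      h2.mono' (subset_tsupport _ |>.trans (tsupp_gr ψ))
    obtain ⟨ξ, η, h8⟩ := hT a i g _ h5 h7 h6
    have h9 : ∀ γ, η γ =ᵐ[μ] x.sec S a i g (ψ + x.X.dirac S a fun p => S.gr (ψ p)) γ :=
      fun γ => (h8 γ).1.trans (by
        simp only [gr_gr h]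
        exact EventuallyEq.of_eq (congrArg (fun φ => x.sec S a i g φ γ)
          (funext fun p => add_comm _ _)))
    exact ⟨η, _, he (η, ξ) ⟨a, i, g, _, h5, h7, h6, h8⟩, fun γ => ⟨h9 γ,
      key x h μ a i g h1 (h3.trans inter_subset_left) γ (h9 γ) (h8 γ).2⟩⟩

end Pool.Agent.Lib.RQ
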