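import Pool.Agent.Lib.RQ.Blue

/-! Route Q: the final assembly. -/

noncomputable section

open Set MeasureTheory BCO ContinuousLinearMap
open scoped InnerProductSpace Manifold ContDiff

namespace Pool.Agent.Lib.RQ

theorem compLpL_half {α S : Type} [MeasurableSpace α] (μ : Measure α) [NormedAddCommGroup S]
    [NormedSpace ℝ S] (w : S →L[ℝ] S) :
    ((1 / 2 : ℝ) • (1 - w)).compLpL 2 μ = (1 / 2 : ℝ) • (1 - w.compLpL 2 μ) := by
  ext1 f
  refine Lp.ext ?_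
  filter_upwards [((1 / 2 : ℝ) • (1 - w)).coeFn_compLpL f, w.coeFn_compLpL f,
    Lp.coeFn_smul (1 / 2 : ℝ) (f - w.compLpL 2 μ f), Lp.coeFn_sub f (w.compLpL 2 μ f)]
    with y h1 h2 h3 h4
  change _ = (((1 / 2 : ℝ) • (f - w.compLpL 2 μ f) : Lp S 2 μ) : α → S) y
  rw [h1, h3, Pi.smul_apply, h4, Pi.sub_apply, h2]
  rfl

theorem half_idem {L : Type} [Ring L] [Algebra ℝ L] {w : L} (h : w * w = 1) :
    ((1 / 2 : ℝ) • (1 - w)) * ((1 / 2 : ℝ) • (1 - w)) = (1 / 2 : ℝ) • (1 - w) := by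
  rw [smul_mul_smul_comm, mul_sub, sub_mul, sub_mul, h]
  simp only [mul_one, one_mul]
  module

theorem graph_idem {L : Type} [Ring L] [Algebra ℝ L] {w R : L} (h : w * w = 1)
    (h' : w * R + R * w = 2 * (R * R)) :
    ((1 / 2 : ℝ) • (1 - w) + R) * ((1 / 2 : ℝ) • (1 - w) + R) = (1 / 2 : ℝ) • (1 - w) + R := by
  have h2 : R * R = (1 / 2 : ℝ) • (w * R + R * w) := by
    rw [h', two_mul]; module
  rw [add_mul, mul_add, mul_add, half_idem h, h2, smul_mul_assoc, mul_smul_comm, sub_mul, mul_sub]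
  simp only [mul_one, one_mul]
  module

theorem Adm.mono {G : Type} [Group G] {F F' : Finset G} {I : Type}
    {B : Subalgebra ℝ (V I ℝ →L[ℝ] V I ℝ)} {r j} {Φ : B →+* CX.Cr G} (h : Adm F' B r j Φ)
    (hF : F ⊆ F') : Adm F B r j Φ :=
  ⟨h.cs, fun g hg => h.mem g (hF hg),
    ⟨h.loc.1, fun g hg => ⟨(h.loc.2 g (hF hg)).1, fun k hk => (h.loc.2 g (hF hg)).2 k (hF hk)⟩⟩,
    fun g hg => h.reg g (hF hg), h.cp⟩

theorem abs_key {G E : Type} [Group G] [NormedAddCommGroup E] [InnerProductSpace ℝ E]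
    [CompleteSpace E] (w : E →L[ℝ] E) (𝒯 : Set (V G E × V G E)) (R : V G E →L[ℝ] V G E)
    (hR : R ∈ RA G E) (hres : Res (amp G w) R) (ht : ∀ q ∈ 𝒯, R q.1 = q.2)
    (hd : ∀ η, (η, R η) ∈ (Submodule.span ℝ 𝒯).topologicalClosure)
    (e : V G E →L[ℝ] V G E) (he : e = amp G ((1 / 2 : ℝ) • (1 - w)) + R) :
    e ∈ RA G E ∧ e * e = e ∧ ∀ e' : V G E →L[ℝ] V G E,
      (∀ q ∈ 𝒯, e' q.1 = amp G ((1 / 2 : ℝ) • (1 - w)) q.1 + q.2) ↔ e' = e := by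
  have hF : amp G ((1 / 2 : ℝ) • (1 - w)) = (1 / 2 : ℝ) • (1 - amp G w) := by
    rw [← ampA_apply, map_smul, map_sub, map_one, ampA_apply]
  refine ⟨he ▸ add_mem (amp_mem _) hR, ?_, fun e' => ⟨fun h1 => ?_, ?_⟩⟩
  · rw [he, hF]; exact graph_idem hres.w_sq hres.anti
  · let φ : V G E × V G E →L[ℝ] V G E :=
      (e' - amp G ((1 / 2 : ℝ) • (1 - w))) ∘L .fst ℝ _ _ - .snd ℝ _ _
    have h2 : (Submodule.span ℝ 𝒯).topologicalClosure ≤ LinearMap.ker φ.toLinearMap :=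
      Submodule.topologicalClosure_minimal _ (Submodule.span_le.2 fun q hq => by
        change e' q.1 - amp G ((1 / 2 : ℝ) • (1 - w)) q.1 - q.2 = 0
        rw [h1 q hq]; abel) φ.isClosed_ker
    ext1 η
    have h3 : e' η - amp G ((1 / 2 : ℝ) • (1 - w)) η - R η = 0 := h2 (hd η)
    rw [he, add_apply, ← sub_eq_zero, ← h3]; abel
  · rintro rfl q hq
    rw [he, add_apply, ht q hq]

theorem half_star {E : Type} [NormedAddCommGroup E] [InnerProductSpace ℝ E]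
    [CompleteSpace E] {w : E →L[ℝ] E} (h : star w = w) :
    star ((1 / 2 : ℝ) • (1 - w)) = (1 / 2 : ℝ) • (1 - w) := by
  rw [star_smul, star_sub, star_one, h, star_trivial]

theorem key (hALG : St_ALG) (hANA : St_ANA) (hGR : St_GRAPH) (hVOL : St_VOL) (hUNI : St_UNI)
    {G : Type} [Group G] {m N : ℕ} (x : CX.Sing G m) (S : CX.Spinor (m + 1) N) (hS : GrOK S)
    (hx : ∀ y, 0 < x.N.scal y) : (∃! z, x.IsIndex S z) ∧ ∃ F : Finset G,
      ∀ (I : Type) (B : Subalgebra ℝ (V I ℝ →L[ℝ] V I ℝ)) r j (Φ : B →+* CX.Cr G),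
        Adm F B r j Φ → ∃ κ, x.IsIndex S (BCH.K0.map (Φ : B →ₙ+* CX.Cr G) κ) := by
  obtain ⟨μ, hμ, hu⟩ := hVOL G m x
  obtain ⟨hT, k, P, hw, hc, hP⟩ := hANA G m N x S hS hx μ hμ
  obtain ⟨R, hR, hres, ht, hd, ⟨z, hz⟩, hl⟩ := hALG G _ _ _ P _ hc hP
  obtain ⟨hem, hee, h3⟩ := abs_key P.w _ R hR hres ht hd _ rfl
  have h4 := half_idem P.res.w_sq
  have h5 := half_star P.res.w_sa
  have hG := hGR G m N x S hS μ hT
  generalize amp G ((1 / 2 : ℝ) • (1 - P.w)) + R = e at hz hl hem hee h3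
  rw [hw] at hz hl h3 h4 h5
  have hI : ∀ z, x.IsIndex S z ↔
      CX.IsInd e (amp G ((1 / 2 : ℝ) • (1 - S.gr.compLpL 2 μ))) z := fun z => by
    constructor
    · rintro ⟨μ', hμ', e', -, h2, h6⟩
      obtain rfl := hu μ' hμ'
      rw [(h3 e').1 ((hG e').1 h2), compLpL_half] at h6
      exact h6
    · intro h
      refine ⟨μ, hμ, e, hem, (hG e).2 ((h3 e).2 rfl), ?_⟩
      rw [compLpL_half]
      exact h
  refine ⟨⟨z, (hI z).2 hz, fun z' h' => ?_⟩, P.F, fun I B r j Φ h => ?_⟩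
  · exact hUNI G _ _ e h4 h5 hem hee _ _ ((hI z').1 h') hz
  · obtain ⟨κ, hκ⟩ := hl I B r j Φ h
    exact ⟨κ, (hI _).2 hκ⟩

theorem goal_of (hALG : St_ALG) (hANA : St_ANA) (hGR : St_GRAPH) (hVOL : St_VOL) (hUNI : St_UNI)
    (hCLF : St_CLF) (hMX : St_MXL) : St_GOAL := by
  classical
  refine ⟨fun G _ k N S x hx => (key hALG hANA hGR hVOL hUNI x S (hCLF k N S) hx).1, ?_⟩
  obtain ⟨G, _, hfg, z, hz⟩ := hMX
  refine ⟨G, inferInstance, hfg, z, fun hmem => ?_⟩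
  have : ∃ F : Finset G, ∀ (I : Type) (B : Subalgebra ℝ (V I ℝ →L[ℝ] V I ℝ)) r j
      (Φ : B →+* CX.Cr G), Adm F B r j Φ → ∃ κ, BCH.K0.map (Φ : B →ₙ+* CX.Cr G) κ = z := by
    clear hz
    induction hmem using AddSubgroup.closure_induction with
    | mem w hw =>
      obtain ⟨k, N, S, x, hx, hw⟩ := hw
      obtain ⟨h1, F, h2⟩ := key hALG hANA hGR hVOL hUNI x S (hCLF k N S) hx
      refine ⟨F, fun I B r j Φ h => ?_⟩
      obtain ⟨κ, hκ⟩ := h2 I B r j Φ h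
      exact ⟨κ, h1.unique hκ hw⟩
    | zero => exact ⟨∅, fun _ _ _ _ _ _ => ⟨0, map_zero _⟩⟩
    | add a b _ _ ha hb =>
      obtain ⟨F, ha⟩ := ha
      obtain ⟨F', hb⟩ := hb
      refine ⟨F ∪ F', fun I B r j Φ h => ?_⟩
      obtain ⟨κ, rfl⟩ := ha I B r j Φ (h.mono Finset.subset_union_left)
      obtain ⟨κ', rfl⟩ := hb I B r j Φ (h.mono Finset.subset_union_right)
      exact ⟨κ + κ', map_add _ _ _⟩
    | neg a _ ha =>
      obtain ⟨F, ha⟩ := ha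
      refine ⟨F, fun I B r j Φ h => ?_⟩
      obtain ⟨κ, rfl⟩ := ha I B r j Φ h
      exact ⟨-κ, map_neg _ _⟩
  obtain ⟨F, hF⟩ := this
  obtain ⟨I, B, r, j, Φ, h1, h2⟩ := hz F
  obtain ⟨κ, hκ⟩ := hF I B r j Φ h1
  exact h2 κ hκ

end Pool.Agent.Lib.RQ
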