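import Pool.Agent.Lib.RQ.Blue
import Pool.Agent.Lib.TP.Basic

/-! Block LIFT. -/

noncomputable section

open BCO ContinuousLinearMap

namespace Pool.Agent.Lib.RQ

theorem lift_eq_ampl {I J : Type} (E : Type) [NormedAddCommGroup E] [InnerProductSpace ℝ E]
    [CompleteSpace E] (a : V I ℝ →L[ℝ] V J ℝ) : lift E a = TP.ampl E a :=
  (TP.ampl_unique (Classical.epsilon_spec (p := IsLift E a) ⟨TP.ampl E a, TP.ev_ampl a⟩)).symm

theorem stLIFT : St_LIFT := by
  intro I J K E F _ _ _ _ _ _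
  simp only [lift_eq_ampl]
  refine ⟨fun a => ⟨TP.ev_ampl a, TP.norm_ampl_le a, fun T h => (TP.ampl_unique h).symm,
    TP.adjoint_ampl a, TP.ampl_real a, fun s v => TP.ampl_tens a v s,
    fun T => (TP.amp_comp_ampl T a).symm, TP.ampl_add a, fun c => TP.ampl_smul c a,
    fun b => TP.ampl_comp b a⟩, TP.ampl_one, TP.adjoint_amp, fun g => TP.ampl_lam g⟩

end Pool.Agent.Lib.RQ
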