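import Pool.Agent.Lib.RQ.MISHa

/-! Block MISH: twisting by a local representation. -/

set_option linter.unusedSectionVars false

noncomputable section

open scoped InnerProductSpace
open ContinuousLinearMap

namespace Pool.Agent.Lib.RQ.M91

open ALG91

variable {W : Type} [NormedAddCommGroup W] [InnerProductSpace ℝ W] [CompleteSpace W]
  {A : Type} [Fintype A] {G : Type} [Group G] {n : ℕ} (P : Pack G W n A) (r : G → W →L[ℝ] W)

/-- the isometry onto the range of the projection -/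
def JJ : W →L[ℝ] HP W A := col fun a => P.ph a * star (P.T r a)

/-- its adjoint -/
def JA : HP W A →L[ℝ] W := row fun a => P.T r a * P.ph a

/-- the projection -/
def pp : HP W A →L[ℝ] HP W A := mat fun a b => P.ph a * P.ph b * (star (P.T r a) * P.T r b)

/-- the derivative of the projection -/
def dp (j : Fin n) : HP W A →L[ℝ] HP W A :=
  mat fun a b => (P.dph a j * P.ph b + P.ph a * P.dph b j) * (star (P.T r a) * P.T r b)

/-- the commutator with the Dirac operator -/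
def CC : HP W A →L[ℝ] HP W A := mat fun a b =>
  ∑ j, P.gam j * ((P.dph a j * P.ph b + P.ph a * P.dph b j) * (star (P.T r a) * P.T r b))

variable {P r}

theorem adjoint_JJ : adjoint (JJ P r) = JA P r :=
  ((eq_adjoint_iff _ _).2 fun x y => by
    rw [real_inner_comm, real_inner_comm (JJ P r y), JJ, inner_col, JA]
    simp only [star_mul, star_star, P.mul_sa _ (P.ph_mem _)]).symm

variable (hr : IsLoc P.F r)
  (hc : ∀ g ∈ P.F, ∀ x ∈ P.ops, r g * x = x * r g ∧ star (r g) * x = x * star (r g))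
include hc

theorem pp_eq : pp P r = JJ P r ∘L JA P r := by
  rw [JJ, JA, col_row, pp]
  congr 1
  ext1 a
  ext1 b
  rw [mul_assoc, mul_assoc, ← mul_assoc (star _),
    ((T_mul hc (P.ph_mem b) a).2.mul_left (T_mul hc (P.ph_mem b) b).1).eq]

theorem dg_JJ {x : W →L[ℝ] W} (hx : x ∈ P.ops) (h : ∀ y ∈ P.mul, y * x = x * y) :
    dg x ∘L JJ P r = JJ P r ∘L x ∧ JA P r ∘L dg x = x ∘L JA P r := by
  refine ⟨hp_ext fun ξ a => ?_, ContinuousLinearMap.ext fun ξ => ?_⟩
  · exact congrArg (fun T : W →L[ℝ] W => T ξ)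
      (Commute.mul_left (h _ (P.ph_mem a)) (T_comm hc hx h a).2).eq.symm
  · simp only [JA, comp_apply, row_apply, map_sum]
    exact Finset.sum_congr rfl fun a _ => congrArg (fun T : W →L[ℝ] W => T (ξ a))
      (Commute.mul_left (T_comm hc hx h a).1 (h _ (P.ph_mem a))).eq

include hr

theorem JA_JJ : JA P r ∘L JJ P r = 1 := by
  rw [JJ, JA, row_col, ← P.ph_sq]
  exact Finset.sum_congr rfl fun a _ => by
    rw [← T_ph hr hc (P.ph_mem a) a]
    simp only [mul_assoc]

theorem dp_JJ (j : Fin n) : dp P r j ∘L JJ P r = col fun a => P.dph a j * star (P.T r a) := by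
  rw [dp, JJ, mat_col]
  congr 1
  ext1 a
  have k : ∀ b, (P.dph a j * P.ph b + P.ph a * P.dph b j) * (star (P.T r a) * P.T r b) *
      (P.ph b * star (P.T r b)) = P.dph a j * star (P.T r a) * (P.ph b * P.ph b) +
        P.ph a * star (P.T r a) * (P.ph b * P.dph b j) := fun b => by
    rw [← T_ph hr hc (P.ph_mem b) b, ← T_ph hr hc (P.dph_mem b j) b,
      P.mul_comm _ (P.ph_mem b) _ (P.dph_mem b j), add_mul, add_mul, mul_assoc (P.dph a j),
      mul_assoc (P.ph a),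
      ← ((T_mul hc (P.ph_mem b) a).2.mul_left (T_mul hc (P.ph_mem b) b).1).eq,
      ← ((T_mul hc (P.dph_mem b j) a).2.mul_left (T_mul hc (P.dph_mem b j) b).1).eq]
    simp only [mul_assoc]
  simp only [k]
  rw [Finset.sum_add_distrib, ← Finset.mul_sum, ← Finset.mul_sum, P.ph_sq, P.ph_dph, mul_one,
    mul_zero, add_zero]

omit hr hc in
theorem CC_eq : CC P r = ∑ j, dg (P.gam j) * dp P r j := hp_ext fun x a => by
  simp only [CC, dp, mat_apply, _root_.sum_apply, WithLp.ofLp_sum, Finset.sum_apply, dg_mat]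
  exact Finset.sum_comm

theorem CC_JJ (ξ : W) (a : A) : CC P r (JJ P r ξ) a = P.C a (star (P.T r a) ξ) := by
  simp only [CC_eq, Pack.C, _root_.sum_apply, WithLp.ofLp_sum, Finset.sum_apply, mul_apply_eq_comp,
    dg_apply]
  exact Finset.sum_congr rfl fun j _ => congrArg (fun T : W →L[ℝ] HP W A => P.gam j (T ξ a))
    (dp_JJ hr hc j)

theorem tw : Tw (dg P.R) (dg P.w) (pp P r) (CC P r) where
  R_sa := by rw [star_dg, P.res.sa]
  R_inj x y h := PiLp.ext fun a => P.inj (congrArg (fun z : HP W A => z a) h)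
  w_sa := by rw [star_dg, P.res.w_sa]
  ww := by rw [dg_mul, P.res.w_sq]; rfl
  wR := by rw [dg_mul, dg_mul, dg_mul, dg_add, dg_add, P.res.anti, two_mul]
  P_sa := by
    rw [pp_eq hc, star_eq_adjoint, adjoint_comp, ← adjoint_JJ, adjoint_adjoint]
  PP := by
    rw [pp_eq hc, mul_def, comp_assoc, ← comp_assoc (JA P r), JA_JJ hr hc, one_def, id_comp]
  Pw := by
    obtain ⟨h1, h2⟩ := dg_JJ hc w_ops P.mul_w
    rw [pp_eq hc, mul_def, mul_def, comp_assoc, h2, ← comp_assoc (dg _), h1]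
    rfl
  PR := by
    rw [pp, CC, mat_dg, dg_mat, dg_mat, mat_dg, mat_sub]
    exact congrArg mat (funext₂ fun a b => (comm_sum hr hc a b).1)

theorem N_pp (j : Fin n) : dg (P.N j) * (pp P r + CC P r * dg P.R) =
    pp P r * dg (P.N j) + dp P r j * dg P.R := by
  rw [pp, CC, dp, mat_dg, mat_dg, mat_dg, mat_add, mat_add, dg_mat]
  exact congrArg mat (funext₂ fun a b => (comm_sum hr hc a b).2 j)

theorem flat_pp (u : HP W A) (hu : pp P r u = u) : ‖CC P r u‖ ^ 2 ≤ ∑ j, ‖dp P r j u‖ ^ 2 := by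
  rw [← hu, pp_eq hc, comp_apply]
  simp only [PiLp.norm_sq_eq_of_L2, CC_JJ hr hc, ← comp_apply (dp P r _), dp_JJ hr hc]
  rw [Finset.sum_comm]
  exact (Finset.sum_congr rfl fun a _ => flat P.gam_skew P.gam_cl
    (fun j k => (P.mul_gam _ (P.dph_mem a k) j).symm) (fun j k => by
      rw [P.mul_sa _ (P.dph_mem a j), P.mul_sa _ (P.dph_mem a k),
        P.mul_comm _ (P.dph_mem a j) _ (P.dph_mem a k)]) _).le

omit hr hc in
theorem lich_dg (η : HP W A) : ∑ j, ‖dg (P.N j) η‖ ^ 2 + P.kap * ‖dg P.R η‖ ^ 2 ≤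
    ‖η - dg P.w (dg P.R η)‖ ^ 2 + ‖dg P.chi (dg P.R η)‖ ^ 2 := by
  simp only [PiLp.norm_sq_eq_of_L2]
  rw [Finset.sum_comm, Finset.mul_sum, ← Finset.sum_add_distrib, ← Finset.sum_add_distrib]
  exact Finset.sum_le_sum fun a _ => P.lich (η a)

theorem good {a : A} {s' s : W} (h : P.Good a s' s) :
    dg P.R (JJ P r (P.T r a s') + CC P r (JJ P r (P.T r a s))) = JJ P r (P.T r a s) := by
  refine PiLp.ext fun b => ?_
  have hτ : ∀ {x}, x ∈ P.ops → (∀ y ∈ P.mul, y * x = x * y) →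
      Commute (star (P.T r b) * P.T r a) x := fun hx h =>
    (T_comm hc hx h b).2.mul_left (T_comm hc hx h a).1
  have hm : ∀ {x}, x ∈ P.mul → Commute (star (P.T r b) * P.T r a) x := fun hx =>
    hτ (mul_ops hx) fun _ hy => P.mul_comm _ hy _ hx
  have h1 : ∀ s, JJ P r (P.T r a s) b = (star (P.T r b) * P.T r a) (P.ph b s) := fun s =>
    congrArg (fun T : W →L[ℝ] W => T s) (hm (P.ph_mem b)).eq.symm
  have h2 : P.C b (star (P.T r b) (P.T r a s)) = (star (P.T r b) * P.T r a) (P.C b s) :=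
    congrArg (fun T : W →L[ℝ] W => T s) (Commute.sum_right _ _ _ fun j _ =>
      (hτ (gam_ops j) fun y hy => P.mul_gam y hy j).mul_right (hm (P.dph_mem b j))).eq.symm
  have h3 : ∀ g ∈ F2 P, P.E2 b a g * r g = r g * P.E2 b a g := fun g hg =>
    (Commute.sum_right _ _ _ fun k _ => (r_comm hr hc hg (mul_ops (P.E_mem b k))).mul_right
      (r_comm hr hc hg (mul_ops (P.E_mem a _)))).eq.symm
  rw [dg_apply, PiLp.add_apply, CC_JJ hr hc, h1, h1, h2, ← map_add, star_T_T hr hc,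
    Finset.sum_congr rfl h3, _root_.sum_apply, _root_.sum_apply, map_sum]
  refine Finset.sum_congr rfl fun g hg => ?_
  rw [mul_apply_eq_comp, mul_apply_eq_comp, ← h b g, ← mul_apply_eq_comp P.R,
    ← (r_comm hr hc hg R_ops).eq]
  rfl

end M91

open M91 ALG91 in
theorem stMISH : St_MISH := by
  classical
  intro G _ W _ _ _ n A _ P r D hD hops hrD hr hc
  have hm : ∀ {x}, x ∈ P.mul → x ∈ D := fun h => hops (mul_ops h)
  have hT : ∀ a, P.T r a ∈ D := fun a => D.sum_mem fun g hg => D.mul_mem (hm (P.E_mem a g)) (hrD g hg)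
  have hτ : ∀ a b, star (P.T r a) * P.T r b ∈ D := fun a b => D.mul_mem (hD.2 _ (hT a)) (hT b)
  have hj : ∀ a, P.ph a * star (P.T r a) ∈ D := fun a => D.mul_mem (hm (P.ph_mem a)) (hD.2 _ (hT a))
  have hj' : ∀ a, P.T r a * P.ph a ∈ D := fun a => D.mul_mem (hT a) (hm (P.ph_mem a))
  have t := tw hr hc
  obtain ⟨Y, hY, h1, h2⟩ := t.exists_inv (isClosed_MD (A := A) hD.1) (dg_mem (hops R_ops))
    (mat_mem fun a b => D.mul_mem (D.mul_mem (hm (P.ph_mem a)) (hm (P.ph_mem b))) (hτ a b))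
    (mat_mem fun a b => D.sum_mem fun j _ => D.mul_mem (hops (gam_ops j)) (D.mul_mem (D.add_mem
      (D.mul_mem (hm (P.dph_mem a j)) (hm (P.ph_mem b)))
      (D.mul_mem (hm (P.ph_mem a)) (hm (P.dph_mem b j)))) (hτ a b)))
  have e1 : ∀ ξ, JA P r (JJ P r ξ) = ξ := fun ξ => congrArg (fun T : W →L[ℝ] W => T ξ) (JA_JJ hr hc)
  have e2 : ∀ x, pp P r x = JJ P r (JA P r x) := fun x => by rw [pp_eq hc]; rfl
  have e3 : ∀ ξ, pp P r (JJ P r ξ) = JJ P r ξ := fun ξ => by rw [e2, e1]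
  have e4 : ∀ ξ, dg P.R (Y (JJ P r ξ)) = JJ P r (JA P r (dg P.R (Y (JJ P r ξ)))) := fun ξ => by
    rw [← e2]
    simpa [e3] using congrArg (fun T : HP W A →L[ℝ] _ => T (JJ P r ξ)) (t.P_RY h1 h2).symm
  have e5 : ∀ ξ, ‖JJ P r ξ‖ ^ 2 = ‖ξ‖ ^ 2 := fun ξ => by
    rw [← real_inner_self_eq_norm_sq, ← adjoint_inner_right, adjoint_JJ, e1,
      real_inner_self_eq_norm_sq]
  have e6 : ∀ {x}, x ∈ P.ops → (∀ y ∈ P.mul, y * x = x * y) → (∀ ξ,
      dg x (JJ P r ξ) = JJ P r (x ξ)) ∧ ∀ η, JA P r (dg x η) = x (JA P r η) := fun hx h =>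
    ⟨fun ξ => congrArg (fun T : W →L[ℝ] _ => T ξ) (dg_JJ hc hx h).1,
      fun η => congrArg (fun T : HP W A →L[ℝ] _ => T η) (dg_JJ hc hx h).2⟩
  have e7 := e6 w_ops P.mul_w
  have e8 := e6 (mul_ops P.chi_mem) fun y hy => P.mul_comm y hy _ P.chi_mem
  refine ⟨JA P r ∘L (dg P.R * Y) ∘L JJ P r,
    (MD D A).mul_mem (dg_mem (hops R_ops)) hY _ _ hj' hj, ⟨P.res.w_sa, P.res.w_sq, ?_, ?_⟩,
    ⟨fun a => P.T r a * P.ph a, fun a => row (Pi.single a 1) ∘L Y ∘L JJ P r,
      fun a => ⟨hj' a, hY _ _ (fun c => ?_) hj⟩, ?_⟩, fun η => ?_, fun a s' s h => ?_,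
    fun 𝒮 h η => ?_⟩
  · rw [star_eq_adjoint, adjoint_comp, adjoint_comp, adjoint_JJ, ← adjoint_JJ, adjoint_adjoint,
      ← star_eq_adjoint, t.RY_sa h2, comp_assoc]
  · ext ξ
    have := congrArg (fun T : HP W A →L[ℝ] _ => JA P r (T (JJ P r ξ))) (t.w_RY h1 h2)
    simp only [add_apply, mul_apply_eq_comp, map_add, e7.1, e7.2] at this
    simp only [two_mul, add_apply, mul_apply_eq_comp, comp_apply, ← e4, this]
  · rw [Pi.single_apply]
    split_ifs
    exacts [D.one_mem, D.zero_mem]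
  · ext ξ
    simp only [mul_apply_eq_comp, comp_apply, ← e8.2, _root_.sum_apply]
    rw [JA, row_apply]
    refine Finset.sum_congr rfl fun a _ => ?_
    rw [row_apply, Finset.sum_eq_single a (fun c _ h => by simp [Pi.single_eq_of_ne h]) (by simp),
      Pi.single_eq_same]
    rfl
  · have := t.lich h1 h2 (N_pp hr hc) (flat_pp hr hc) lich_dg (e3 η)
    rwa [e4, e7.1, e8.1, ← map_sub, e5, e5, e5] at this
  · change JA P r (dg P.R (Y (JJ P r _))) = _
    rw [t.RY_apply h1 (e3 _) (good hr hc h), e1]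
  · have k := 𝒮.sum_mem (t := Finset.univ) fun a _ => h a (Y (JJ P r η) a)
    set σ := JA P r (dg P.R (Y (JJ P r η))) with hσ
    have k1 : ∀ a, P.T r a (P.C a (P.R (Y (JJ P r η) a))) =
        ∑ j, P.gam j ((P.ph a * P.dph a j) σ) := fun a => by
      rw [← dg_apply, e4, Pack.C, _root_.sum_apply, map_sum]
      refine Finset.sum_congr rfl fun j _ => ?_
      rw [← T_ph hr hc (P.dph_mem a j) a, P.mul_comm _ (P.ph_mem a) _ (P.dph_mem a j),
        mul_apply_eq_comp, ← mul_apply_eq_comp (P.T r a),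
        (T_comm hc (gam_ops j) (fun y hy => P.mul_gam y hy j) a).1.eq]
      rfl
    have k2 : JA P r (Y (JJ P r η)) = η := by
      have b1 := congrArg (fun T : HP W A →L[ℝ] _ => JA P r (T (JJ P r σ))) t.PB
      have b2 := congrArg (fun T : HP W A →L[ℝ] _ => JA P r (T (JJ P r σ))) t.PCP
      simp only [mul_apply_eq_comp, e3, e2 (CC P r _), e2 (pb _ _ _), e1, zero_apply, map_zero]
        at b1 b2
      rw [Tw.Y_eq h2, map_sub, e1, e4, b1, b2, sub_zero]
    convert k using 1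
    rw [Prod.ext_iff, Prod.fst_sum, Prod.snd_sum]
    refine ⟨?_, row_apply _ _⟩
    simp only [map_add, k1, Finset.sum_add_distrib]
    rw [Finset.sum_comm]
    simp only [← map_sum, ← _root_.sum_apply, P.ph_dph, zero_apply, map_zero,
      Finset.sum_const_zero, add_zero]
    exact k2.symm.trans (row_apply _ _)

end Pool.Agent.Lib.RQ
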