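import Pool.Agent.Lib.RQ.TW91

/-! Matrices of operators; algebraic identities of a package with a local representation. -/

set_option linter.unusedSectionVars false

noncomputable section

open scoped InnerProductSpace
open ContinuousLinearMap

namespace Pool.Agent.Lib.RQ.M91

variable {W : Type} [NormedAddCommGroup W] [InnerProductSpace ℝ W] [CompleteSpace W]
  {A : Type} [Fintype A]

variable (A W) in
/-- the Hilbert sum -/
abbrev HP : Type := PiLp 2 fun _ : A => W

/-- a column of operators -/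
def col (u : A → W →L[ℝ] W) : W →L[ℝ] HP W A :=
  (PiLp.continuousLinearEquiv 2 ℝ fun _ : A => W).symm.toContinuousLinearMap ∘L .pi u

@[simp] theorem col_apply (u : A → W →L[ℝ] W) (ξ : W) (a : A) : col u ξ a = u a ξ := rfl

/-- a row of operators -/
def row (u : A → W →L[ℝ] W) : HP W A →L[ℝ] W := ∑ a, u a ∘L PiLp.proj 2 (fun _ : A => W) a

@[simp] theorem row_apply (u : A → W →L[ℝ] W) (x : HP W A) : row u x = ∑ a, u a (x a) := by
  simp [row]

/-- a matrix of operators -/
def mat (M : A → A → W →L[ℝ] W) : HP W A →L[ℝ] HP W A :=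
  (PiLp.continuousLinearEquiv 2 ℝ fun _ : A => W).symm.toContinuousLinearMap ∘L
    .pi fun a => row (M a)

@[simp] theorem mat_apply (M : A → A → W →L[ℝ] W) (x : HP W A) (a : A) :
    mat M x a = ∑ b, M a b (x b) := row_apply _ _

/-- a diagonal matrix -/
def dg (T : W →L[ℝ] W) : HP W A →L[ℝ] HP W A :=
  (PiLp.continuousLinearEquiv 2 ℝ fun _ : A => W).symm.toContinuousLinearMap ∘L
    .pi fun a => T ∘L PiLp.proj 2 (fun _ : A => W) a

@[simp] theorem dg_apply (T : W →L[ℝ] W) (x : HP W A) (a : A) : dg T x a = T (x a) := rfl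

theorem hp_ext {V : Type} [NormedAddCommGroup V] [NormedSpace ℝ V] {X Y : V →L[ℝ] HP W A}
    (h : ∀ x a, X x a = Y x a) : X = Y :=
  ContinuousLinearMap.ext fun x => PiLp.ext (h x)

theorem inner_col (u : A → W →L[ℝ] W) (ξ : W) (x : HP W A) :
    ⟪col u ξ, x⟫_ℝ = ⟪ξ, row (fun a => star (u a)) x⟫_ℝ := by
  rw [PiLp.inner_apply, row_apply, inner_sum]
  exact Finset.sum_congr rfl fun a _ => (adjoint_inner_right (u a) ξ (x a)).symm

theorem star_dg (T : W →L[ℝ] W) : star (dg T : HP W A →L[ℝ] _) = dg (star T) :=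
  ((eq_adjoint_iff _ _).2 fun x y => by
    simp only [PiLp.inner_apply, dg_apply, ALG91.inner_star]).symm

theorem dg_mul (T S : W →L[ℝ] W) : (dg T * dg S : HP W A →L[ℝ] _) = dg (T * S) := rfl

theorem dg_add (T S : W →L[ℝ] W) : (dg T + dg S : HP W A →L[ℝ] _) = dg (T + S) := rfl

theorem dg_mat (T : W →L[ℝ] W) (M : A → A → W →L[ℝ] W) :
    dg T * mat M = mat fun a b => T * M a b := hp_ext fun x a => by simp

theorem mat_dg (T : W →L[ℝ] W) (M : A → A → W →L[ℝ] W) :
    mat M * dg T = mat fun a b => M a b * T := hp_ext fun x a => by simp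

theorem mat_add (M M' : A → A → W →L[ℝ] W) : mat M + mat M' = mat fun a b => M a b + M' a b :=
  hp_ext fun x a => by simp [Finset.sum_add_distrib]

theorem mat_sub (M M' : A → A → W →L[ℝ] W) : mat M - mat M' = mat fun a b => M a b - M' a b :=
  hp_ext fun x a => by simp

theorem col_row (u v : A → W →L[ℝ] W) : col u ∘L row v = mat fun a b => u a * v b :=
  hp_ext fun x a => by simp

theorem row_col (u v : A → W →L[ℝ] W) : row u ∘L col v = ∑ a, u a * v a := by
  ext x
  simp

theorem mat_col (M : A → A → W →L[ℝ] W) (v : A → W →L[ℝ] W) :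
    mat M ∘L col v = col fun a => ∑ b, M a b * v b := hp_ext fun x a => by simp

open Classical in
/-- matrices with entries in `D` -/
def MD (D : Subalgebra ℝ (W →L[ℝ] W)) (A : Type) [Fintype A] :
    Subalgebra ℝ (HP W A →L[ℝ] HP W A) where
  carrier := {X | ∀ u v : A → W →L[ℝ] W, (∀ a, u a ∈ D) → (∀ a, v a ∈ D) →
    row u ∘L X ∘L col v ∈ D}
  add_mem' h h' u v hu hv := by
    rw [add_comp, comp_add]
    exact D.add_mem (h u v hu hv) (h' u v hu hv)
  mul_mem' {X Y} h h' u v hu hv := by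
    have h1 : ∀ c a : A, (Pi.single c 1 : A → W →L[ℝ] W) a ∈ D := fun c a => by
      rw [Pi.single_apply]
      split_ifs
      exacts [D.one_mem, D.zero_mem]
    have : row u ∘L (X * Y) ∘L col v = ∑ c, (row u ∘L X ∘L col (Pi.single c 1)) *
        (row (Pi.single c 1) ∘L Y ∘L col v) := by
      ext ξ
      simp only [_root_.sum_apply, mul_apply_eq_comp, comp_apply, ← map_sum]
      congr 2
      refine PiLp.ext fun a => ?_
      rw [WithLp.ofLp_sum, Finset.sum_apply, Finset.sum_eq_single a (fun c _ h => by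
        simp [Pi.single_eq_of_ne h.symm]) (by simp), col_apply, row_apply,
        Finset.sum_eq_single a (fun c _ h => by simp [Pi.single_eq_of_ne h]) (by simp)]
      simp
    rw [this]
    exact D.sum_mem fun c _ => D.mul_mem (h _ _ hu (h1 c)) (h' _ _ (h1 c) hv)
  algebraMap_mem' c u v hu hv := by
    rw [Algebra.algebraMap_eq_smul_one, smul_comp, comp_smul, one_def, id_comp, row_col]
    exact D.smul_mem (D.sum_mem fun a _ => D.mul_mem (hu a) (hv a)) c

variable {D : Subalgebra ℝ (W →L[ℝ] W)}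

theorem isClosed_MD (hD : IsClosed (D : Set (W →L[ℝ] W))) :
    IsClosed (MD D A : Set (HP W A →L[ℝ] HP W A)) := by
  have : (MD D A : Set (HP W A →L[ℝ] HP W A)) = ⋂ (u) (v) (_ : ∀ a, u a ∈ D) (_ : ∀ a, v a ∈ D),
      (fun X => row u ∘L X ∘L col v) ⁻¹' D := by
    ext X
    simp only [Set.mem_iInter]
    rfl
  rw [this]
  exact isClosed_iInter fun u => isClosed_iInter fun v => isClosed_iInter fun _ =>
    isClosed_iInter fun _ => hD.preimage (by fun_prop)

theorem mat_mem {M : A → A → W →L[ℝ] W} (h : ∀ a b, M a b ∈ D) : mat M ∈ MD D A :=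
  fun u v hu hv => by
    rw [mat_col, row_col]
    exact D.sum_mem fun a _ => D.mul_mem (hu a) (D.sum_mem fun b _ => D.mul_mem (h a b) (hv b))

theorem dg_mem {T : W →L[ℝ] W} (h : T ∈ D) : dg T ∈ MD D A := fun u v hu hv => by
  rw [show dg T ∘L col v = col fun a => T * v a from rfl, row_col]
  exact D.sum_mem fun a _ => D.mul_mem (hu a) (D.mul_mem h (hv a))

variable {G : Type} [Group G] {n : ℕ} (P : Pack G W n A) {r : G → W →L[ℝ] W}

open Classical in
/-- the quotients of the elements of `F` -/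
def F2 : Finset G := (P.F ×ˢ P.F).image fun q => q.1⁻¹ * q.2

variable {P} (hr : IsLoc P.F r)
  (hc : ∀ g ∈ P.F, ∀ x ∈ P.ops, r g * x = x * r g ∧ star (r g) * x = x * star (r g))

theorem mul_ops {x : W →L[ℝ] W} (h : x ∈ P.mul) : x ∈ P.ops := .inl (.inl (.inl h))

theorem w_ops : P.w ∈ P.ops := .inl (.inl (.inr (.inl rfl)))

theorem R_ops : P.R ∈ P.ops := .inl (.inl (.inr (.inr rfl)))

theorem gam_ops (j : Fin n) : P.gam j ∈ P.ops := .inl (.inr ⟨j, rfl⟩)

theorem N_ops (j : Fin n) : P.N j ∈ P.ops := .inr ⟨j, rfl⟩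

theorem star_T (a : A) : star (P.T r a) = ∑ g ∈ P.F, star (r g) * P.E a g := by
  simp only [Pack.T, star_sum, star_mul, P.mul_sa _ (P.E_mem _ _)]

include hc in
/-- `T a` commutes with everything that commutes with the multiplication operators -/
theorem T_comm {x : W →L[ℝ] W} (hx : x ∈ P.ops) (h : ∀ y ∈ P.mul, y * x = x * y) (a : A) :
    Commute (P.T r a) x ∧ Commute (star (P.T r a)) x := by
  rw [star_T]
  exact ⟨Commute.sum_left _ _ _ fun g hg => Commute.mul_left (h _ (P.E_mem a g)) (hc g hg x hx).1,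
    Commute.sum_left _ _ _ fun g hg => Commute.mul_left (hc g hg x hx).2 (h _ (P.E_mem a g))⟩

include hc in
theorem T_mul {x : W →L[ℝ] W} (hx : x ∈ P.mul) (a : A) :
    Commute (P.T r a) x ∧ Commute (star (P.T r a)) x :=
  T_comm hc (mul_ops hx) (fun _ hy => P.mul_comm _ hy _ hx) a

include hr hc

theorem r_comm {g : G} (hg : g ∈ F2 P) {x : W →L[ℝ] W} (hx : x ∈ P.ops) : Commute (r g) x := by
  classical
  obtain ⟨⟨h, k⟩, h1, rfl⟩ := Finset.mem_image.1 hg
  obtain ⟨h1, h2⟩ := Finset.mem_product.1 h1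
  rw [← (hr.2 h h1).2 k h2]
  exact Commute.mul_left (hc h h1 x hx).2 (hc k h2 x hx).1

theorem T_star (a : A) : P.T r a * star (P.T r a) = ∑ g ∈ P.F, P.E a g := by
  classical
  rw [star_T, Pack.T, Finset.sum_mul_sum]
  refine Finset.sum_congr rfl fun g hg => ?_
  have k : ∀ h ∈ P.F, P.E a g * r g * (star (r h) * P.E a h) =
      P.E a g * P.E a h * (r g * star (r h)) := fun h hh => by
    rw [(hc h hh _ (mul_ops (P.E_mem a h))).2, mul_assoc, ← mul_assoc (r g),
      (hc g hg _ (mul_ops (P.E_mem a h))).1]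
    simp only [mul_assoc]
  rw [Finset.sum_congr rfl k, Finset.sum_eq_single g (fun h _ hh => by
    rw [P.E_mul, if_neg hh.symm, zero_mul]) (fun h => absurd hg h), P.E_mul, if_pos rfl,
    (hr.2 g hg).1, mul_one]

theorem star_T_T (a b : A) : star (P.T r a) * P.T r b = ∑ g ∈ F2 P, P.E2 a b g * r g := by
  classical
  simp only [Pack.E2, Finset.sum_mul]
  rw [Finset.sum_comm, star_T, Finset.sum_mul]
  refine Finset.sum_congr rfl fun h hh => ?_
  rw [Pack.T, Finset.mul_sum, ← Finset.sum_subset (s₁ := P.F.image fun k => h⁻¹ * k) (s₂ := F2 P)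
    (fun g hg => by
      obtain ⟨k, hk, rfl⟩ := Finset.mem_image.1 hg
      exact Finset.mem_image.2 ⟨(h, k), Finset.mem_product.2 ⟨hh, hk⟩, rfl⟩)
    (fun g _ hg => by
      rw [P.E_off b (h * g) fun h' => hg (Finset.mem_image.2 ⟨_, h', inv_mul_cancel_left h g⟩),
        mul_zero, zero_mul]),
    Finset.sum_image fun _ _ _ _ e => mul_left_cancel e]
  refine Finset.sum_congr rfl fun k hk => ?_
  rw [mul_inv_cancel_left, ← (hr.2 h hh).2 k hk, (hc h hh _ (mul_ops (P.E_mem a h))).2, mul_assoc,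
    ← mul_assoc (star (r h)), (hc h hh _ (mul_ops (P.E_mem b k))).2]
  simp only [mul_assoc]

/-- sandwiches of `T a` -/
theorem T_ph {x : W →L[ℝ] W} (hx : x ∈ P.mul) (a : A) :
    P.T r a * (P.ph a * x) * star (P.T r a) = P.ph a * x := by
  rw [((T_mul hc (P.ph_mem a) a).1.mul_right (T_mul hc hx a).1).eq, mul_assoc, T_star hr hc,
    mul_assoc, ← (Commute.sum_left _ _ _ fun g _ => P.mul_comm _ (P.E_mem a g) _ hx).eq,
    ← mul_assoc, ← (Commute.sum_left _ _ _ fun g _ => P.mul_comm _ (P.E_mem a g) _ (P.ph_mem a)).eq,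
    P.ph_supp]

theorem comm_sum (a b : A) :
    let τ := star (P.T r a) * P.T r b
    let ψ := P.ph a * P.ph b * τ
    let dψ := fun j => (P.dph a j * P.ph b + P.ph a * P.dph b j) * τ
    let C := ∑ j, P.gam j * dψ j
    ψ * P.R - P.R * ψ = P.R * C * P.R ∧ ∀ j, P.N j * (ψ + C * P.R) = ψ * P.N j + dψ j * P.R := by
  intro τ ψ dψ C
  have k : ∀ x, x * τ = ∑ g ∈ F2 P, x * P.E2 a b g * r g := fun x => by
    simp only [τ, star_T_T hr hc, Finset.mul_sum, mul_assoc]
  have kC : C = ∑ g ∈ F2 P, (∑ j, P.gam j *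
      ((P.dph a j * P.ph b + P.ph a * P.dph b j) * P.E2 a b g)) * r g := by
    simp only [C, dψ, k, Finset.mul_sum, Finset.sum_mul]
    rw [Finset.sum_comm]
    simp only [mul_assoc]
  have k2 : ∀ (X : G → W →L[ℝ] W) {y}, y ∈ P.ops →
      (∑ g ∈ F2 P, X g * r g) * y = ∑ g ∈ F2 P, X g * y * r g := fun X y hy => by
    rw [Finset.sum_mul]
    exact Finset.sum_congr rfl fun g hg => by rw [mul_assoc, (r_comm hr hc hg hy).eq, mul_assoc]
  refine ⟨?_, fun j => ?_⟩
  · rw [mul_assoc P.R C, kC, k2 _ R_ops]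
    simp only [ψ, k]
    rw [k2 _ R_ops, Finset.mul_sum, Finset.mul_sum, ← Finset.sum_sub_distrib]
    refine Finset.sum_congr rfl fun g _ => ?_
    rw [← mul_assoc, ← sub_mul, ← mul_assoc, ← mul_assoc]
    exact congrArg (· * r g) (P.comm a b g).1
  · rw [kC, k2 _ R_ops]
    simp only [ψ, dψ, k]
    rw [k2 _ R_ops, k2 _ (N_ops j), ← Finset.sum_add_distrib, ← Finset.sum_add_distrib,
      Finset.mul_sum]
    refine Finset.sum_congr rfl fun g _ => ?_
    rw [← add_mul, ← add_mul, ← mul_assoc]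
    exact congrArg (· * r g) ((P.comm a b g).2 j)

end Pool.Agent.Lib.RQ.M91
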