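import Pool.Agent.Lib.RQ.Blue
import Pool.Agent.Lib.MZ.Blue

/-! Block MXL: from the obstruction of `MZ` to the format of route Q. -/

noncomputable section

open Set BCO ContinuousLinearMap

namespace Pool.Agent.Lib.RQ

open Pool.Agent.Lib.MZ (toB)

namespace MXL

section Gen

variable {H K K' : Type} [Group H] [NormedAddCommGroup K] [InnerProductSpace ℝ K] [CompleteSpace K]
  [NormedAddCommGroup K'] [InnerProductSpace ℝ K'] [CompleteSpace K']

/-- the closed algebra generated by an orthogonal representation -/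
def alg (ρ : H →* (K ≃ₗᵢ[ℝ] K)) : Subalgebra ℝ (K →L[ℝ] K) := clos (range fun x => toB (ρ x))

omit [CompleteSpace K] in
theorem gen_mem (ρ : H →* (K ≃ₗᵢ[ℝ] K)) (x : H) : toB (ρ x) ∈ alg ρ :=
  Subalgebra.le_topologicalClosure _ (Algebra.subset_adjoin ⟨x, rfl⟩)

omit [CompleteSpace K] in
theorem isClosed_alg (ρ : H →* (K ≃ₗᵢ[ℝ] K)) : IsClosed (alg ρ : Set (K →L[ℝ] K)) :=
  Subalgebra.isClosed_topologicalClosure _

omit [CompleteSpace K] in
theorem alg_sub (ρ : H →* (K ≃ₗᵢ[ℝ] K)) : (alg ρ : Set (K →L[ℝ] K)) ⊆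
    closure (Submodule.span ℝ (range fun x => toB (ρ x)) : Set (K →L[ℝ] K)) := by
  refine closure_mono fun c hc => ?_
  have h1 : c ∈ Subalgebra.toSubmodule (Algebra.adjoin ℝ (range fun x => toB (ρ x))) := hc
  rw [Algebra.adjoin_eq_span] at h1
  refine Submodule.span_mono (fun d hd => ?_) h1
  have h2 : Submonoid.closure (range fun x => toB (ρ x)) ≤ MonoidHom.mrange (toB.comp ρ) :=
    Submonoid.closure_le.2 fun _ ⟨x, hx⟩ => ⟨x, hx⟩
  obtain ⟨x, hx⟩ := h2 hd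
  exact ⟨x, hx⟩

omit [CompleteSpace K] in
theorem alg_ind (ρ : H →* (K ≃ₗᵢ[ℝ] K)) (S : Submodule ℝ (K →L[ℝ] K))
    (hS : IsClosed (S : Set (K →L[ℝ] K))) (h : ∀ x, toB (ρ x) ∈ S) {c : K →L[ℝ] K}
    (hc : c ∈ alg ρ) : c ∈ S :=
  closure_minimal (t := (S : Set (K →L[ℝ] K)))
    (Submodule.span_le.2 (by rintro _ ⟨x, rfl⟩; exact h x)) hS (alg_sub ρ hc)

theorem star_toB (U : K ≃ₗᵢ[ℝ] K) : star (toB U) = toB U⁻¹ := U.adjoint_eq_symm

theorem isCS_alg (ρ : H →* (K ≃ₗᵢ[ℝ] K)) : IsCS (alg ρ) := by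
  refine ⟨isClosed_alg ρ, fun c hc => ?_⟩
  let S : Submodule ℝ (K →L[ℝ] K) :=
    { carrier := {c | star c ∈ alg ρ}
      add_mem' := fun {a b} ha hb => by
        change star (a + b) ∈ alg ρ
        rw [star_add]; exact add_mem ha hb
      zero_mem' := by
        change star 0 ∈ alg ρ
        rw [star_zero]; exact zero_mem _
      smul_mem' := fun r a ha => by
        change star (r • a) ∈ alg ρ
        rw [star_smul]; exact Subalgebra.smul_mem _ ha _ }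
  refine alg_ind ρ S ((isClosed_alg ρ).preimage continuous_star) (fun x => ?_) hc
  change star (toB (ρ x)) ∈ alg ρ
  rw [star_toB, ← map_inv]
  exact gen_mem ρ _

/-- compression to an invariant subspace -/
theorem exists_compress (ρ : H →* (K ≃ₗᵢ[ℝ] K)) (j : K' →ₗᵢ[ℝ] K) (R : Subalgebra ℝ (K' →L[ℝ] K'))
    (hR : IsClosed (R : Set (K' →L[ℝ] K'))) (h : ∀ x, ∃ T ∈ R, ∀ ξ, ρ x (j ξ) = j (T ξ)) :
    ∃ Φ : alg ρ →+* R, ∀ c ξ, c.1 (j ξ) = j ((Φ c).1 ξ) := by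
  let J : K' →L[ℝ] K := j.toContinuousLinearMap
  have hJ : ∀ ξ, adjoint J (J ξ) = ξ := fun ξ => by
    refine ext_inner_left ℝ fun η => ?_
    rw [adjoint_inner_right]
    exact j.inner_map_map η ξ
  let κ : (K →L[ℝ] K) →L[ℝ] (K' →L[ℝ] K') :=
    (compL ℝ K' K K' (adjoint J)).comp ((compL ℝ K' K K).flip J)
  let S : Submodule ℝ (K →L[ℝ] K) := (Subalgebra.toSubmodule R).comap κ.toLinearMap ⊓
    LinearMap.ker (((compL ℝ K' K K).flip J) - (compL ℝ K' K' K J).comp κ).toLinearMap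
  have hS : IsClosed (S : Set (K →L[ℝ] K)) :=
    (hR.preimage κ.continuous).inter (ContinuousLinearMap.isClosed_ker _)
  have key : ∀ c : alg ρ, ∃ T : R, ∀ ξ, c.1 (j ξ) = j (T.1 ξ) := fun c => by
    have h1 : c.1 ∈ S := alg_ind ρ S hS (fun x => by
      obtain ⟨T, hT, hx⟩ := h x
      have e : κ (toB (ρ x)) = T := by
        ext1 ξ
        change adjoint J (ρ x (j ξ)) = T ξ
        rw [hx]; exact hJ _
      refine ⟨?_, ?_⟩
      · change κ (toB (ρ x)) ∈ R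
        rw [e]; exact hT
      · ext1 ξ
        change ρ x (j ξ) - j (κ (toB (ρ x)) ξ) = 0
        rw [e, hx, sub_self]) c.2
    refine ⟨⟨κ c.1, h1.1⟩, fun ξ => sub_eq_zero.1 ?_⟩
    exact DFunLike.congr_fun h1.2 ξ
  choose Φ hΦ using key
  have ext : ∀ T T' : R, (∀ ξ, j (T.1 ξ) = j (T'.1 ξ)) → T = T' := fun T T' e =>
    Subtype.ext (ContinuousLinearMap.ext fun ξ => j.injective (e ξ))
  refine ⟨{ toFun := Φ
            map_one' := ext _ _ fun ξ => (hΦ 1 ξ).symm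
            map_mul' := fun c d => ext _ _ fun ξ => ?_
            map_zero' := ext _ _ fun ξ => ?_
            map_add' := fun c d => ext _ _ fun ξ => ?_ }, hΦ⟩
  · rw [← hΦ]
    change c.1 (d.1 (j ξ)) = j ((Φ c).1 ((Φ d).1 ξ))
    rw [hΦ, hΦ]
  · rw [← hΦ]
    change (0 : K) = j 0
    rw [map_zero]
  · rw [← hΦ]
    change c.1 (j ξ) + d.1 (j ξ) = j ((Φ c).1 ξ + (Φ d).1 ξ)
    rw [hΦ, hΦ, map_add]

/-- transport of a representation -/
def conj (U : K ≃ₗᵢ[ℝ] K') : (K ≃ₗᵢ[ℝ] K) →* (K' ≃ₗᵢ[ℝ] K') where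
  toFun T := (U.symm.trans T).trans U
  map_one' := by ext; simp
  map_mul' _ _ := by ext; simp

omit [CompleteSpace K] [CompleteSpace K'] in
theorem exists_back (ρ : H →* (K ≃ₗᵢ[ℝ] K)) (U : K ≃ₗᵢ[ℝ] K') :
    ∃ ψ : alg ((conj U).comp ρ) →+* alg ρ, ∀ b ξ, b.1 (U ξ) = U ((ψ b).1 ξ) := by
  let κ : (K' →L[ℝ] K') →L[ℝ] (K →L[ℝ] K) :=
    (compL ℝ K K' K U.symm.toContinuousLinearEquiv.toContinuousLinearMap).comp
      ((compL ℝ K K' K').flip U.toContinuousLinearEquiv.toContinuousLinearMap)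
  have hκ : ∀ b ξ, κ b ξ = U.symm (b (U ξ)) := fun _ _ => rfl
  have mem : ∀ b : alg ((conj U).comp ρ), κ b.1 ∈ alg ρ := fun b =>
    alg_ind _ ((Subalgebra.toSubmodule (alg ρ)).comap κ.toLinearMap)
      ((isClosed_alg ρ).preimage κ.continuous) (fun x => by
        have e : κ (toB ((conj U).comp ρ x)) = toB (ρ x) := by
          ext1 ξ
          change U.symm (U (ρ x (U.symm (U ξ)))) = ρ x ξ
          simp
        change κ (toB ((conj U).comp ρ x)) ∈ alg ρ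
        rw [e]; exact gen_mem ρ x) b.2
  refine ⟨{ toFun := fun b => ⟨κ b.1, mem b⟩
            map_one' := Subtype.ext (ContinuousLinearMap.ext fun ξ => U.symm_apply_apply ξ)
            map_mul' := fun c d => Subtype.ext (ContinuousLinearMap.ext fun ξ => ?_)
            map_zero' := Subtype.ext (map_zero κ)
            map_add' := fun c d => Subtype.ext (map_add κ _ _) }, fun b ξ => ?_⟩
  · change U.symm (c.1 (d.1 (U ξ))) = U.symm (c.1 (U (U.symm (d.1 (U ξ)))))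
    rw [U.apply_symm_apply]
  · exact (U.apply_symm_apply _).symm

end Gen

variable {G : Type} [Group G]

theorem tw_eq (g : G) (T : ℝ →L[ℝ] ℝ) : tw g T = T 1 • (lam g : V G ℝ →L[ℝ] V G ℝ) :=
  op_ext fun ξ x => by
    have h : ∀ t : ℝ, T t = T 1 * t := fun t => by
      rw [mul_comm, ← smul_eq_mul, ← map_smul, smul_eq_mul, mul_one]
    exact h _

theorem lam_mem (g : G) : (lam g : V G ℝ →L[ℝ] V G ℝ) ∈ RA G ℝ := tw_id (E := ℝ) g ▸ tw_mem g 1

theorem RA_eq : (RA G ℝ : Set (V G ℝ →L[ℝ] V G ℝ)) = IT.redAlg G := by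
  refine Subset.antisymm (closure_mono (Submodule.span_le.2 ?_)) (closure_minimal
    (Submodule.span_le (p := RR G ℝ ℝ).2 ?_) isClosed_RR)
  · rintro _ ⟨g, T, rfl⟩
    rw [tw_eq]
    exact Submodule.smul_mem _ _ (Submodule.subset_span ⟨g, fun _ _ => rfl⟩)
  · rintro T ⟨g, hg⟩
    have : T = lam g := op_ext hg
    rw [this]; exact lam_mem g

end MXL

open MXL in
theorem stMXL (hMX : MZ.St_MX) : St_MXL := by
  classical
  obtain ⟨G, iG, hG, p, hp, -, hO⟩ := hMX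
  have hp' : p ∈ RA G ℝ := by
    exact (RA_eq (G := G)).superset hp
  refine ⟨G, iG, hG, BCH.cls1 (⟨p, hp'⟩ : RA G ℝ), fun F => ?_⟩
  obtain ⟨H, _, q, s, K, _, _, _, ρ, j, hq, hs, hj, hK⟩ :=
    hO (insert 1 (F ∪ Finset.image₂ (fun g h => g⁻¹ * h) F F))
  obtain ⟨I, b, -⟩ := exists_hilbertBasis ℝ K
  obtain ⟨Φ, hΦ⟩ := exists_compress ρ j (RA G ℝ) isClosed_RA fun x => ⟨lam (q x), lam_mem _, hj x⟩
  obtain ⟨ψ, hψ⟩ := exists_back ρ b.repr
  have s1 : s 1 = 1 := by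
    have := hs 1 (Finset.mem_insert_self _ _) 1 (Finset.mem_insert_self _ _)
    rw [mul_one] at this
    exact left_eq_mul.1 this
  refine ⟨I, alg ((conj b.repr).comp ρ), fun g => toB ((conj b.repr).comp ρ (s g)),
    b.repr.toLinearIsometry.comp j, Φ.comp ψ, ⟨isCS_alg _, fun g _ => gen_mem _ _, ⟨?_, ?_⟩, ?_, ?_⟩,
    fun κ hκ => ?_⟩
  · simp only [s1, map_one]
  · intro g hg
    refine ⟨by rw [star_toB, ← map_mul, mul_inv_cancel, map_one], fun h hh => ?_⟩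
    have e := hs g (by simp [hg]) (g⁻¹ * h)
      (Finset.mem_insert_of_mem (Finset.mem_union_right _ (Finset.mem_image₂_of_mem hg hh)))
    rw [mul_inv_cancel_left] at e
    rw [star_toB, ← map_mul, ← map_inv, ← map_mul, e, inv_mul_cancel_left]
  · intro g _ ξ
    change b.repr (ρ (s g) (b.repr.symm (b.repr (j ξ)))) = b.repr (j (lam g ξ))
    rw [b.repr.symm_apply_apply, hj, hq]
    rfl
  · intro c ξ
    change c.1 (b.repr (j ξ)) = b.repr (j ((Φ (ψ c)).1 ξ))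
    rw [hψ, hΦ]
  · refine hK (alg ρ) (RA G ℝ) (alg_sub ρ) (RA_eq (G := G)).subset hp' Φ hΦ
      (BCH.K0.map (ψ : alg ((conj b.repr).comp ρ) →ₙ+* alg ρ) κ) ?_
    rw [BCH.map_map]
    exact hκ

end Pool.Agent.Lib.RQ
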