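import Pool.Agent.Lib.RQ.Blue

/-! Block PUSH: compression to an invariant subspace. -/

noncomputable section

open Set MeasureTheory BCO ContinuousLinearMap
open scoped InnerProductSpace

namespace Pool.Agent.Lib.RQ

namespace PUSH

section Gen

variable {X Y : Type} [NormedAddCommGroup X] [NormedSpace ℝ X] [NormedAddCommGroup Y]
  [NormedSpace ℝ Y]

/-- compression as a continuous linear map -/
def cp (M : X →L[ℝ] Y) (L : Y →L[ℝ] X) : (X →L[ℝ] X) →L[ℝ] (Y →L[ℝ] Y) :=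
  (compL ℝ Y X Y M) ∘L ((compL ℝ Y X X).flip L)

theorem cp_apply (M : X →L[ℝ] Y) (L : Y →L[ℝ] X) (T : X →L[ℝ] X) : cp M L T = M ∘L T ∘L L := rfl

/-- the operators that leave the range of `L` invariant, with compression in `S` -/
def good (M : X →L[ℝ] Y) (L : Y →L[ℝ] X) (S : Submodule ℝ (Y →L[ℝ] Y)) :
    Submodule ℝ (X →L[ℝ] X) :=
  S.comap (cp M L).toLinearMap ⊓
    LinearMap.ker ((compL ℝ Y X X).flip L - compL ℝ Y Y X L ∘L cp M L).toLinearMap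

theorem mem_good {M : X →L[ℝ] Y} {L : Y →L[ℝ] X} {S : Submodule ℝ (Y →L[ℝ] Y)} {T : X →L[ℝ] X} :
    T ∈ good M L S ↔ M ∘L T ∘L L ∈ S ∧ T ∘L L = L ∘L M ∘L T ∘L L :=
  and_congr Iff.rfl sub_eq_zero

theorem closed_good (M : X →L[ℝ] Y) (L : Y →L[ℝ] X) {S : Submodule ℝ (Y →L[ℝ] Y)}
    (hS : IsClosed (S : Set (Y →L[ℝ] Y))) : IsClosed (good M L S : Set (X →L[ℝ] X)) :=
  (hS.preimage (cp M L).continuous).inter (ContinuousLinearMap.isClosed_ker _)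

theorem good_of {M : X →L[ℝ] Y} {L : Y →L[ℝ] X} {S : Submodule ℝ (Y →L[ℝ] Y)} (h : M ∘L L = 1)
    {T : X →L[ℝ] X} {T' : Y →L[ℝ] Y} (hT : T ∘L L = L ∘L T') (hS : T' ∈ S) : T ∈ good M L S := by
  have e : M ∘L T ∘L L = T' := by rw [hT, ← comp_assoc, h]; rfl
  rw [mem_good, e]
  exact ⟨hS, hT⟩

theorem clos_le {R : Set (X →L[ℝ] X)} {S : Submodule ℝ (X →L[ℝ] X)}
    (hS : IsClosed (S : Set (X →L[ℝ] X))) (h : R ⊆ S) :
    (Submodule.span ℝ R).topologicalClosure ≤ S :=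
  Submodule.topologicalClosure_minimal _ (Submodule.span_le.2 h) hS

theorem closed_clos (R : Submodule ℝ (X →L[ℝ] X)) :
    IsClosed (R.topologicalClosure : Set (X →L[ℝ] X)) := Submodule.isClosed_topologicalClosure _

theorem mem_clos {R : Set (X →L[ℝ] X)} {T : X →L[ℝ] X} (h : T ∈ R) :
    T ∈ (Submodule.span ℝ R).topologicalClosure :=
  Submodule.le_topologicalClosure _ (Submodule.subset_span h)

/-- compression as a ring homomorphism -/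
def hom {M : X →L[ℝ] Y} {L : Y →L[ℝ] X} {D : Subalgebra ℝ (X →L[ℝ] X)}
    {D' : Subalgebra ℝ (Y →L[ℝ] Y)}
    (h : ∀ T ∈ D, M ∘L T ∘L L ∈ D' ∧ T ∘L L = L ∘L M ∘L T ∘L L) : D →ₙ+* D' where
  toFun T := ⟨cp M L T.1, (h T.1 T.2).1⟩
  map_mul' S T := Subtype.ext (by
    change M ∘L (S.1 ∘L T.1) ∘L L = (M ∘L S.1 ∘L L) ∘L (M ∘L T.1 ∘L L)
    rw [comp_assoc M, comp_assoc S.1, comp_assoc S.1, ← (h T.1 T.2).2])
  map_zero' := Subtype.ext (map_zero (cp M L))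
  map_add' S T := Subtype.ext (map_add (cp M L) S.1 T.1)

end Gen

variable {I J : Type} {B : Subalgebra ℝ (V I ℝ →L[ℝ] V I ℝ)}
  {B' : Subalgebra ℝ (V J ℝ →L[ℝ] V J ℝ)} {j : V J ℝ →ₗᵢ[ℝ] V I ℝ} {Φ : B →+* B'}
  (E : Type) [NormedAddCommGroup E] [InnerProductSpace ℝ E] [CompleteSpace E]

theorem iso (hL : St_LIFT) (j : V J ℝ →ₗᵢ[ℝ] V I ℝ) :
    adjoint (lift E j.toContinuousLinearMap) ∘L lift E j.toContinuousLinearMap = 1 := by
  rw [((hL J I J E E).1 _).2.2.2.1, ← ((hL J I J E E).1 _).2.2.2.2.2.2.2.2.2,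
    j.adjoint_comp_self, (hL J J J E E).2.1]

theorem gen (hL : St_LIFT) (h : ∀ b ξ, b.1 (j ξ) = j ((Φ b).1 ξ)) (T : E →L[ℝ] E) (b : B) :
    (amp I T * lift E b.1) ∘L lift E j.toContinuousLinearMap =
      lift E j.toContinuousLinearMap ∘L (amp J T * lift E (Φ b).1) := by
  have e : b.1 ∘L j.toContinuousLinearMap = j.toContinuousLinearMap ∘L (Φ b).1 :=
    ContinuousLinearMap.ext (h b)
  rw [mul_def, mul_def, comp_assoc, ← ((hL J I I E E).1 _).2.2.2.2.2.2.2.2.2, e,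
    ((hL J J I E E).1 _).2.2.2.2.2.2.2.2.2, ← comp_assoc, ← ((hL J I I E E).1 _).2.2.2.2.2.2.1,
    comp_assoc]

theorem da (hL : St_LIFT) (hD : St_DAK) (hB : IsCS B) (hB' : IsCS B')
    (h : ∀ b ξ, b.1 (j ξ) = j ((Φ b).1 ξ)) : ∀ X ∈ DA E B,
    X ∈ good (adjoint (lift E j.toContinuousLinearMap)) (lift E j.toContinuousLinearMap)
      (DA E B').toSubmodule := by
  obtain ⟨a1, a2, a3, -⟩ := hD J E E B' hB'
  exact (hD I E E B hB).2.2.2.1 _ (closed_good _ _ a1.1) fun T b hb =>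
    good_of (iso E hL j) (gen E hL h T ⟨b, hb⟩) ((DA E B').mul_mem (a2 T) (a3 _ (Φ ⟨b, hb⟩).2))

theorem ka (hL : St_LIFT) (h : ∀ b ξ, b.1 (j ξ) = j ((Φ b).1 ξ)) : KA E B ≤
    good (adjoint (lift E j.toContinuousLinearMap)) (lift E j.toContinuousLinearMap) (KA E B') := by
  refine clos_le (closed_good _ _ (closed_clos _)) ?_
  rintro _ ⟨T, b, hT, rfl⟩
  exact good_of (iso E hL j) (gen E hL h T b) (mem_clos ⟨T, Φ b, hT, rfl⟩)

variable {E} in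
theorem sand (hL : St_LIFT) (j : V J ℝ →ₗᵢ[ℝ] V I ℝ) {F : Type} [NormedAddCommGroup F]
    [InnerProductSpace ℝ F] [CompleteSpace F] (S : E →L[ℝ] F) (T : F →L[ℝ] E)
    (X : V I E →L[ℝ] V I E) :
    adjoint (lift F j.toContinuousLinearMap) ∘L (amp I S ∘L X ∘L amp I T) ∘L
      lift F j.toContinuousLinearMap = amp J S ∘L (adjoint (lift E j.toContinuousLinearMap) ∘L X ∘L
        lift E j.toContinuousLinearMap) ∘L amp J T := by
  rw [((hL J I J E E).1 _).2.2.2.1, ((hL J I J F F).1 _).2.2.2.1, comp_assoc, comp_assoc,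
    ← ((hL J I I F E).1 _).2.2.2.2.2.2.1, ← comp_assoc, ((hL I J J E F).1 _).2.2.2.2.2.2.1]
  simp only [comp_assoc]

end PUSH

open PUSH in
theorem stPUSH (hL : St_LIFT) (hD : St_DAK) (hC : St_CTX) : St_PUSH := by
  intro I J E _ _ _ B B' hB hB' j Φ h L
  refine ⟨iso E hL j, fun X hX => mem_good.1 (da E hL hD hB hB' h X hX), ?_⟩
  rintro e - f - κ ⟨C, e', f', ⟨c1, c2⟩, he, hf, hI⟩
  obtain ⟨C', c1', c2'⟩ := (hC J E B' hB').1
  let Ψ : DA (E1 E) B →ₙ+* DA (E1 E) B' :=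
    hom fun X hX => mem_good.1 (da (E1 E) hL hD hB hB' h X hX)
  have hΨ : ∀ X, (Ψ X).1 = adjoint (lift (E1 E) j.toContinuousLinearMap) ∘L X.1 ∘L
      lift (E1 E) j.toContinuousLinearMap := fun _ => rfl
  have key := hI.map (C' := C') Ψ (Φ : B →ₙ+* B') (fun a => Subtype.ext ?_) fun a ha =>
    (c2' _).2 (mem_good.1 (ka (E1 E) hL h ((c2 a).1 ha))).1
  · refine ⟨C', Ψ e', Ψ f', ⟨c1', c2'⟩, ?_, ?_, ?_⟩
    · rw [hΨ, he]; exact sand hL j _ _ _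
    · rw [hΨ, hf]; exact sand hL j _ _ _
    · rw [← map_mul Ψ]; exact key
  · have e1 : a.1 ∘L j.toContinuousLinearMap = j.toContinuousLinearMap ∘L (Φ a).1 :=
      ContinuousLinearMap.ext (h a)
    rw [hΨ, c1, c1', sand hL j, ((hL J I I ℝ ℝ).1 _).2.2.2.2.1, e1, ← comp_assoc (adjoint _),
      j.adjoint_comp_self]
    rfl

end Pool.Agent.Lib.RQ
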