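import Pool.Agent.Lib.RQ.Blue
import Pool.Agent.Lib.CX.Vol

/-! The Riemannian volume exists and is unique. -/

namespace Pool.Agent.Lib.RQ

theorem stVOL : St_VOL := fun _ _ _ x => x.existsUnique_isVol

end Pool.Agent.Lib.RQ
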