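import Pool.Agent.Lib.RQ.Glue
import Pool.Agent.Lib.RQ.Wrap
import Pool.Agent.Lib.RQ.ALG
import Pool.Agent.Lib.RQ.LIFT
import Pool.Agent.Lib.RQ.MISH
import Pool.Agent.Lib.RQ.AMP
import Pool.Agent.Lib.RQ.DAK
import Pool.Agent.Lib.RQ.CTX
import Pool.Agent.Lib.RQ.FRED
import Pool.Agent.Lib.RQ.PUSH
import Pool.Agent.Lib.RQ.CONV
import Pool.Agent.Lib.RQ.INV
import Pool.Agent.Lib.RQ.BRG
import Pool.Agent.Lib.RQ.GRAPH
import Pool.Agent.Lib.RQ.VOL
import Pool.Agent.Lib.RQ.UNI40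
import Pool.Agent.Lib.RQ.CLF
import Pool.Agent.Lib.RQ.MXL
import Pool.Agent.Lib.AN.ASM
import Pool.Agent.Lib.MZ.ASM

/-! The assembly of all blocks. -/

namespace Pool.Agent.Lib.RQ

theorem alg_holds : St_ALG :=
  have hD := stDAK stLIFT
  have hC := stCTX stLIFT hD
  stALG stLIFT stMISH (stAMP stLIFT) hD (stFRED stINV hD hC) (stPUSH stLIFT hD hC)
    (stCONV stLIFT hD)

theorem goal_holds : St_GOAL :=
  goal_of alg_holds (stANA AN.ana_holds) stGRAPH stVOL stUNI40 stCLF (stMXL MZ.stMX)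

theorem final_holds : St_FINAL := wrap goal_holds

end Pool.Agent.Lib.RQ
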