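import Pool.Agent.Lib.RQ.Blue

noncomputable section

open scoped InnerProductSpace

namespace Pool.Agent.Lib.RQ

namespace TW

section alg

variable {A : Type} [Ring A] [StarRing A] {w R p C : A}

lemma right (hR : star R = R) (hi : ∀ x, R * x = 0 → x = 0) {x : A} (h : x * R = 0) : x = 0 :=
  star_eq_zero.1 (hi _ (by rw [← hR, ← star_mul, h, star_zero]))

lemma both (hR : star R = R) (hi : ∀ x, R * x = 0 → x = 0) {x : A} (h : R * x * R = 0) : x = 0 :=
  hi _ (right hR hi h)

lemma facts (hw : star w = w) (hR : star R = R) (ha : w * R + R * w = 2 * (R * R))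
    (hi : ∀ x, R * x = 0 → x = 0) (hp : star p = p) (hp2 : p * p = p) (hpw : p * w = w * p)
    (hC : p * R - R * p = R * C * R) :
    p * C + C * p = C ∧ star ((1 - 2 * p) * C) = (1 - 2 * p) * C ∧
      w * ((1 - 2 * p) * C) + (1 - 2 * p) * C * w = 0 ∧
      (1 - 2 * p) * C * p - p * ((1 - 2 * p) * C) = C := by
  have h1 : C + star C = 0 := both hR hi (by
    have h := congrArg star hC
    simp only [star_sub, star_mul, hR, hp] at h
    linear_combination (norm := noncomm_ring) -hC - h)
  have h2 : (p + C * R) * (p + C * R) - (p + C * R) = 0 := hi _ (by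
    linear_combination (norm := noncomm_ring) -hC * (p + C * R) - p * hC + hp2 * R + hC)
  have h3 : p * C + C * p - C = 0 := right hR hi (by
    linear_combination (norm := noncomm_ring) h2 - hp2 + C * hC)
  have h4 : w * C + C * w = 0 := both hR hi (by
    linear_combination (norm := noncomm_ring) ha * C * R + R * C * ha + w * hC + hC * w -
      2 * R * hC - 2 * hC * R + hpw * R + R * hpw - p * ha + ha * p)
  have h5 : p * C * p = 0 := by
    linear_combination (norm := noncomm_ring) p * h3 - hp2 * C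
  refine ⟨sub_eq_zero.1 h3, ?_, ?_, ?_⟩
  · simp only [star_sub, star_mul, hp, star_one, star_ofNat]
    linear_combination (norm := noncomm_ring) h1 * (1 - 2 * p) + 2 * h3
  · linear_combination (norm := noncomm_ring) (1 - 2 * p) * h4 + 2 * hpw * C
  · linear_combination (norm := noncomm_ring) h3 - 2 * h5 + 2 * hp2 * C

lemma inverse {B L : A} (hR : star R = R) (hB : star B = B) (hL : L * (1 - B * R) = 1) :
    (1 - B * R) * L = 1 := by
  have h1 : (1 + R * L * B) * (1 - R * B) = 1 := by
    linear_combination (norm := noncomm_ring) R * hL * B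
  have h2 := congrArg star h1
  rw [star_mul, star_sub, star_mul, hR, hB, star_one] at h2
  rw [left_inv_eq_right_inv hL h2, h2]

lemma concl {B Z : A} (hR : star R = R) (ha : w * R + R * w = 2 * (R * R)) (hB : star B = B)
    (hw : w * B + B * w = 0) (hC : p * R - R * p = R * C * R) (hp : B * p - p * B = C)
    (h1 : Z * (1 - B * R) = 1) (h2 : (1 - B * R) * Z = 1) :
    star (R * Z) = R * Z ∧ w * (R * Z) + R * Z * w = 2 * (R * Z * (R * Z)) ∧
      p * (R * Z) = R * Z * p := by
  have h3 := congrArg star h2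
  rw [star_mul, star_sub, star_mul, hR, hB, star_one] at h3
  have h4 : star Z * R = R * Z := by
    linear_combination (norm := noncomm_ring) h3 * R * Z - star Z * R * h2
  refine ⟨by rw [star_mul, hR, h4], ?_, ?_⟩
  · linear_combination (norm := noncomm_ring) star Z * ha * Z - star Z * R * hw * R * Z -
      h3 * w * R * Z - star Z * R * w * h2 - h4 * w + 2 * h4 * R * Z
  · linear_combination (norm := noncomm_ring) star Z * hC * Z - star Z * R * hp * R * Z -
      h3 * p * R * Z + star Z * R * p * h2 + h4 * p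

end alg

variable {W : Type} [NormedAddCommGroup W] [InnerProductSpace ℝ W] [CompleteSpace W]
  {w R B : W →L[ℝ] W}

lemma inner_star (x : W →L[ℝ] W) (u v : W) : ⟪x u, v⟫_ℝ = ⟪u, star x v⟫_ℝ :=
  (ContinuousLinearMap.adjoint_inner_right x u v).symm

lemma bound (h : Res w R) (hB : star B = B) (hw : w * B + B * w = 0) (η : W) :
    ‖η‖ ≤ (1 + ‖B‖) * ‖(1 - B * R) η‖ := by
  have h1 : ∀ v, ‖w v‖ = ‖v‖ := fun v => by
    have := inner_star w v (w v)
    rw [h.w_sa, ← ContinuousLinearMap.mul_apply, h.w_sq, ContinuousLinearMap.one_apply,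
      real_inner_self_eq_norm_sq, real_inner_self_eq_norm_sq] at this
    exact (sq_eq_sq₀ (norm_nonneg _) (norm_nonneg _)).1 this
  have h2 : ⟪η, w (R η)⟫_ℝ = ‖R η‖ ^ 2 := by
    have h2 := congrArg (fun x : W →L[ℝ] W => ⟪η, x η⟫_ℝ) h.anti
    have h3 := inner_star R η (w η)
    have h4 := inner_star R η (R η)
    have h5 := inner_star w η (R η)
    simp only [two_mul, ContinuousLinearMap.add_apply, ContinuousLinearMap.mul_apply,
      inner_add_right] at h2
    rw [h.sa] at h3 h4
    rw [h.w_sa, real_inner_comm] at h5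
    rw [real_inner_self_eq_norm_sq] at h4
    linarith
  have h3 : ∀ v, ⟪B v, w v⟫_ℝ = 0 := fun v => by
    have h2 := congrArg (fun x : W →L[ℝ] W => ⟪v, x v⟫_ℝ) hw
    have h3 := inner_star B v (w v)
    have h5 := inner_star w v (B v)
    simp only [ContinuousLinearMap.add_apply, ContinuousLinearMap.mul_apply, inner_add_right,
      ContinuousLinearMap.zero_apply, inner_zero_right] at h2
    rw [hB] at h3
    rw [h.w_sa, real_inner_comm] at h5
    linarith
  have h4 : (1 - B * R) η = η - B (R η) := rfl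
  have h5 := real_inner_le_norm ((1 - B * R) η) (w (R η))
  rw [h1, h4, inner_sub_left, h2, h3, ← h4, sub_zero, sq] at h5
  have h6 : ‖R η‖ ≤ ‖(1 - B * R) η‖ := by
    rcases (norm_nonneg (R η)).eq_or_lt with h6 | h6
    · rw [← h6]; exact norm_nonneg _
    · exact le_of_mul_le_mul_right h5 h6
  have h7 := norm_add_le ((1 - B * R) η) (B (R η))
  rw [h4, sub_add_cancel, ← h4] at h7
  have h8 := (B.le_opNorm (R η)).trans (mul_le_mul_of_nonneg_left h6 (norm_nonneg B))
  linarith

end TW

theorem stTW (hI : St_INV) : St_TW := by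
  intro W _ _ _ D hD w R p C hR hp hC h hi h1 h2 h3 h4
  obtain ⟨h5, h6, h7, h8⟩ := TW.facts h.w_sa h.sa h.anti (fun x hx =>
    ContinuousLinearMap.ext fun v => hi ((congrArg (fun y : W →L[ℝ] W => y v) hx).trans
      (map_zero R).symm)) h1 h2 h3 h4
  obtain ⟨h9, h10⟩ := hI W D hD
  have h11 : (1 - 2 * p) * C ∈ D := mul_mem (sub_mem (one_mem _) (by
    rw [two_mul]; exact add_mem hp hp)) hC
  generalize (1 - 2 * p) * C = B at *
  have h12 : 0 < 1 + ‖B‖ := by positivity
  obtain ⟨y, -, hy⟩ := h10 (star (1 - B * R) * (1 - B * R)) (by rw [star_mul, star_star])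
    (((1 + ‖B‖) ^ 2)⁻¹) (by positivity) fun η => by
      rw [ContinuousLinearMap.mul_apply, real_inner_comm, ← TW.inner_star,
        real_inner_self_eq_norm_sq, inv_mul_le_iff₀ (by positivity), ← mul_pow]
      exact pow_le_pow_left₀ (norm_nonneg _) (TW.bound h h6 h7 η) 2
  rw [← mul_assoc] at hy
  have h13 := TW.inverse h.sa h6 hy
  obtain ⟨h14, h15, h16⟩ := TW.concl h.sa h.anti h6 h7 h4 h8 hy h13
  exact ⟨_, h9 _ (sub_mem (one_mem _) (mul_mem h11 hR)) _ h13 hy, hy, h13,
    ⟨h.w_sa, h.w_sq, h14, h15⟩, h16, h5⟩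

end Pool.Agent.Lib.RQ
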