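import Pool.Agent.Lib.RQ.Blue
import Pool.Agent.Lib.ALG91.Twist

/-! Blocks INV and TW. -/

namespace Pool.Agent.Lib.RQ

open ALG91

theorem stINV91 : St_INV := fun W _ _ _ D hD => ⟨fun x hx y h1 h2 => by
    obtain ⟨Y, hY, h3, -⟩ := inv_below hD.1 hx (hD.2 x hx) (c := ‖y‖ + 1) (by positivity)
      (fun η => by
        have := y.le_opNorm (x η)
        rw [← mul_apply_eq_comp, h2, one_apply_eq_self] at this
        nlinarith [norm_nonneg (x η)])
      fun η => by
        have := (star y).le_opNorm (star x η)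
        rw [← mul_apply_eq_comp, ← star_mul, h1, star_one, one_apply_eq_self,
          show ‖star y‖ = ‖y‖ from LinearIsometryEquiv.norm_map ContinuousLinearMap.adjoint y] at this
        nlinarith [norm_nonneg (star x η)]
    rwa [← left_inv_eq_right_inv h3 h1],
  fun x _ c hc h => let ⟨Y, _, h1, h2⟩ := inv_coer (A := ⊤) isClosed_univ Algebra.mem_top hc h
    ⟨Y, h2, h1⟩⟩

theorem tw_of {W : Type} [NormedAddCommGroup W] [InnerProductSpace ℝ W] [CompleteSpace W]
    {w R p C : W →L[ℝ] W} (h : Res w R) (hi : Function.Injective R) (h1 : star p = p)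
    (h2 : p * p = p) (h3 : p * w = w * p) (h4 : p * R - R * p = R * C * R) : Tw R w p C :=
  ⟨h.sa, hi, h.w_sa, h.w_sq, h.anti.trans (two_mul _), h1, h2, h3, h4⟩

theorem stTW91 : St_TW := fun W _ _ _ D hD w R p C hR hp hC h hi h1 h2 h3 h4 => by
  have t := tw_of h hi h1 h2 h3 h4
  obtain ⟨Z, hZ, k1, k2⟩ := t.exists_inv hD.1 hR hp hC
  have e : 1 - (1 - 2 * p) * C * R = 1 + pb p C * R := by rw [pb]; noncomm_ring
  rw [e]
  exact ⟨Z, hZ, k1, k2, ⟨h.w_sa, h.w_sq, t.RY_sa k2, (t.w_RY k1 k2).trans (two_mul _).symm⟩,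
    t.P_RY k1 k2, t.PC⟩

end Pool.Agent.Lib.RQ
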