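import Pool.Agent.Lib.RQ.Blue
import Pool.Agent.Lib.MFI.CXGlue

/-! Block UNI. -/

namespace Pool.Agent.Lib.RQ

open BCO

theorem stUNI : St_UNI := by
  intro G _ E _ _ _ P e hP _ he hee z z' h h'
  exact MFI.isInd_unique he (amp_mem P) hee (by rw [← ampA_apply, ← map_mul, hP]) h h'

end Pool.Agent.Lib.RQ
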