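import Pool.Agent.Lib.RQ.Blue
import Pool.Agent.Lib.MFI.CXGlue

/-! Block UNI. -/

namespace Pool.Agent.Lib.RQ

open BCO

theorem stUNI40 : St_UNI := fun G _ E _ _ _ P e hP _ he h2 _ _ h h' =>
  MFI.isInd_unique he (amp_mem P) h2 ((amp_comp P P).trans (congrArg (amp G) hP)) h h'

end Pool.Agent.Lib.RQ
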